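import Pool.Agent.Y560.TT.Lim

set_option autoImplicit false

/-! Every thick class contains a minimal one. -/

namespace Pool.Agent.Y560.TT

open Set
open Pool.Agent.H899R2.VP
open Pool.Agent.H533R2.VO

variable {a : ℕ → ℕ}

/-- Minimal thick classes. -/
def Mnl (K : Set (St a)) (M : St a) (S : Set ℕ) (β : Ordinal.{0}) : Prop :=
  ¬ Thin (Cl K M S β) ∧ ∀ γ, β ≤ γ → γ < Ordinal.omega 1 → ∀ N₁ ∈ Cl K M S β,
    ∀ N₂ ∈ Cl K M S β, ¬ Thin (Cl K N₁ S γ) → ¬ Thin (Cl K N₂ S γ) →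
    BF N₁ N₂ univ univ γ (idOn S)

theorem add_nat_le_add_omega (γ : Ordinal.{0}) (n : ℕ) : γ + n ≤ γ + Ordinal.omega0 := by
  gcongr
  exact (Ordinal.natCast_lt_omega0 n).le

theorem add_omega_lt {γ : Ordinal.{0}} (h : γ < Ordinal.omega 1) :
    γ + Ordinal.omega0 < Ordinal.omega 1 :=
  Ordinal.isPrincipal_add_omega 1 h Ordinal.omega0_lt_omega_one

theorem add_nat_lt {γ : Ordinal.{0}} (h : γ < Ordinal.omega 1) (n : ℕ) :
    γ + n < Ordinal.omega 1 := (add_nat_le_add_omega γ n).trans_lt (add_omega_lt h)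

/-- General form of `good_step`. -/
theorem good_step' {α : Ordinal.{0}} {K : Set (St a)} (hK : GK α K) {A : Set (St a)}
    (hA : A ⊆ K) (hthick : ¬ Thin A) {M : St a} {F : Set ℕ}
    (hsat : ∀ N ∈ A, ∀ N', IsoOn N N' univ univ (idOn F) → N' ∈ A)
    (hF : F.Finite) (e : List ℕ) {β δ : Ordinal.{0}} (hδ : δ < Ordinal.omega 1)
    (h : ∀ N ∈ A, BF M N univ univ (β + e.length) (idOn F)) :
    ∃ L ∈ A, BF M L univ univ β (idOn (F ∪ {x | x ∈ e})) ∧
      ¬ Thin {N | N ∈ A ∧ BF L N univ univ δ (idOn (F ∪ {x | x ∈ e}))} := by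
  have hfin : (F ∪ {x | x ∈ e}).Finite := hF.union (List.finite_toSet e)
  set B : Set (St a) := {N | N ∈ A ∧ BF M N univ univ β (idOn (F ∪ {x | x ∈ e}))} with hB
  have hBt : ¬ Thin B := by
    intro hthin
    apply hthick
    refine hthin.sat fun N hN => ?_
    obtain ⟨N', h1, h2⟩ := reloc e (h N hN)
    exact ⟨N', ⟨hsat N hN N' h1, h2⟩, (iso_symm_id h1).mono (empty_subset _)⟩
  obtain ⟨L, hL, h3⟩ := sub_thick hK (fun N hN => hA hN.1) hBt hfin hδ
  exact ⟨L, hL.1, hL.2, fun h4 => h3 (h4.mono fun N hN => ⟨hN.1.1, hN.2⟩)⟩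

/-- States of the construction. -/
abbrev Sta (a : ℕ → ℕ) : Type 1 := St a × Set ℕ × Ordinal.{0}

/-- Good states. -/
structure Gd (K : Set (St a)) (M : St a) (S : Set ℕ) (β : Ordinal.{0}) (σ : Sta a) : Prop where
  mem : σ.1 ∈ Cl K M S β
  fin : σ.2.1.Finite
  sub : S ⊆ σ.2.1
  ge : β ≤ σ.2.2
  lt : σ.2.2 < Ordinal.omega 1
  thick : ¬ Thin (Cl K σ.1 σ.2.1 (σ.2.2 + Ordinal.omega0))

/-- The splitting step. -/
theorem split_step {α : Ordinal.{0}} {K : Set (St a)} (hK : GK α K) {M : St a} {S : Set ℕ}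
    {β : Ordinal.{0}} (hno : ∀ M' ∈ Cl K M S β, ∀ β', β ≤ β' → β' < Ordinal.omega 1 →
      ¬ Mnl K M' S β') (hS : S.Finite) {N : St a} {F : Set ℕ} {γ : Ordinal.{0}}
    (hσ : Gd K M S β (N, F, γ)) : ∃ δ, γ ≤ δ ∧ ∃ N₀ N₁ : St a,
      (N₀ ∈ Cl K N F γ ∧ Gd K M S β (N₀, F, δ)) ∧ (N₁ ∈ Cl K N F γ ∧ Gd K M S β (N₁, F, δ)) ∧
      ¬ BF N₀ N₁ univ univ δ (idOn S) := by
  obtain ⟨e, he⟩ := exists_list hσ.fin
  simp only at he
  have hFe : S ∪ {x | x ∈ e} = F := by
    rw [← he]; exact union_eq_self_of_subset_left hσ.sub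
  have hthick : ¬ Thin (Cl K N S (γ + e.length)) := fun h =>
    hσ.thick (h.mono (cl_mono hσ.sub (add_nat_le_add_omega _ _)))
  have hge : β ≤ γ + e.length := hσ.ge.trans le_self_add
  have hlt : γ + e.length < Ordinal.omega 1 := add_nat_lt hσ.lt _
  have hnm := hno N hσ.mem _ hge hlt
  have h1 : ∃ δ, γ + e.length ≤ δ ∧ δ < Ordinal.omega 1 ∧ ∃ N₁ ∈ Cl K N S (γ + e.length),
      ∃ N₂ ∈ Cl K N S (γ + e.length), ¬ Thin (Cl K N₁ S δ) ∧ ¬ Thin (Cl K N₂ S δ) ∧
      ¬ BF N₁ N₂ univ univ δ (idOn S) := by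
    by_contra hcon
    push Not at hcon
    exact hnm ⟨hthick, fun δ h1 h2 N₁ h3 N₂ h4 h5 h6 => hcon δ h1 h2 N₁ h3 N₂ h4 h5 h6⟩
  obtain ⟨δ, hδ1, hδ2, N₁, hN1, N₂, hN2, ht1, ht2, hnb⟩ := h1
  have hδω := add_omega_lt hδ2
  have key : ∀ L ∈ Cl K N S (γ + e.length), ¬ Thin (Cl K L S δ) → ∃ L', L' ∈ Cl K N F γ ∧
      Gd K M S β (L', F, δ) ∧ BF L L' univ univ δ (idOn S) := by
    intro L hL ht
    obtain ⟨L', h2, h3, h4⟩ := good_step' hK (A := Cl K L S δ) (fun N hN => hN.1) ht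
      (M := N) (F := S)
      (fun N hN N' hi => ⟨hK.iso N hN.1 N' (hi.mono (empty_subset _)),
        bf_trans_id hN.2 (hi.bf _)⟩) hS e (β := γ) hδω
      (fun N' hN' => bf_trans_id hL.2 (hN'.2.mono hδ1))
    rw [hFe] at h3 h4
    refine ⟨L', ⟨h2.1, h3⟩, ⟨⟨h2.1, ?_⟩, hσ.fin, hσ.sub, hge.trans hδ1, hδ2, ?_⟩, h2.2⟩
    · exact bf_trans_id hσ.mem.2 ((h3.mono hσ.ge).subset (idOn_mono hσ.sub))
    · exact fun h5 => h4 (h5.mono fun N' hN' => ⟨hN'.1.1, hN'.2⟩)
  obtain ⟨L₁, h5, h6, h7⟩ := key N₁ hN1 ht1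
  obtain ⟨L₂, h8, h9, h10⟩ := key N₂ hN2 ht2
  refine ⟨δ, le_self_add.trans hδ1, L₁, L₂, ⟨h5, h6⟩, ⟨h8, h9⟩, fun h => hnb ?_⟩
  exact bf_trans_id h7 (bf_trans_id h (bf_symm_id h10))

/-- The full step: add the elements of `e` and split. -/
theorem full_step {α : Ordinal.{0}} {K : Set (St a)} (hK : GK α K) {M : St a} {S : Set ℕ}
    {β : Ordinal.{0}} (hno : ∀ M' ∈ Cl K M S β, ∀ β', β ≤ β' → β' < Ordinal.omega 1 →
      ¬ Mnl K M' S β') (hS : S.Finite) {σ : Sta a}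
    (hσ : Gd K M S β σ) (e : List ℕ) : ∃ s : Bool → Sta a,
      (∀ b, Gd K M S β (s b) ∧ (s b).2.1 = σ.2.1 ∪ {x | x ∈ e} ∧ σ.2.2 + 1 ≤ (s b).2.2 ∧
        BF σ.1 (s b).1 univ univ (σ.2.2 + 1) (idOn (σ.2.1 ∪ {x | x ∈ e}))) ∧
      (s false).2.2 = (s true).2.2 ∧
      ¬ BF (s false).1 (s true).1 univ univ (s false).2.2 (idOn S) := by
  obtain ⟨N, F, γ⟩ := σ
  have hγ1 : γ + 1 < Ordinal.omega 1 := by simpa using add_nat_lt hσ.lt 1
  have h1 : ¬ Thin (Cl K N F ((γ + 1) + e.length)) := by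
    refine fun h => hσ.thick (h.mono (cl_mono Subset.rfl ?_))
    rw [add_assoc]
    have : (1 : Ordinal.{0}) + (e.length : Ordinal.{0}) = ((1 + e.length : ℕ) : Ordinal.{0}) := by
      push_cast; rfl
    rw [this]
    exact add_nat_le_add_omega _ _
  obtain ⟨N', h2, h3, h4⟩ := good_step hK hK.iso hσ.fin e (add_omega_lt hγ1) h1
  have hsub : S ⊆ F ∪ {x | x ∈ e} := hσ.sub.trans subset_union_left
  have hge : β ≤ γ + 1 := hσ.ge.trans le_self_add
  have hG : Gd K M S β (N', F ∪ {x | x ∈ e}, γ + 1) := by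
    refine ⟨⟨h2.1, ?_⟩, hσ.fin.union (List.finite_toSet e), hsub, hge, hγ1, h4⟩
    exact bf_trans_id hσ.mem.2 ((h2.2.mono hge).subset (idOn_mono hsub))
  obtain ⟨δ, h5, N₀, N₁, ⟨h6, h7⟩, ⟨h8, h9⟩, h10⟩ := split_step hK hno hS hG
  refine ⟨fun b => (if b then N₁ else N₀, F ∪ {x | x ∈ e}, δ), ?_, rfl, by simpa using h10⟩
  intro b
  cases b
  · exact ⟨by simpa using h7, rfl, h5, by simpa using bf_trans_id h2.2 h6.2⟩
  · exact ⟨by simpa using h9, rfl, h5, by simpa using bf_trans_id h2.2 h8.2⟩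

/-- The relation between consecutive states. -/
structure Edge (σj σ σ' : Sta a) (i x : ℕ) : Prop where
  sub : σ.2.1 ⊆ σ'.2.1
  mem : i ∈ σ'.2.1
  lev : σ.2.2 + 1 ≤ σ'.2.2
  bf : BF σ.1 σ'.1 univ univ (σ.2.2 + 1) (idOn σ'.2.1)
  req : ∃ x' ∈ σ'.2.1, BF σj.1 σ'.1 univ univ σj.2.2 (insert (x, x') (idOn σj.2.1))

/-- Valid histories. -/
structure Val (K : Set (St a)) (M : St a) (S : Set ℕ) (β : Ordinal.{0}) (σ0 : Sta a) (k : ℕ)
    (h : ℕ → Sta a) : Prop where
  zero : h 0 = σ0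
  gd : ∀ i ≤ k, Gd K M S β (h i)
  edge : ∀ i < k, Edge (h i.unpair.1) (h i) (h (i + 1)) i i.unpair.2

variable {α β : Ordinal.{0}} {K : Set (St a)} {M : St a} {S : Set ℕ} {σ0 : Sta a}

theorem Val.coh {k : ℕ} {h : ℕ → Sta a} (hv : Val K M S β σ0 k h) {j i : ℕ} (hji : j ≤ i)
    (hik : i ≤ k) : BF (h j).1 (h i).1 univ univ ((h j).2.2 + 1) (idOn (h j).2.1) ∧
      (h j).2.1 ⊆ (h i).2.1 ∧ (h j).2.2 ≤ (h i).2.2 := by
  induction i, hji using Nat.le_induction with
  | base => exact ⟨bf_refl_id _ _ _, Subset.rfl, le_rfl⟩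
  | succ i hji ih =>
    obtain ⟨h1, h2, h3⟩ := ih (by omega)
    have he := hv.edge i (by omega)
    refine ⟨?_, h2.trans he.sub, h3.trans (le_self_add.trans he.lev)⟩
    refine bf_trans_id h1 ((he.bf.mono ?_).subset (idOn_mono (h2.trans he.sub)))
    gcongr

theorem val_step (hK : GK α K) (hno : ∀ M' ∈ Cl K M S β, ∀ β', β ≤ β' → β' < Ordinal.omega 1 →
      ¬ Mnl K M' S β') (hS : S.Finite) {k : ℕ} {h : ℕ → Sta a} (hv : Val K M S β σ0 k h) :
    ∃ s : Bool → Sta a, (∀ b, Val K M S β σ0 (k + 1) (Function.update h (k + 1) (s b))) ∧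
      (s false).2.2 = (s true).2.2 ∧
      ¬ BF (s false).1 (s true).1 univ univ (s false).2.2 (idOn S) := by
  have hj : k.unpair.1 ≤ k := Nat.unpair_left_le k
  obtain ⟨h1, h2, h3⟩ := hv.coh hj le_rfl
  obtain ⟨x', -, hx'⟩ := h1.forth (lt_add_one _) (mem_univ k.unpair.2)
  obtain ⟨s, hs1, hs2, hs3⟩ := full_step hK hno hS (hv.gd k le_rfl) [x', k]
  refine ⟨s, fun b => ?_, hs2, hs3⟩
  obtain ⟨hb1, hb2, hb3, hb4⟩ := hs1 b
  refine ⟨?_, fun i hi => ?_, fun i hi => ?_⟩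
  · rw [Function.update_of_ne (by omega)]; exact hv.zero
  · rcases Nat.lt_or_ge k i with hki | hki
    · have : i = k + 1 := by omega
      subst this
      rw [Function.update_self]; exact hb1
    · rw [Function.update_of_ne (by omega)]; exact hv.gd i hki
  · have hu : i.unpair.1 ≤ i := Nat.unpair_left_le i
    rcases Nat.lt_or_ge i k with hik | hik
    · rw [Function.update_of_ne (by omega), Function.update_of_ne (by omega),
        Function.update_of_ne (by omega)]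
      exact hv.edge i hik
    · have : i = k := by omega
      subst this
      rw [Function.update_of_ne (by omega), Function.update_of_ne (by omega),
        Function.update_self]
      refine ⟨?_, ?_, hb3, ?_, x', ?_, ?_⟩
      · rw [hb2]; exact subset_union_left
      · rw [hb2]; exact Or.inr (by simp)
      · rw [hb2]; exact hb4
      · rw [hb2]; exact Or.inr (by simp)
      · refine (hx'.comp (hb4.mono (h3.trans le_self_add))).subset ?_
        rintro u (rfl | ⟨h5, h6⟩)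
        · exact ⟨x', mem_insert _ _, rfl, Or.inr (by simp)⟩
        · exact ⟨u.1, mem_insert_of_mem _ ⟨rfl, h6⟩, h5, Or.inl (h2 h6)⟩

/-- Every thick class contains a minimal one. -/
theorem exists_min (hK : GK α K) (hS : S.Finite) (hβ : β < Ordinal.omega 1)
    (hthick : ¬ Thin (Cl K M S β)) :
    ∃ M' ∈ Cl K M S β, ∃ β', β ≤ β' ∧ β' < Ordinal.omega 1 ∧ Mnl K M' S β' := by
  classical
  by_contra hcon
  have hno : ∀ M' ∈ Cl K M S β, ∀ β', β ≤ β' → β' < Ordinal.omega 1 → ¬ Mnl K M' S β' :=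
    fun M' h1 β' h2 h3 h4 => hcon ⟨M', h1, β', h2, h3, h4⟩
  -- the initial state
  set γ₀ := max α β with hγ₀
  have hγ₀lt : γ₀ < Ordinal.omega 1 := max_lt hK.lt hβ
  obtain ⟨M₀, hM₀, hM₀t⟩ := sub_thick hK (A := Cl K M S β) (fun N hN => hN.1) hthick hS
    (add_omega_lt hγ₀lt)
  have hM₀t' : ¬ Thin (Cl K M₀ S (γ₀ + Ordinal.omega0)) :=
    fun h => hM₀t (h.mono fun N hN => ⟨hN.1.1, hN.2⟩)
  set σ0 : Sta a := (M₀, S, γ₀) with hσ0
  have hG0 : Gd K M S β σ0 := ⟨hM₀, hS, Subset.rfl, le_max_right _ _, hγ₀lt, hM₀t'⟩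
  have hV0 : Val K M S β σ0 0 (fun _ => σ0) :=
    ⟨rfl, fun _ _ => hG0, fun i hi => absurd hi (Nat.not_lt_zero i)⟩
  have hst : ∀ (k : ℕ) (h : {h : ℕ → Sta a // Val K M S β σ0 k h}), ∃ s : Bool → Sta a,
      (∀ b, Val K M S β σ0 (k + 1) (Function.update h.1 (k + 1) (s b))) ∧
      (s false).2.2 = (s true).2.2 ∧
      ¬ BF (s false).1 (s true).1 univ univ (s false).2.2 (idOn S) :=
    fun k h => val_step hK hno hS h.2
  choose s hs1 hs2 hs3 using hst
  let G : (ℕ → Bool) → ∀ k, {h : ℕ → Sta a // Val K M S β σ0 k h} := fun b k =>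
    Nat.rec ⟨fun _ => σ0, hV0⟩ (fun k h => ⟨Function.update h.1 (k + 1) (s k h (b k)),
      hs1 k h (b k)⟩) k
  have hGs : ∀ b k, (G b (k + 1)).1 = Function.update (G b k).1 (k + 1) (s k (G b k) (b k)) :=
    fun b k => rfl
  have hGle : ∀ b k i, i ≤ k → (G b k).1 i = (G b i).1 i := by
    intro b k i hik
    induction k, hik using Nat.le_induction with
    | base => rfl
    | succ k hik ih => rw [hGs, Function.update_of_ne (by omega), ih]
  have hGeq : ∀ b b' k, (∀ i < k, b i = b' i) → G b k = G b' k := by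
    intro b b' k
    induction k with
    | zero => intro _; rfl
    | succ k ih =>
      intro h
      have h1 := ih fun i hi => h i (by omega)
      have h2 := h k (by omega)
      apply Subtype.ext
      rw [hGs, hGs, h1, h2]
  -- the sequences
  let Q : (ℕ → Bool) → ℕ → Sta a := fun b k => (G b k).1 k
  have hQG : ∀ b k i, i ≤ k → (G b k).1 i = Q b i := fun b k i hik => hGle b k i hik
  have hval : ∀ b k, Val K M S β σ0 k (Q b) := by
    intro b k
    have h1 := (G b k).2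
    refine ⟨?_, fun i hi => ?_, fun i hi => ?_⟩
    · have := h1.zero
      rw [hQG b k 0 (Nat.zero_le _)] at this
      exact this
    · rw [← hQG b k i hi]; exact h1.gd i hi
    · have hu : i.unpair.1 ≤ i := Nat.unpair_left_le i
      rw [← hQG b k i hi.le, ← hQG b k (i + 1) hi, ← hQG b k i.unpair.1 (by omega)]
      exact h1.edge i hi
  have hseq : ∀ b, Seq (fun k => (Q b k).1) (fun k => (Q b k).2.1) (fun k => (Q b k).2.2) := by
    intro b
    refine ⟨fun k => ((hval b (k + 1)).edge k (by omega)).sub,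
      fun k => ((hval b (k + 1)).edge k (by omega)).mem,
      fun k => le_self_add.trans ((hval b (k + 1)).edge k (by omega)).lev,
      fun k => ((hval b (k + 1)).coh (j := k) (i := k + 1) (by omega) le_rfl).1, fun j x => ?_⟩
    have he := (hval b (Nat.pair j x + 1)).edge (Nat.pair j x) (by omega)
    rw [Nat.unpair_pair] at he
    obtain ⟨x', h1, h2⟩ := he.req
    exact ⟨Nat.pair j x + 1, (Nat.left_le_pair j x).trans (by omega), x', h1, h2⟩
  let g : (ℕ → Bool) → St a := fun b => lim fun k => (Q b k).1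
  have hgbf : ∀ b j, BF (Q b j).1 (g b) univ univ (Q b j).2.2 (idOn (Q b j).2.1) :=
    fun b j => (hseq b).bf le_rfl
  have hQeq : ∀ b b' k, (∀ i < k, b i = b' i) → Q b k = Q b' k := fun b b' k h => by
    simp only [Q, hGeq b b' k h]
  have hgc : Continuous g := by
    have hloc : ∀ (β' : Type) [TopologicalSpace β'] (F : (ℕ → Bool) → β') (k : ℕ),
        (∀ b b' : ℕ → Bool, (∀ i < k, b i = b' i) → F b = F b') → Continuous F := by
      intro β' _ F k hF
      apply IsLocallyConstant.continuous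
      rw [IsLocallyConstant.iff_exists_open]
      intro b
      refine ⟨⋂ i ∈ Finset.range k, {b' | b' i = b i}, ?_, ?_, ?_⟩
      · refine isOpen_biInter_finset fun i _ => ?_
        exact (isOpen_discrete ({b i} : Set Bool)).preimage
          (f := fun b' : ℕ → Bool => b' i) (continuous_apply i)
      · simp
      · intro b' hb'
        simp only [Finset.mem_range, mem_iInter, mem_ofPred_eq] at hb'
        exact hF b' b fun i hi => hb' i hi
    refine Continuous.prodMk (continuous_pi fun x => continuous_pi fun y => ?_)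
      (continuous_pi fun i => continuous_pi fun t => ?_)
    · refine hloc _ _ (max x y + 1) fun b b' hb => ?_
      simp only [hQeq b b' _ hb]
    · refine hloc _ _ (Finset.univ.sup t + 1) fun b b' hb => ?_
      simp only [hQeq b b' _ hb]
  refine few_base hK.meas hK.few hS g hgc (fun b => ?_) (fun b b' hbb => ?_)
  · refine hK.closed M₀ hM₀.1 (g b) ?_
    have h1 := hgbf b 0
    have h2 : Q b 0 = σ0 := (hval b 0).zero
    rw [h2] at h1
    exact (h1.mono (le_max_left _ _)).subset (empty_subset _)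
  · by_contra hne
    obtain ⟨k, hk, hkm⟩ : ∃ k, b k ≠ b' k ∧ ∀ i < k, b i = b' i := by
      obtain ⟨k, hk⟩ := Function.ne_iff.1 hne
      have hex : ∃ k, b k ≠ b' k := ⟨k, hk⟩
      exact ⟨Nat.find hex, Nat.find_spec hex, fun i hi => not_not.1 (Nat.find_min hex hi)⟩
    have h1 : G b k = G b' k := hGeq b b' k hkm
    have hQ1 : ∀ b : ℕ → Bool, Q b (k + 1) = s k (G b k) (b k) := by
      intro b
      change (G b (k + 1)).1 (k + 1) = _
      rw [hGs, Function.update_self]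
    have hsub : ∀ b, S ⊆ (Q b (k + 1)).2.1 := fun b => ((hval b (k + 1)).gd (k + 1) le_rfl).sub
    have hA := (hgbf b (k + 1)).subset (idOn_mono (hsub b))
    have hB := (hgbf b' (k + 1)).subset (idOn_mono (hsub b'))
    rw [hQ1 b] at hA
    rw [hQ1 b', ← h1] at hB
    have hlev := hs2 k (G b k)
    have hnb := hs3 k (G b k)
    cases hb : b k <;> cases hb' : b' k
    · exact hk (by rw [hb, hb'])
    · rw [hb] at hA
      rw [hb', ← hlev] at hB
      exact hnb (bf_trans_id hA (bf_trans_id (hbb.bf _) (bf_symm_id hB)))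
    · rw [hb, ← hlev] at hA
      rw [hb'] at hB
      exact hnb (bf_trans_id hB (bf_trans_id (iso_symm_id hbb |>.bf _) (bf_symm_id hA)))
    · exact hk (by rw [hb, hb'])

end Pool.Agent.Y560.TT
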