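import Pool.Agent.Y560.TT.Fin1
import Pool.Agent.H533R2.VO.LEV
import Pool.Agent.H533R2.VO.GENF

set_option autoImplicit false

/-! The tower theorem for relational structures with a Borel preorder. -/

namespace Pool.Agent.Y560.TT

open Set MeasureTheory
open Pool.Agent.H899R2.VP hiding RS
open Pool.Agent.H533R2.VO

variable {a : ℕ → ℕ}

/-- The strict part of the preorder. -/
noncomputable def encD (D : RS a → ℕ → ℕ → Prop) (x : RS a) : St a :=
  letI := Classical.propDecidable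
  (fun n m => decide (D x n m ∧ ¬ D x m n), x)

theorem adj_enc {D : RS a → ℕ → ℕ → Prop} {x : RS a} {n m : ℕ} :
    Adj (encD D x) n m ↔ D x n m ∧ ¬ D x m n := by
  simp [Adj, encD]

theorem le_enc {D : RS a → ℕ → ℕ → Prop} {x : RS a} (ht : ∀ m n, D x m n ∨ D x n m) (m : ℕ) :
    Le (encD D x) m = {n | D x n m} := by
  ext n
  simp only [mem_Le, mem_ofPred_eq, adj_enc]
  constructor
  · intro h2
    push Not at h2
    rcases ht m n with h3 | h3
    · exact h2 h3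
    · exact h3
  · intro h2 h3
    exact h3.2 h2

/-- Isomorphism of initial segments. -/
def SegIso (D : RS a → ℕ → ℕ → Prop) (x : RS a) (m : ℕ) (y : RS a) (n : ℕ)
    (φ : {k // D x k m} ≃ {k // D y k n}) : Prop :=
  (∀ (i : ℕ) (v : Fin (a i) → {k // D x k m}),
    y i (fun k => (φ (v k) : ℕ)) = x i fun k => (v k : ℕ)) ∧
  ∀ p q, D y (φ p) (φ q) ↔ D x p q

/-- The graph of an isomorphism of segments. -/
def sgr {D : RS a → ℕ → ℕ → Prop} {x : RS a} {m : ℕ} {y : RS a} {n : ℕ}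
    (φ : {k // D x k m} ≃ {k // D y k n}) : Set (ℕ × ℕ) :=
  {u | ∃ p : {k // D x k m}, u = ((p : ℕ), (φ p : ℕ))}

theorem full_gr {D : RS a → ℕ → ℕ → Prop} {x : RS a} {m : ℕ} {y : RS a} {n : ℕ}
    (ht : ∀ m n, D x m n ∨ D x n m) (ht' : ∀ m n, D y m n ∨ D y n m)
    {φ : {k // D x k m} ≃ {k // D y k n}} (h : SegIso D x m y n φ) :
    Full (encD D x) (encD D y) (Le (encD D x) m) (Le (encD D y) n) (sgr φ) := by
  refine ⟨?_, ⟨?_, ?_, ?_⟩, ?_, ?_⟩
  · rintro _ ⟨p, rfl⟩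
    refine ⟨?_, ?_⟩
    · rw [le_enc ht]; exact p.2
    · rw [le_enc ht']; exact (φ p).2
  · rintro _ ⟨p, rfl⟩ _ ⟨q, rfl⟩
    constructor
    · intro e
      have : p = q := Subtype.ext e
      rw [this]
    · intro e
      have : φ p = φ q := Subtype.ext e
      rw [φ.injective this]
  · rintro _ ⟨p, rfl⟩ _ ⟨q, rfl⟩
    have h1 := adj_enc (D := D) (x := x) (n := p) (m := q)
    have h2 := adj_enc (D := D) (x := y) (n := φ p) (m := φ q)
    unfold Adj at h1 h2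
    rw [Bool.eq_iff_iff, h1, h2, h.2, h.2]
  · intro i t ht
    choose p hp using ht
    have e1 : (fun k => (t k).1) = fun k => (p k : ℕ) := by
      funext k; rw [hp k]
    have e2 : (fun k => (t k).2) = fun k => (φ (p k) : ℕ) := by
      funext k; rw [hp k]
    rw [e1, e2]
    exact (h.1 i p).symm
  · intro u hu
    rw [le_enc ht] at hu
    exact ⟨φ ⟨u, hu⟩, ⟨u, hu⟩, rfl⟩
  · intro u hu
    rw [le_enc ht'] at hu
    exact ⟨φ.symm ⟨u, hu⟩, φ.symm ⟨u, hu⟩, by simp⟩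

theorem exists_gr {D : RS a → ℕ → ℕ → Prop} {x : RS a} {m : ℕ} {y : RS a} {n : ℕ}
    (ht : ∀ m n, D x m n ∨ D x n m) (ht' : ∀ m n, D y m n ∨ D y n m) {q : Set (ℕ × ℕ)}
    (hq : Full (encD D x) (encD D y) (Le (encD D x) m) (Le (encD D y) n) q) :
    ∃ φ : {k // D x k m} ≃ {k // D y k n}, SegIso D x m y n φ ∧ q = sgr φ := by
  have hmem : ∀ k, k ∈ Le (encD D x) m ↔ D x k m := fun k => by rw [le_enc ht]; rfl
  have hmem' : ∀ k, k ∈ Le (encD D y) n ↔ D y k n := fun k => by rw [le_enc ht']; rfl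
  have h1 : ∀ p : {k // D x k m}, ∃ r : {k // D y k n}, ((p : ℕ), (r : ℕ)) ∈ q := by
    intro p
    obtain ⟨r, hr⟩ := hq.tot p ((hmem _).2 p.2)
    exact ⟨⟨r, (hmem' _).1 (hq.sub hr).2⟩, hr⟩
  have h2 : ∀ p : {k // D y k n}, ∃ r : {k // D x k m}, ((r : ℕ), (p : ℕ)) ∈ q := by
    intro p
    obtain ⟨r, hr⟩ := hq.sur p ((hmem' _).2 p.2)
    exact ⟨⟨r, (hmem _).1 (hq.sub hr).1⟩, hr⟩
  choose φ hφ using h1
  choose ψ hψ using h2
  refine ⟨⟨φ, ψ, fun p => ?_, fun p => ?_⟩, ⟨fun i v => ?_, fun p r => ?_⟩, ?_⟩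
  · exact Subtype.ext (hq.piso.fst_eq (hψ (φ p)) (hφ p) rfl)
  · exact Subtype.ext (hq.piso.snd_eq (hφ (ψ p)) (hψ p) rfl)
  · exact (hq.piso.2.2 i (fun k => ((v k : ℕ), (φ (v k) : ℕ))) fun k => hφ (v k)).symm
  · have h3 : ∀ p r : {n // D x n m}, (¬ Adj (encD D x) r p ↔ D x p r) := by
      intro p r
      have := le_enc ht r
      rw [Set.ext_iff] at this
      exact this p
    have h4 : ∀ p r : {k // D y k n}, (¬ Adj (encD D y) r p ↔ D y p r) := by
      intro p r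
      have := le_enc ht' r
      rw [Set.ext_iff] at this
      exact this p
    change D y (φ p) (φ r) ↔ D x p r
    rw [← h4 (φ p) (φ r), ← h3 p r]
    exact not_congr (hq.piso.adj (hφ r) (hφ p)).symm
  · apply Subset.antisymm
    · rintro ⟨u, v⟩ huv
      have hu := (hmem u).1 (hq.sub huv).1
      refine ⟨⟨u, hu⟩, ?_⟩
      have : v = (φ ⟨u, hu⟩ : ℕ) := hq.piso.snd_eq huv (hφ ⟨u, hu⟩) rfl
      rw [this]
      rfl
    · rintro _ ⟨p, rfl⟩
      exact hφ p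

theorem pre_enc {B : Set (RS a)} (hBm : MeasurableSet B)
    (hBi : ∀ x y : RS a, RIso x y → (x ∈ B ↔ y ∈ B)) {D : RS a → ℕ → ℕ → Prop}
    (hD : Pre B D) (hg : ¬ ∃ g : (ℕ → Bool) → RS a, Continuous g ∧ (∀ c, g c ∈ B) ∧
      ∀ c d : ℕ → Bool, RIso (g c) (g d) → c = d) :
    MeasurableSet {M : St a | M.2 ∈ B ∧ M = encD D M.2} ∧
    (∀ M ∈ {M : St a | M.2 ∈ B ∧ M = encD D M.2}, ∀ N : St a, IsoOn M N univ univ ∅ →
      N ∈ {M : St a | M.2 ∈ B ∧ M = encD D M.2}) ∧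
    (¬ ∃ g : (ℕ → Bool) → St a, Continuous g ∧
      (∀ c, g c ∈ {M : St a | M.2 ∈ B ∧ M = encD D M.2}) ∧
      ∀ c d, IsoOn (g c) (g d) univ univ ∅ → c = d) ∧
    ∀ x ∈ B, WO (encD D x) := by
  classical
  have hadj : ∀ x n m, Adj (encD D x) n m ↔ D x n m ∧ ¬ D x m n := fun x n m => adj_enc
  set K : Set (St a) := {M | M.2 ∈ B ∧ M = encD D M.2} with hK
  have hKm : MeasurableSet K := by
    have h1 : K = {M | M.2 ∈ B} ∩ {M | ∀ n m, M.1 n m = true ↔
        (M.2 ∈ B ∧ D M.2 n m) ∧ ¬ (M.2 ∈ B ∧ D M.2 m n)} := by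
      ext M
      constructor
      · rintro ⟨h1, h2⟩
        refine ⟨h1, fun n m => ?_⟩
        have h3 := hadj M.2 n m
        rw [← h2] at h3
        unfold Adj at h3
        rw [h3]
        simp [h1]
      · rintro ⟨h1, h2⟩
        have h1' : M.2 ∈ B := h1
        refine ⟨h1', Prod.ext ?_ rfl⟩
        funext n m
        have h3 := h2 n m
        rw [Bool.eq_iff_iff, h3]
        have h4 := hadj M.2 n m
        unfold Adj at h4
        rw [h4]
        simp [h1']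
    rw [h1]
    refine (measurable_snd hBm).inter ?_
    apply measurableSet_setOfPred.2
    refine Measurable.forall fun n => Measurable.forall fun m => ?_
    refine Measurable.iff ?_ (Measurable.and ?_ (Measurable.not ?_))
    · apply measurableSet_setOfPred.1
      exact meas_adj n m
    · apply measurableSet_setOfPred.1
      exact measurable_snd (hD.borel n m)
    · apply measurableSet_setOfPred.1
      exact measurable_snd (hD.borel m n)
  refine ⟨hKm, ?_, ?_, ?_⟩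
  · rintro M ⟨hM1, hM2⟩ N hMN
    obtain ⟨σ, h1, h2⟩ := final_perm_of_iso hMN
    have hN : N.2 ∈ B := (hBi _ _ ⟨σ, h2⟩).1 hM1
    refine ⟨hN, Prod.ext ?_ rfl⟩
    funext n m
    have h3 := h1 (σ.symm n) (σ.symm m)
    simp only [Equiv.apply_symm_apply] at h3
    rw [h3, Bool.eq_iff_iff]
    have h4 := hadj M.2 (σ.symm n) (σ.symm m)
    rw [← hM2] at h4
    unfold Adj at h4
    rw [h4]
    have h5 := hadj N.2 n m
    unfold Adj at h5
    rw [h5]
    have h6 := hD.equi M.2 hM1 N.2 σ h2 (σ.symm n) (σ.symm m)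
    have h7 := hD.equi M.2 hM1 N.2 σ h2 (σ.symm m) (σ.symm n)
    simp only [Equiv.apply_symm_apply] at h6 h7
    rw [h6, h7]
  · rintro ⟨g, hg1, hg2, hg3⟩
    refine hg ⟨fun c => (g c).2, continuous_snd.comp hg1, fun c => (hg2 c).1, ?_⟩
    rintro c d ⟨σ, hσ⟩
    refine hg3 c d (final_iso_of_perm σ (fun n m => ?_) hσ)
    have h4 := hadj (g c).2 n m
    rw [← (hg2 c).2] at h4
    have h5 := hadj (g d).2 (σ n) (σ m)
    rw [← (hg2 d).2] at h5
    unfold Adj at h4 h5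
    rw [Bool.eq_iff_iff, h4, h5, ← hD.equi _ (hg2 c).1 _ σ hσ n m,
      ← hD.equi _ (hg2 c).1 _ σ hσ m n]
  · intro x hM1
    refine ⟨fun x' h => ?_, fun x' y z h h' => ?_, fun x' y z h => ?_⟩
    · rw [hadj] at h; exact h.2 h.1
    · rw [hadj] at h h' ⊢
      exact ⟨hD.trans _ hM1 _ _ _ h.1 h'.1, fun h2 => h.2 (hD.trans _ hM1 _ _ _ h'.1 h2)⟩
    · rw [hadj] at h ⊢
      rw [hadj]
      by_contra hcon
      push Not at hcon
      rcases hD.total _ hM1 x' y with h2 | h2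
      · have h3 := hcon.1 h2
        rcases hD.total _ hM1 y z with h4 | h4
        · exact h.2 (hD.trans _ hM1 _ _ _ (hcon.2 h4) h3)
        · exact h.2 (hD.trans _ hM1 _ _ _ h4 h3)
      · rcases hD.total _ hM1 y z with h4 | h4
        · have h5 := hcon.2 h4
          by_cases h6 : D x x' y
          · exact h.2 (hD.trans _ hM1 _ _ _ h5 (hcon.1 h6))
          · exact h6 (hD.trans _ hM1 _ _ _ h.1 h5)
        · by_cases h6 : D x x' y
          · exact h.2 (hD.trans _ hM1 _ _ _ h4 (hcon.1 h6))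
          · exact h6 (hD.trans _ hM1 _ _ _ h.1 h4)

/-- The general tower theorem. -/
theorem tower_gen (a : ℕ → ℕ) (B : Set (RS a)) (hBm : MeasurableSet B)
    (hBi : ∀ x y : RS a, RIso x y → (x ∈ B ↔ y ∈ B)) (D : RS a → ℕ → ℕ → Prop)
    (hD : Pre B D)
    (hcnt : ∃ f : ℕ → RS a × ℕ, (∀ n, (f n).1 ∈ B) ∧ ∀ x ∈ B, ∀ m, ∃ n φ,
      SegIso D (f n).1 (f n).2 x m φ)
    (hext : ∀ x ∈ B, ∀ m, ∃ C : Set ℕ, C.Finite ∧ (∀ c ∈ C, D x c m) ∧ ∀ y ∈ B, ∀ n,
      ∀ φ, SegIso D x m y n φ → ∀ ψ, SegIso D y n y n ψ →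
      (∀ c : {k // D x k m}, (c : ℕ) ∈ C → ψ (φ c) = φ c) →
      ∃ σ : Equiv.Perm ℕ, (∀ (i : ℕ) (v : Fin (a i) → ℕ), y i (⇑σ ∘ v) = y i v) ∧
        ∀ p : {k // D y k n}, σ p = ψ p) : Dich B := by
  classical
  by_cases hg : ∃ g : (ℕ → Bool) → RS a, Continuous g ∧ (∀ c, g c ∈ B) ∧ ∀ c d : ℕ → Bool,
    RIso (g c) (g d) → c = d
  · exact Or.inr hg
  left
  obtain ⟨hKm, hKinv, hfew, hwo⟩ := pre_enc hBm hBi hD hg
  set K : Set (St a) := {M | M.2 ∈ B ∧ M = encD D M.2} with hK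
  have hto : ∀ M ∈ K, ∀ m n, D M.2 m n ∨ D M.2 n m := fun M hM => hD.total _ hM.1
  obtain ⟨f, hfB, hf⟩ := hcnt
  set F : ℕ → St a × Set ℕ := fun n => (encD D (f n).1, Le (encD D (f n).1) (f n).2) with hF
  have hFc : ∀ M ∈ K, ∀ y, ∃ n, IsoOn (F n).1 M (F n).2 (Le M y) ∅ := by
    intro M hM y
    obtain ⟨n, φ, hφ⟩ := hf M.2 hM.1 y
    have h1 := (full_gr (hD.total _ (hfB n)) (hD.total _ hM.1) hφ).iso
    rw [← hM.2] at h1
    exact ⟨n, h1.mono (empty_subset _)⟩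
  obtain ⟨S, hS, hFS⟩ := t_GENF a F
  obtain ⟨l, hl, -, hlev⟩ := t_LEV a S hS
  obtain ⟨α, hα, hcl⟩ := closed_rank hKm hKinv
  -- the structures with a last block
  have hT₂ : Thin {M | M ∈ K ∧ ∃ x, ∀ y, ¬ Adj M x y} := by
    let e : ℕ → St a := fun n => if h : ∃ N : St a, N ∈ K ∧ ∃ x, (∀ y, ¬ Adj N x y) ∧
      IsoOn (F n).1 N (F n).2 (Le N x) ∅ then h.choose else (fun _ _ => false, fun _ _ => false)
    refine ⟨e, ?_⟩
    rintro N ⟨hN, x, hx⟩
    obtain ⟨n, hn⟩ := hFc N hN x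
    have hex : ∃ N : St a, N ∈ K ∧ ∃ x, (∀ y, ¬ Adj N x y) ∧
      IsoOn (F n).1 N (F n).2 (Le N x) ∅ := ⟨N, hN, x, hx, hn⟩
    have he : e n = hex.choose := dif_pos hex
    refine ⟨n, ?_⟩
    rw [he]
    obtain ⟨h1, x', hx', h2⟩ := hex.choose_spec
    have e1 : Le hex.choose x' = univ := by
      ext y; simp only [mem_univ, iff_true]; exact hx' y
    have e2 : Le N x = univ := by
      ext y; simp only [mem_univ, iff_true]; exact hx y
    rw [e1] at h2
    rw [e2] at hn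
    exact iso_trans0 (iso_symm0 h2) hn
  -- the others
  set K₁ : Set (St a) := {M | M ∈ K ∧ ∀ x, ∃ y, Adj M x y} with hK₁
  have hK₁m : MeasurableSet K₁ := by
    have : K₁ = K ∩ ⋂ x : ℕ, ⋃ y : ℕ, {M : St a | Adj M x y} := by
      ext M; simp [hK₁]
    rw [this]
    exact hKm.inter (MeasurableSet.iInter fun x => MeasurableSet.iUnion fun y => meas_adj x y)
  have hαlt : max α 2 < Ordinal.omega 1 := max_lt hα (by
    have := add_nat_lt (Ordinal.omega_pos 1) 2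
    simpa using this)
  have hGK : GK (max α 2) K₁ := by
    refine ⟨hK₁m, hαlt, ?_, ?_⟩
    · rintro M ⟨hM, hn⟩ N hb
      refine ⟨hcl M hM N (hb.mono (le_max_left _ _)), fun x' => ?_⟩
      have hb2 : BF M N univ univ (1 + 1) ∅ := hb.mono (by
        rw [one_add_one_eq_two]; exact le_max_right _ _)
      obtain ⟨x, -, h1⟩ := hb2.back (lt_add_one 1) (mem_univ x')
      obtain ⟨y, hy⟩ := hn x
      obtain ⟨y', -, h2⟩ := h1.forth zero_lt_one (mem_univ y)
      exact ⟨y', (h2.piso.adj (mem_insert_of_mem _ (mem_insert _ _)) (mem_insert _ _)).1 hy⟩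
    · rintro ⟨g, hg1, hg2, hg3⟩
      exact hfew ⟨g, hg1, fun c => (hg2 c).1, hg3⟩
  have hPS : PP K₁ ⊆ S := by
    rintro ⟨N, Y⟩ ⟨M, hM, y, hiso⟩
    obtain ⟨n, hn⟩ := hFc M hM.1 y
    exact hS.iso _ _ _ _ (hFS n) (iso_trans0 hn hiso)
  set Q : Set (St a × Set ℕ × Set ℕ) := {R | ∀ M ∈ K₁, ∀ y q,
    Full R.1 M R.2.1 (Le M y) q → y ∈ img q R.2.2 → ∀ r, Full M M (Le M y) (Le M y) r →
    idOn (img q R.2.2) ⊆ r → IsoOn M M univ univ r} with hQ
  have hTH : TH (max α 2) l K₁ (PP K₁) Q := by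
    refine ⟨hGK, fun M hM => ?_, fun M hM => hM.2, ?_, ?_, hl, ?_, ?_, ?_, ?_⟩
    · have := hwo M.2 hM.1.1
      rwa [← hM.1.2] at this
    · refine ⟨F, ?_⟩
      rintro N Y ⟨M, hM, y, hiso⟩
      obtain ⟨n, hn⟩ := hFc M hM.1 y
      exact ⟨n, iso_trans0 hn hiso⟩
    · intro M hM y
      exact ⟨M, hM, y, iso_refl0⟩
    · intro M X N Y p hMX
      exact hlev M X N Y p (hPS hMX)
    · intro M X C N Y q hMQ hq M' hM' y q' hq' hy r hr hid
      have e1 : img q' (img q C) = img (comp q q') C := by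
        ext c
        constructor
        · rintro ⟨c1, ⟨c0, h0, h1⟩, h2⟩
          exact ⟨c0, h0, c1, h1, h2⟩
        · rintro ⟨c0, h0, c1, h1, h2⟩
          exact ⟨c1, ⟨c0, h0, h1⟩, h2⟩
      simp only at hy hid hq'
      rw [e1] at hy hid
      exact hMQ M' hM' y (comp q q') (hq.trans hq') hy r hr hid
    · intro M hM y
      obtain ⟨C, hC1, hC2, hC3⟩ := hext M.2 hM.1.1 y
      have hwoM : WO M := by
        have := hwo M.2 hM.1.1
        rwa [← hM.1.2] at this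
      have hCs : insert y C ⊆ Le M y := by
        refine insert_subset (hwoM.irr y) fun c hc => ?_
        rw [hM.1.2, le_enc (hto M hM.1)]
        exact hC2 c hc
      refine ⟨insert y C, hC1.insert y, hCs, mem_insert _ _, ?_⟩
      intro M' hM' y' q hq hy r hr hid
      simp only at hq hy hid
      rw [hM.1.2, hM'.1.2] at hq
      rw [hM'.1.2] at hr
      obtain ⟨φ, hφ, rfl⟩ := exists_gr (hto M hM.1) (hto M' hM'.1) hq
      obtain ⟨ψ, hψ, rfl⟩ := exists_gr (hto M' hM'.1) (hto M' hM'.1) hr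
      obtain ⟨σ, hσ1, hσ2⟩ := hC3 M'.2 hM'.1.1 y' φ hφ ψ hψ (fun c hc => by
        have h1 : ((φ c : ℕ), (φ c : ℕ)) ∈ sgr ψ :=
          hid ⟨rfl, c, mem_insert_of_mem _ hc, c, rfl⟩
        obtain ⟨p, hp⟩ := h1
        have h2 : φ c = p := Subtype.ext (congrArg Prod.fst hp)
        have h3 : (φ c : ℕ) = ψ p := congrArg Prod.snd hp
        rw [← h2] at h3
        exact (Subtype.ext h3).symm)
      have h1 : ∀ u v, M'.1 (σ u) (σ v) = M'.1 u v := by
        intro u v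
        have h2 := adj_enc (D := D) (x := M'.2) (n := u) (m := v)
        have h3 := adj_enc (D := D) (x := M'.2) (n := σ u) (m := σ v)
        rw [← hM'.1.2] at h2 h3
        unfold Adj at h2 h3
        rw [Bool.eq_iff_iff, h2, h3, ← hD.equi _ hM'.1.1 _ σ hσ1 u v,
          ← hD.equi _ hM'.1.1 _ σ hσ1 v u]
      refine ⟨{w | w.2 = σ w.1}, ?_, ?_, ⟨?_, ?_, ?_⟩, ?_, ?_⟩
      · rintro _ ⟨p, rfl⟩
        exact (hσ2 p).symm
      · rintro u _; exact ⟨mem_univ _, mem_univ _⟩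
      · rintro ⟨u, u'⟩ hu ⟨v, v'⟩ hv
        simp only [Set.mem_ofPred_eq] at hu hv
        subst hu hv
        simp
      · rintro ⟨u, u'⟩ hu ⟨v, v'⟩ hv
        simp only [Set.mem_ofPred_eq] at hu hv
        subst hu hv
        exact (h1 u v).symm
      · intro i t ht
        have h3 : (fun k => (t k).2) = ⇑σ ∘ fun k => (t k).1 := by
          funext k
          exact ht k
        rw [h3]
        exact (hσ1 i _).symm
      · intro x _
        exact ⟨σ x, rfl⟩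
      · intro y _
        exact ⟨σ.symm y, by simp⟩
    · intro M hM y C q hMQ hy hq hid
      have hwoM : WO M := by
        have := hwo M.2 hM.1.1
        rwa [← hM.1.2] at this
      have hfull : Full M M (Le M y) (Le M y) (idOn (Le M y)) := by
        refine ⟨?_, ⟨?_, ?_, ?_⟩, ?_, ?_⟩
        · rintro ⟨u, v⟩ ⟨h1, h2⟩
          simp only at h1 h2
          subst h1
          exact ⟨h2, h2⟩
        · rintro ⟨u, u'⟩ ⟨h1, -⟩ ⟨v, v'⟩ ⟨h3, -⟩
          simp only at h1 h3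
          subst h1 h3
          exact Iff.rfl
        · rintro ⟨u, u'⟩ ⟨h1, -⟩ ⟨v, v'⟩ ⟨h3, -⟩
          simp only at h1 h3
          subst h1 h3
          rfl
        · intro i t ht
          exact congrArg (M.2 i) (funext fun k => (ht k).1)
        · exact fun u hu => ⟨u, rfl, hu⟩
        · exact fun u hu => ⟨u, rfl, hu⟩
      refine hMQ M hM y _ hfull ⟨y, hy, rfl, hwoM.irr y⟩ q hq ?_
      rintro ⟨u, v⟩ ⟨h1, c, h2, h3, h4⟩
      simp only at h1 h3 h4
      subst h1 h3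
      exact hid ⟨rfl, h2⟩
  have hT : Thin K := by
    refine (thin_union hTH.thin hT₂).mono fun M hM => ?_
    by_cases h : ∀ x, ∃ y, Adj M x y
    · exact Or.inl ⟨hM, h⟩
    · push Not at h
      exact Or.inr ⟨hM, h⟩
  obtain ⟨e, he⟩ := hT
  refine ⟨fun n => (e n).2, fun x hx => ?_⟩
  obtain ⟨n, hn⟩ := he (encD D x) ⟨hx, rfl⟩
  obtain ⟨σ, -, hσ⟩ := final_perm_of_iso hn
  exact ⟨n, σ, hσ⟩

end Pool.Agent.Y560.TT
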