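import Pool.Agent.H533R2.VO.Lib
import Pool.Agent.H899R2.VP.Few

set_option autoImplicit false

/-!
# Thick classes of countable structures and their types

Thin classes (countably many isomorphism types), the classes of a back-and-forth relation over a
finite set of natural numbers, and the limit of a sequence of structures.
-/

namespace Pool.Agent.Y560.TT

open Set
open Pool.Agent.H899R2.VP
open Pool.Agent.H533R2.VO

variable {a : ℕ → ℕ}

/-- Countably many isomorphism types. -/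
def Thin (A : Set (St a)) : Prop :=
  ∃ f : ℕ → St a, ∀ N ∈ A, ∃ n, IsoOn (f n) N univ univ ∅

/-- The standing hypotheses. -/
structure GK (α : Ordinal.{0}) (K : Set (St a)) : Prop where
  meas : MeasurableSet K
  lt : α < Ordinal.omega 1
  closed : ∀ M ∈ K, ∀ N : St a, BF M N univ univ α ∅ → N ∈ K
  few : ¬ ∃ g : (ℕ → Bool) → St a, Continuous g ∧ (∀ c, g c ∈ K) ∧
    ∀ c d, IsoOn (g c) (g d) univ univ ∅ → c = d

/-- The class of `M` over `S` at rank `β`. -/
def Cl (K : Set (St a)) (M : St a) (S : Set ℕ) (β : Ordinal.{0}) : Set (St a) :=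
  {N | N ∈ K ∧ BF M N univ univ β (idOn S)}

theorem Thin.mono {A B : Set (St a)} (h : Thin B) (hAB : A ⊆ B) : Thin A := by
  obtain ⟨f, hf⟩ := h
  exact ⟨f, fun N hN => hf N (hAB hN)⟩

theorem thin_empty : Thin (∅ : Set (St a)) :=
  ⟨fun _ => (fun _ _ => false, fun _ _ => false), fun N hN => absurd hN (notMem_empty _)⟩

theorem thin_iUnion {ι : Type} [Countable ι] {A : ι → Set (St a)} (h : ∀ i, Thin (A i)) :
    Thin (⋃ i, A i) := by
  classical
  rcases isEmpty_or_nonempty ι with hι | hι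
  · rw [iUnion_of_empty]; exact thin_empty
  obtain ⟨e, he⟩ := exists_surjective_nat ι
  choose f hf using h
  refine ⟨fun n => f (e n.unpair.1) n.unpair.2, fun N hN => ?_⟩
  obtain ⟨i, hi⟩ := mem_iUnion.1 hN
  obtain ⟨k, rfl⟩ := he i
  obtain ⟨n, hn⟩ := hf _ N hi
  refine ⟨Nat.pair k n, ?_⟩
  simpa using hn

theorem thin_union {A B : Set (St a)} (h : Thin A) (h' : Thin B) : Thin (A ∪ B) := by
  have := thin_iUnion (ι := Bool) (A := fun b => if b then A else B)
    (fun b => by cases b <;> simpa)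
  apply this.mono
  rintro N (hN | hN)
  · exact mem_iUnion.2 ⟨true, by simpa using hN⟩
  · exact mem_iUnion.2 ⟨false, by simpa using hN⟩

/-- If every member of `A` is isomorphic to a member of `B`. -/
theorem Thin.sat {A B : Set (St a)} (h : Thin B)
    (hAB : ∀ N ∈ A, ∃ N' ∈ B, IsoOn N' N univ univ ∅) : Thin A := by
  obtain ⟨f, hf⟩ := h
  refine ⟨f, fun N hN => ?_⟩
  obtain ⟨N', hN', hi⟩ := hAB N hN
  obtain ⟨n, hn⟩ := hf N' hN'
  exact ⟨n, iso_trans0 hn hi⟩

theorem nonempty_of_not_thin {A : Set (St a)} (h : ¬ Thin A) : A.Nonempty := by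
  by_contra hc
  rw [not_nonempty_iff_eq_empty] at hc
  exact h (hc ▸ thin_empty)

theorem exists_list {S : Set ℕ} (hS : S.Finite) : ∃ s : List ℕ, S = {x | x ∈ s} := by
  classical
  refine ⟨hS.toFinset.toList, ?_⟩
  ext u
  simp

theorem idOn_list (s : List ℕ) : idOn {x | x ∈ s} ⊆ zipSet s s := by
  rintro ⟨u, v⟩ ⟨h1, h2⟩
  simp only at h1 h2
  subst h1
  obtain ⟨n, hn, hn2⟩ := List.getElem_of_mem h2
  show (u, u) ∈ s.zip s
  rw [List.mem_iff_getElem]
  exact ⟨n, by simpa using hn, by simp [hn2]⟩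

theorem idOn_eq_comp (S : Set ℕ) : idOn S ⊆ comp (idOn S) (idOn S) := by
  rintro ⟨u, v⟩ h
  obtain ⟨h1, h2⟩ := h
  simp only at h1 h2
  subst h1
  exact ⟨u, ⟨rfl, h2⟩, ⟨rfl, h2⟩⟩

theorem bf_trans_id {M N L : St a} {S : Set ℕ} {β : Ordinal.{0}}
    (h : BF M N univ univ β (idOn S)) (h' : BF N L univ univ β (idOn S)) :
    BF M L univ univ β (idOn S) := (h.comp h').subset (idOn_eq_comp S)

theorem bf_symm_id {M N : St a} {S : Set ℕ} {β : Ordinal.{0}}
    (h : BF M N univ univ β (idOn S)) : BF N M univ univ β (idOn S) := by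
  have := h.symm
  rwa [inv_idOn] at this

theorem bf_refl_id (M : St a) (S : Set ℕ) (β : Ordinal.{0}) : BF M M univ univ β (idOn S) :=
  (BF.refl M univ β).subset (idOn_mono (subset_univ _))

theorem iso_symm_id {M N : St a} {S : Set ℕ}
    (h : IsoOn M N univ univ (idOn S)) : IsoOn N M univ univ (idOn S) := by
  have := h.symm
  rwa [inv_idOn] at this

theorem iso_trans_id {M N L : St a} {S : Set ℕ}
    (h : IsoOn M N univ univ (idOn S)) (h' : IsoOn N L univ univ (idOn S)) :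
    IsoOn M L univ univ (idOn S) := (h.trans h').mono (idOn_eq_comp S)

/-- There is a thick subclass at every level. -/
theorem sub_thick {α : Ordinal.{0}} {K : Set (St a)} (hK : GK α K) {A : Set (St a)}
    (hA : A ⊆ K) (hthick : ¬ Thin A) {S : Set ℕ} (hS : S.Finite) {δ : Ordinal.{0}}
    (hδ : δ < Ordinal.omega 1) :
    ∃ M ∈ A, ¬ Thin {N | N ∈ A ∧ BF M N univ univ δ (idOn S)} := by
  classical
  obtain ⟨c, hc⟩ := labels hK.meas hK.few δ hδ
  obtain ⟨s, rfl⟩ := exists_list hS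
  by_contra hcon
  push Not at hcon
  apply hthick
  have h1 : ∀ k : ℕ, Thin {N | N ∈ A ∧ c N s = k} := by
    intro k
    by_cases hne : ∃ M ∈ A, c M s = k
    · obtain ⟨M, hM, hMk⟩ := hne
      refine (hcon M hM).mono ?_
      rintro N ⟨hN, hNk⟩
      exact ⟨hN, (hc M (hA hM) N (hA hN) s s rfl (by rw [hMk, hNk])).subset (idOn_list s)⟩
    · refine thin_empty.mono ?_
      rintro N ⟨hN, hNk⟩
      exact absurd ⟨N, hN, hNk⟩ hne
  refine (thin_iUnion h1).mono fun N hN => ?_
  exact mem_iUnion.2 ⟨c N s, hN, rfl⟩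

/-- Transport of a structure by a permutation. -/
def tr (π : Equiv.Perm ℕ) (N : St a) : St a :=
  (fun u v => N.1 (π.symm u) (π.symm v), fun i t => N.2 i (fun k => π.symm (t k)))

theorem tr_piso (π : Equiv.Perm ℕ) (N : St a) : PIso N (tr π N) {w | w.2 = π w.1} := by
  refine ⟨?_, ?_, ?_⟩
  · rintro ⟨u, u'⟩ hu ⟨v, v'⟩ hv
    simp only [mem_ofPred_eq] at hu hv
    subst hu hv
    simp
  · rintro ⟨u, u'⟩ hu ⟨v, v'⟩ hv
    simp only [mem_ofPred_eq] at hu hv
    subst hu hv
    simp [tr]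
  · intro i t ht
    simp only [mem_ofPred_eq] at ht
    simp [tr, ht]

theorem tr_iso (π : Equiv.Perm ℕ) (N : St a) :
    IsoOn N (tr π N) univ univ {w | w.2 = π w.1} :=
  ⟨_, Subset.rfl, fun _ _ => ⟨mem_univ _, mem_univ _⟩, tr_piso π N,
    fun x _ => ⟨π x, rfl⟩, fun y _ => ⟨π.symm y, by simp⟩⟩

/-- Relocation of finitely many elements. -/
theorem reloc {M N : St a} {S : Set ℕ} {β : Ordinal.{0}} (e : List ℕ)
    (h : BF M N univ univ (β + e.length) (idOn S)) :
    ∃ N' : St a, IsoOn N N' univ univ (idOn S) ∧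
      BF M N' univ univ β (idOn (S ∪ {x | x ∈ e})) := by
  classical
  induction e generalizing S N with
  | nil =>
    refine ⟨N, (IsoOn.refl N univ).mono (idOn_mono (subset_univ _)), ?_⟩
    have : S ∪ {x | x ∈ ([] : List ℕ)} = S := by simp
    rw [this]
    exact h.mono le_self_add
  | cons x e ih =>
    have hlen : (β + (e.length : Ordinal.{0})) < β + ((x :: e).length : Ordinal.{0}) := by
      gcongr
      simp
    have hset : S ∪ {z | z ∈ x :: e} = (insert x S) ∪ {z | z ∈ e} := by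
      ext z; simp; tauto
    by_cases hx : x ∈ S
    · obtain ⟨N', h1, h2⟩ := ih (h.mono hlen.le)
      refine ⟨N', h1, ?_⟩
      rw [hset, insert_eq_of_mem hx]
      exact h2
    · obtain ⟨y, -, hy⟩ := h.forth hlen (mem_univ x)
      have hyS : y ∉ S := by
        intro hyS
        have := hy.piso.fst_eq (mem_insert _ _) (mem_insert_of_mem _ (idOn_self hyS)) rfl
        exact hx (this ▸ hyS)
      set π : Equiv.Perm ℕ := Equiv.swap y x with hπ
      have hfix : ∀ z ∈ S, π z = z := by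
        intro z hz
        apply Equiv.swap_apply_of_ne_of_ne
        · rintro rfl; exact hyS hz
        · rintro rfl; exact hx hz
      have h1 : BF M (tr π N) univ univ (β + (e.length : Ordinal.{0})) (idOn (insert x S)) := by
        refine (hy.comp ((tr_iso π N).bf _)).subset ?_
        rintro ⟨u, v⟩ ⟨h3, h4⟩
        simp only at h3 h4
        subst h3
        rcases h4 with rfl | h4
        · exact ⟨y, mem_insert _ _, by simp [hπ]⟩
        · exact ⟨u, mem_insert_of_mem _ ⟨rfl, h4⟩, (hfix u h4).symm⟩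
      obtain ⟨N', h2, h3⟩ := ih h1
      refine ⟨N', ?_, ?_⟩
      · have h4 := ((tr_iso π N).trans (h2.mono (idOn_mono (subset_insert x S))))
        refine h4.mono ?_
        rintro ⟨u, v⟩ ⟨h5, h6⟩
        simp only at h5 h6
        subst h5
        exact ⟨u, (hfix u h6).symm, rfl, h6⟩
      · rw [hset]
        exact h3

/-- Thick classes over a larger finite set at a higher level. -/
theorem good_step {α : Ordinal.{0}} {K : Set (St a)} (hK : GK α K) (hα : ∀ N ∈ K, ∀ N' : St a,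
      IsoOn N N' univ univ ∅ → N' ∈ K) {M : St a} {F : Set ℕ}
    (hF : F.Finite) (e : List ℕ) {β δ : Ordinal.{0}} (hδ : δ < Ordinal.omega 1)
    (h : ¬ Thin (Cl K M F (β + e.length))) :
    ∃ M' ∈ Cl K M (F ∪ {x | x ∈ e}) β, M' ∈ Cl K M F (β + e.length) ∧
      ¬ Thin (Cl K M' (F ∪ {x | x ∈ e}) δ) := by
  have hfin : (F ∪ {x | x ∈ e}).Finite := hF.union (List.finite_toSet e)
  set A : Set (St a) := {N | N ∈ Cl K M (F ∪ {x | x ∈ e}) β ∧ N ∈ Cl K M F (β + e.length)}
    with hAdef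
  have hA : ¬ Thin A := by
    intro hthin
    apply h
    refine hthin.sat ?_
    rintro N ⟨hN, hb⟩
    obtain ⟨N', h1, h2⟩ := reloc e hb
    have hN' : N' ∈ K := hα N hN N' (h1.mono (empty_subset _))
    refine ⟨N', ⟨⟨hN', h2⟩, hN', ?_⟩, (iso_symm_id h1).mono (empty_subset _)⟩
    exact bf_trans_id hb (h1.bf _)
  obtain ⟨M', hM', h3⟩ := sub_thick hK (fun N hN => hN.1.1) hA hfin hδ
  exact ⟨M', hM'.1, hM'.2, fun h4 => h3 (h4.mono fun N hN => ⟨hN.1.1.1, hN.2⟩)⟩

theorem cl_mono {K : Set (St a)} {M : St a} {S S' : Set ℕ} {β β' : Ordinal.{0}} (hS : S' ⊆ S)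
    (hβ : β' ≤ β) : Cl K M S β ⊆ Cl K M S' β' :=
  fun _ hN => ⟨hN.1, (hN.2.mono hβ).subset (idOn_mono hS)⟩

theorem cl_trans {K : Set (St a)} {M N : St a} {S : Set ℕ} {β : Ordinal.{0}}
    (h : N ∈ Cl K M S β) : Cl K N S β ⊆ Cl K M S β :=
  fun _ hL => ⟨hL.1, bf_trans_id h.2 hL.2⟩

theorem GK.iso {α : Ordinal.{0}} {K : Set (St a)} (hK : GK α K) : ∀ N ∈ K, ∀ N' : St a,
    IsoOn N N' univ univ ∅ → N' ∈ K := fun N hN N' h => hK.closed N hN N' (h.bf α)

end Pool.Agent.Y560.TT
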