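import Pool.Agent.Y560.TT.Loop

set_option autoImplicit false

/-! Case A: the limits of loops, and the tower theorem. -/

namespace Pool.Agent.Y560.TT

open Set MeasureTheory
open Pool.Agent.H899R2.VP
open Pool.Agent.H533R2.VO

variable {a : ℕ → ℕ} {α l : Ordinal.{0}} {K : Set (St a)} {P : Set (St a × Set ℕ)}
  {Q : Set (St a × Set ℕ × Set ℕ)}

/-- Codes of loops. -/
abbrev Code : Type := ℕ × ℕ × Finset (ℕ × ℕ)

/-- The embedding of a code. -/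
structure Emb (f : ℕ → St a × Set ℕ) (κ : Code) (e₀ : ℕ → ℕ) : Prop where
  maps : ∀ x ∈ (f κ.1).2, e₀ x ∈ (f κ.1).2
  piso : PIso (f κ.1).1 (f κ.1).1 (gph (f κ.1).2 e₀)
  sur : ∀ x ∈ (f κ.1).2, ¬ Adj (f κ.1).1 (e₀ κ.2.1) x → ∃ x' ∈ (f κ.1).2, e₀ x' = x
  val : ∀ w ∈ κ.2.2, e₀ w.1 = w.2

open Classical in
/-- The embedding chosen for a code. -/
noncomputable def emb (f : ℕ → St a × Set ℕ) (κ : Code) : ℕ → ℕ :=
  if h : ∃ e₀, Emb f κ e₀ then h.choose else id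

theorem emb_spec {f : ℕ → St a × Set ℕ} {κ : Code} (h : ∃ e₀, Emb f κ e₀) :
    Emb f κ (emb f κ) := by
  unfold emb
  rw [dif_pos h]
  exact h.choose_spec

/-- The limit of a loop. -/
noncomputable def TK (f : ℕ → St a × Set ℕ) (κ : Code) : St a :=
  TTT (fun _ => (f κ.1).1) (fun _ => emb f κ)

/-- The domain of the limit. -/
noncomputable def XK (f : ℕ → St a × Set ℕ) (κ : Code) : Set ℕ :=
  ⋃ k, XX (fun _ => (f κ.1).2) (fun _ => emb f κ) k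

/-- The realisations. -/
structure RL (f : ℕ → St a × Set ℕ) (κ : Code) (m : Ordinal.{0}) (M : St a) (θ : ℕ → ℕ)
    (_k : ℕ) (o : Ordinal.{0}) (N : St a) (φ : ℕ → ℕ) : Prop where
  lt : o < m
  piso : PIso (f κ.1).1 N (gph (f κ.1).2 φ)
  bf : ∀ s : List ℕ, (∀ z ∈ s, z ∈ (f κ.1).2) → BF M N univ univ o (gr θ φ s)

theorem TH.loop_bf (h : TH α l K P Q) {m : Ordinal.{0}}
    (hlim : ∀ o < m, ∀ n : ℕ, o + n < m) (hlm : l < m) {M : St a} {z z' : ℕ} {C : Set ℕ}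
    {e : ℕ → ℕ} (hL : Loop K Q m M z z' C e) {f : ℕ → St a × Set ℕ} {κ : Code} {θ : ℕ → ℕ}
    (hθ : Full (f κ.1).1 M (f κ.1).2 (Le M z') (gph (f κ.1).2 θ))
    (hz' : κ.2.1 ∈ (f κ.1).2) (hz'2 : θ κ.2.1 = z')
    (hκ : ∀ w : ℕ × ℕ, w ∈ κ.2.2 ↔ w.1 ∈ (f κ.1).2 ∧ w.2 ∈ (f κ.1).2 ∧ θ w.1 ∈ C ∧
      e (θ w.1) = θ w.2) {o : Ordinal.{0}} (ho : o < m) :
    BF (TK f κ) M (XK f κ) univ o ∅ := by
  classical
  set X := (f κ.1).2 with hX
  set A := (f κ.1).1 with hA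
  have hWO := h.wo M hL.mem
  have hθm : ∀ x ∈ X, θ x ∈ Le M z' := fun x hx =>
    (hθ.sub (show (x, θ x) ∈ gph X θ from ⟨hx, rfl⟩)).2
  have hem : ∀ x ∈ Le M z', e x ∈ Le M z := fun x hx =>
    (hL.full.sub (show (x, e x) ∈ gph (Le M z') e from ⟨hx, rfl⟩)).2
  have hzz : Le M z ⊆ Le M z' := hWO.Le_sub (hWO.asymm hL.far.1)
  have hback : ∀ x ∈ Le M z', ∃ u ∈ X, θ u = x := by
    intro x hx
    obtain ⟨u, hu⟩ := hθ.sur x hx
    exact ⟨u, hu.1, hu.2.symm⟩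
  -- existence of an embedding
  have hex : ∃ e₀, Emb f κ e₀ := by
    have h1 : ∀ x : ℕ, ∃ y, x ∈ X → y ∈ X ∧ θ y = e (θ x) := by
      intro x
      by_cases hx : x ∈ X
      · obtain ⟨y, hy, hy2⟩ := hback _ (hzz (hem _ (hθm x hx)))
        exact ⟨y, fun _ => ⟨hy, hy2⟩⟩
      · exact ⟨0, fun h2 => absurd h2 hx⟩
    choose e₀ he₀ using h1
    have hinj : ∀ x ∈ X, ∀ y ∈ X, θ x = θ y → x = y := fun x hx y hy hxy =>
      hθ.piso.fst_eq (x' := θ x) (y' := θ y) ⟨hx, rfl⟩ ⟨hy, rfl⟩ hxy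
    have he₀z : ∀ x ∈ X, ¬ Adj A (e₀ κ.2.1) x → θ x ∈ Le M z := by
      intro x hx hn
      have h2 := (he₀ κ.2.1 hz').1
      have h3 : θ (e₀ κ.2.1) = z := by rw [(he₀ κ.2.1 hz').2, hz'2, hL.ez]
      have h4 := (hθ.piso.adj (x := e₀ κ.2.1) (x' := θ (e₀ κ.2.1)) (y := x) (y' := θ x)
        ⟨h2, rfl⟩ ⟨hx, rfl⟩)
      rw [h3] at h4
      exact fun h5 => hn (h4.2 h5)
    refine ⟨e₀, fun x hx => (he₀ x hx).1, ?_, ?_, ?_⟩
    · have h2 := (hθ.piso.comp hL.full.piso).comp hθ.piso.symm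
      refine h2.mono ?_
      rintro ⟨u, v⟩ ⟨h3, h4⟩
      simp only at h3 h4
      subst h4
      refine ⟨e (θ u), ⟨θ u, ⟨h3, rfl⟩, hθm u h3, rfl⟩, (he₀ u h3).1, (he₀ u h3).2.symm⟩
    · intro x hx hn
      have h2 := he₀z x hx hn
      obtain ⟨w, hw⟩ := hL.full.sur _ h2
      obtain ⟨u, hu, hu2⟩ := hback w hw.1
      refine ⟨u, hu, hinj _ (he₀ u hu).1 _ hx ?_⟩
      rw [(he₀ u hu).2, hu2]
      exact hw.2.symm
    · rintro ⟨u, v⟩ hw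
      obtain ⟨h2, h3, -, h5⟩ := (hκ _).1 hw
      exact hinj _ (he₀ u h2).1 _ h3 ((he₀ u h2).2.trans h5)
  have hE := emb_spec hex
  set e₀ := emb f κ with he₀
  -- the pair of `z'`
  obtain ⟨z₀, hz₀, hz₀2⟩ := hback z (hzz (hWO.irr z))
  have hzpair : e₀ κ.2.1 = z₀ := by
    refine hE.val (κ.2.1, z₀) ((hκ _).2 ⟨hz', hz₀, ?_, ?_⟩)
    · simp only [hz'2]; exact hL.zC
    · simp only [hz'2, hz₀2]; exact hL.ez
  have hS : Sys (fun _ => A) (fun _ => X) (fun _ => e₀) :=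
    ⟨fun _ => hE.maps, fun _ => hE.piso⟩
  -- the isomorphism of closed pieces
  have hfull : Full M M (Le M z') (Le M z) (comp (inv (gph X θ)) (gph X (θ ∘ e₀))) := by
    have h1 : Full A M X (Le M z) (gph X (θ ∘ e₀)) := by
      refine ⟨?_, ?_, fun x hx => ⟨θ (e₀ x), hx, rfl⟩, ?_⟩
      · rintro ⟨u, v⟩ ⟨h2, h3⟩
        simp only at h2 h3
        subst h3
        refine ⟨h2, ?_⟩
        have h4 := (hE.piso.adj (x := κ.2.1) (x' := e₀ κ.2.1) (y := u) (y' := e₀ u)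
          ⟨hz', rfl⟩ ⟨h2, rfl⟩)
        have h5 := (hθ.piso.adj (x := κ.2.1) (x' := θ κ.2.1) (y := u) (y' := θ u)
          ⟨hz', rfl⟩ ⟨h2, rfl⟩)
        have h6 := (hθ.piso.adj (x := e₀ κ.2.1) (x' := θ (e₀ κ.2.1)) (y := e₀ u)
          (y' := θ (e₀ u)) ⟨hE.maps _ hz', rfl⟩ ⟨hE.maps _ h2, rfl⟩)
        rw [hz'2] at h5
        rw [hzpair, hz₀2] at h6
        rw [hzpair] at h4
        exact fun h7 => hθm u h2 (h5.1 (h4.2 (h6.2 h7)))
      · refine (hE.piso.comp hθ.piso).mono ?_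
        rintro ⟨u, v⟩ ⟨h2, h3⟩
        exact ⟨e₀ u, ⟨h2, rfl⟩, hE.maps _ h2, h3⟩
      · intro x hx
        obtain ⟨u, hu, rfl⟩ := hback x (hzz hx)
        have h6 := (hθ.piso.adj (x := e₀ κ.2.1) (x' := θ (e₀ κ.2.1)) (y := u)
          (y' := θ u) ⟨hE.maps _ hz', rfl⟩ ⟨hu, rfl⟩)
        rw [hzpair, hz₀2] at h6
        obtain ⟨x', hx', hx'2⟩ := hE.sur u hu (by rw [hzpair]; exact fun h7 => hx (h6.1 h7))
        exact ⟨x', hx', by simp [hx'2]⟩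
    exact hθ.symm.trans h1
  have hpq : gph C e ⊆ comp (inv (gph X θ)) (gph X (θ ∘ e₀)) := by
    rintro ⟨u, v⟩ ⟨h2, h3⟩
    simp only at h2 h3
    subst h3
    obtain ⟨x, hx, rfl⟩ := hback u (hL.CL h2)
    obtain ⟨y, hy, hy2⟩ := hback _ (hzz (hem _ (hθm x hx)))
    have h4 : e₀ x = y := hE.val (x, y) ((hκ _).2 ⟨hx, hy, h2, hy2.symm⟩)
    exact ⟨x, ⟨hx, rfl⟩, hx, by simp [h4, hy2]⟩
  have hCf : (gph C e).Finite := by
    apply (hL.fin.image fun x => (x, e x)).subset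
    rintro ⟨u, v⟩ ⟨h2, h3⟩
    simp only at h2 h3
    subst h3
    exact ⟨u, h2, rfl⟩
  have hpres : ∀ β < m, ∀ s : List ℕ, (∀ x ∈ s, x ∈ X) →
      BF M M univ univ β (gr θ (θ ∘ e₀) s) := by
    intro β hβ s hs
    have hmax : max l β < m := max_lt hlm hβ
    have h1 := h.pres hL.mem hL.mem hL.q hL.zC hfull hCf hpq ⟨hL.zC, hL.ez.symm⟩
      (fun c hc => ⟨e c, hc, rfl⟩) (le_max_left l β) (s.map θ) (by
        intro x hx
        obtain ⟨u, hu, rfl⟩ := List.mem_map.1 hx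
        exact hθm u (hs u hu)) (hL.bf.mono (hlim _ hmax _).le)
    refine (h1.mono (le_max_right _ _)).subset ?_
    rintro _ ⟨x, hx, rfl⟩
    exact ⟨⟨x, ⟨hs x hx, rfl⟩, hs x hx, rfl⟩, Or.inr (List.mem_map.2 ⟨x, hx, rfl⟩)⟩
  have hself : RL f κ m M θ 0 o M θ :=
    ⟨ho, hθ.piso, fun s _ => (BF.refl M univ o).subset (by
      rintro _ ⟨x, hx, rfl⟩; exact ⟨rfl, mem_univ _⟩)⟩
  have hreal : Real (fun _ => A) (fun _ => X) (fun _ => e₀) m (RL f κ m M θ) := by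
    refine ⟨fun k β hβ => ⟨M, θ, hβ, hθ.piso, fun s _ => (BF.refl M univ β).subset (by
      rintro _ ⟨x, hx, rfl⟩; exact ⟨rfl, mem_univ _⟩)⟩, ?_, ?_, ?_, ?_, ?_⟩
    · rintro k β β' N φ hβ hr
      exact ⟨hβ.trans_lt hr.lt, hr.piso, fun s hs => (hr.bf s hs).mono hβ⟩
    · exact fun k β N φ hr => hr.piso
    · intro k β N φ N' φ' hβ hr hr' s hs
      refine ((hr.bf s hs).symm.comp (hr'.bf s hs)).subset ?_
      rintro _ ⟨x, hx, rfl⟩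
      exact ⟨θ x, ⟨x, hx, rfl⟩, ⟨x, hx, rfl⟩⟩
    · intro k β N φ hr
      refine ⟨hr.lt, ?_, fun s hs => ?_⟩
      · refine (hE.piso.comp hr.piso).mono ?_
        rintro ⟨u, v⟩ ⟨h2, h3⟩
        exact ⟨e₀ u, ⟨h2, rfl⟩, hE.maps _ h2, h3⟩
      · have h1 := hr.bf (s.map e₀) (by
          intro x hx
          obtain ⟨u, hu, rfl⟩ := List.mem_map.1 hx
          exact hE.maps _ (hs u hu))
        refine ((hpres β hr.lt s hs).comp h1).subset ?_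
        rintro _ ⟨x, hx, rfl⟩
        exact ⟨θ (e₀ x), ⟨x, hx, rfl⟩, ⟨e₀ x, List.mem_map.2 ⟨x, hx, rfl⟩, rfl⟩⟩
    · intro k β N φ hβ hr γ hγ s hs d
      have hsX : ∀ x ∈ s.map (hh (fun _ => e₀) k), x ∈ X := by
        intro x hx
        obtain ⟨u, hu, rfl⟩ := List.mem_map.1 hx
        exact hh_mem hS (hs u hu)
      have h1 := hr.bf _ hsX
      obtain ⟨d₁, -, h2⟩ := h1.back hγ (mem_univ d)
      have h3 := hpres (γ + 1) (by simpa using hlim γ (hγ.trans hβ) 1) _ hsX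
      obtain ⟨d₂, -, h4⟩ := h3.forth (lt_add_one γ) (mem_univ d₁)
      obtain ⟨d₃, h5, h6⟩ := hL.far.2 γ (hγ.trans hβ)
        ((s.map (hh (fun _ => e₀) k)).map (θ ∘ e₀)) (by
          intro x hx
          obtain ⟨u, hu, rfl⟩ := List.mem_map.1 hx
          have h7 : (θ u, (θ ∘ e₀) u) ∈ comp (inv (gph X θ)) (gph X (θ ∘ e₀)) :=
            ⟨u, ⟨hsX u hu, rfl⟩, hsX u hu, rfl⟩
          exact (hfull.sub h7).2) d₂
      obtain ⟨z₃, hz₃, rfl⟩ := hback d₃ h5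
      refine ⟨k + 1, M, θ, Nat.le_succ k, ⟨hβ, hθ.piso, fun s _ => (BF.refl M univ β).subset (by
        rintro _ ⟨x, hx, rfl⟩; exact ⟨rfl, mem_univ _⟩)⟩, z₃, hz₃, ?_⟩
      refine ((h2.symm.comp h4).comp h6).subset ?_
      rintro _ (rfl | ⟨u, hu, rfl⟩)
      · exact ⟨d₂, ⟨d₁, mem_insert _ _, mem_insert _ _⟩, mem_insert _ _⟩
      · have h7 : hh (fun _ => e₀) (k + 1) u = e₀ (hh (fun _ => e₀) k u) := hh_succ (hs u hu).1
        have h8 : hh (fun _ => e₀) k u ∈ s.map (hh (fun _ => e₀) k) :=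
          List.mem_map.2 ⟨u, hu, rfl⟩
        refine ⟨θ (e₀ (hh (fun _ => e₀) k u)), ⟨θ (hh (fun _ => e₀) k u),
          mem_insert_of_mem _ ⟨_, h8, rfl⟩, mem_insert_of_mem _ ⟨_, h8, rfl⟩⟩,
          mem_insert_of_mem _ ⟨?_, List.mem_map.2 ⟨_, h8, rfl⟩⟩⟩
        simp only [Function.comp_apply, h7]
  have h9 := limit_bf hS hreal ho hself [] (by simp)
  exact h9.subset (empty_subset _)

/-- The tower theorem. -/
theorem TH.thin (h : TH α l K P Q) : Thin K := by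
  classical
  by_contra hthick
  obtain ⟨f, hf⟩ := h.cnt
  have key : ∀ β < Ordinal.omega 1, ∃ κ : Code, ∃ m, β ≤ m ∧ m < Ordinal.omega 1 ∧
      ∃ M ∈ K, ¬ Thin (Cl K M ∅ m) ∧ ∀ o < m, BF (TK f κ) M (XK f κ) univ o ∅ := by
    intro β hβ
    set m := max (max α l) β + Ordinal.omega0 with hm
    have hmlt : m < Ordinal.omega 1 := add_omega_lt (max_lt (max_lt h.lt h.llt) hβ)
    have hαm : α ≤ m := (le_max_left _ _).trans ((le_max_left _ _).trans le_self_add)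
    have hlm : l < m := by
      refine lt_of_le_of_lt ((le_max_right α l).trans (le_max_left _ β)) ?_
      rw [hm]
      exact lt_add_of_pos_right _ Ordinal.omega0_pos
    have hlim : ∀ o < m, ∀ n : ℕ, o + n < m := by
      intro o ho n
      rw [hm] at ho ⊢
      obtain ⟨c, hc, hoc⟩ := (Ordinal.lt_add_iff Ordinal.omega0_pos.ne').1 ho
      obtain ⟨k, rfl⟩ := Ordinal.lt_omega0.1 hc
      calc o + n ≤ max (max α l) β + k + n := by gcongr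
        _ = max (max α l) β + ((k + n : ℕ) : Ordinal.{0}) := by push_cast; rw [add_assoc]
        _ < _ := by gcongr; exact Ordinal.natCast_lt_omega0 _
    obtain ⟨M, z, z', C, e, hL⟩ := h.exists_loop (fun μ hμ => h.caseB hμ) hthick hmlt hαm
    obtain ⟨n, hn⟩ := hf M _ (h.piece M hL.mem z')
    obtain ⟨q, -, hq⟩ := isoOn_iff.1 hn
    obtain ⟨θ, rfl⟩ := hq.exists_fun
    obtain ⟨z₀, hz₀⟩ := hq.sur z' ((h.wo M hL.mem).irr z')
    have hfin : {w : ℕ × ℕ | w.1 ∈ (f n).2 ∧ w.2 ∈ (f n).2 ∧ θ w.1 ∈ C ∧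
        e (θ w.1) = θ w.2}.Finite := by
      have hinj : ∀ x ∈ (f n).2, ∀ y ∈ (f n).2, θ x = θ y → x = y := fun x hx y hy hxy =>
        hq.piso.fst_eq (x' := θ x) (y' := θ y) ⟨hx, rfl⟩ ⟨hy, rfl⟩ hxy
      have h1 : {x | x ∈ (f n).2 ∧ θ x ∈ C}.Finite := by
        refine Set.Finite.of_finite_image (f := θ) (hL.fin.subset ?_) ?_
        · rintro _ ⟨x, hx, rfl⟩; exact hx.2
        · exact fun x hx y hy hxy => hinj x hx.1 y hy.1 hxy
      have h2 : {x | x ∈ (f n).2 ∧ θ x ∈ e '' C}.Finite := by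
        refine Set.Finite.of_finite_image (f := θ) ((hL.fin.image e).subset ?_) ?_
        · rintro _ ⟨x, hx, rfl⟩; exact hx.2
        · exact fun x hx y hy hxy => hinj x hx.1 y hy.1 hxy
      refine (h1.prod h2).subset ?_
      rintro ⟨u, v⟩ ⟨h3, h4, h5, h6⟩
      exact ⟨⟨h3, h5⟩, h4, θ u, h5, h6⟩
    refine ⟨(n, z₀, hfin.toFinset), m, (le_max_right _ _).trans le_self_add, hmlt, M, hL.mem,
      hL.thick, fun o ho => ?_⟩
    refine h.loop_bf hlim hlm hL (κ := (n, z₀, hfin.toFinset)) (θ := θ) hq hz₀.1 hz₀.2.symm ?_ ho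
    intro w
    simp
  obtain ⟨κ, hκ⟩ := pigeon (κ := Code) (fun β κ => ∃ m, β ≤ m ∧ m < Ordinal.omega 1 ∧
      ∃ M ∈ K, ¬ Thin (Cl K M ∅ m) ∧ ∀ o < m, BF (TK f κ) M (XK f κ) univ o ∅)
    (by
      rintro β γ κ hγ ⟨m, h1, h2⟩
      exact ⟨m, hγ.trans h1, h2⟩) key
  obtain ⟨ρ, hρ, hlev⟩ := piece_level (TK f κ) (XK f κ)
  obtain ⟨m, h1, h2, M, hM, ht, hb⟩ := hκ (ρ + 1) (by simpa using add_nat_lt hρ 1)
  have hρm : ρ < m := lt_of_lt_of_le (lt_add_one ρ) h1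
  refine ht ⟨fun _ => M, fun N hN => ⟨0, ?_⟩⟩
  have h3 := hb ρ hρm
  have h4 : BF M N univ univ ρ ∅ := (hN.2.mono hρm.le).subset (empty_subset _)
  exact iso_trans0 (iso_symm0 (hlev M h3)) (hlev N (bf_comp0 h3 h4))

end Pool.Agent.Y560.TT
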