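import Pool.Agent.Y560.TT.Colim

set_option autoImplicit false

/-! Case B: thickly many structures have a point without far extensions. -/

namespace Pool.Agent.Y560.TT

open Set
open Pool.Agent.H899R2.VP
open Pool.Agent.H533R2.VO

variable {a : ℕ → ℕ}

theorem Full.exists_fun {M N : St a} {X Y : Set ℕ} {q : Set (ℕ × ℕ)} (h : Full M N X Y q) :
    ∃ f : ℕ → ℕ, gph X f = q := by
  classical
  have h1 : ∀ x : ℕ, ∃ y, x ∈ X → (x, y) ∈ q := by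
    intro x
    by_cases hx : x ∈ X
    · obtain ⟨y, hy⟩ := h.tot x hx
      exact ⟨y, fun _ => hy⟩
    · exact ⟨0, fun h => absurd h hx⟩
  choose f hf using h1
  refine ⟨f, ?_⟩
  ext ⟨u, v⟩
  constructor
  · rintro ⟨h2, h3⟩
    simp only at h2 h3
    subst h3
    exact hf u h2
  · intro h2
    have h3 : u ∈ X := (h.sub h2).1
    exact ⟨h3, h.piso.snd_eq h2 (hf u h3) rfl⟩

theorem Full.resLe {M N : St a} {X Y : Set ℕ} {q : Set (ℕ × ℕ)} {y y' : ℕ}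
    (h : Full M N X Y q) (hX : Le M y ⊆ X) (hY : Le N y' ⊆ Y) (hy : (y, y') ∈ q) :
    Full M N (Le M y) (Le N y') {u | u ∈ q ∧ u.1 ∈ Le M y} := by
  refine ⟨?_, h.piso.mono fun u hu => hu.1, ?_, ?_⟩
  · rintro ⟨u, v⟩ ⟨h1, h2⟩
    exact ⟨h2, (piso_Le h.piso hy h1).1 h2⟩
  · intro x hx
    obtain ⟨z, hz⟩ := h.tot x (hX hx)
    exact ⟨z, hz, hx⟩
  · intro z hz
    obtain ⟨x, hx⟩ := h.sur z (hY hz)
    exact ⟨x, hx, (piso_Le h.piso hy hx).2 hz⟩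

variable {α l : Ordinal.{0}} {K : Set (St a)} {P : Set (St a × Set ℕ)}
  {Q : Set (St a × Set ℕ × Set ℕ)}

theorem idOn_finite {S : Set ℕ} (h : S.Finite) : (idOn S).Finite := by
  apply (h.prod h).subset
  rintro ⟨u, v⟩ ⟨h1, h2⟩
  simp only at h1 h2
  subst h1
  exact ⟨h2, h2⟩

theorem TH.pieceIsoS (h : TH α l K P Q) {M N : St a} (hM : M ∈ K) {y : ℕ}
    {S : Set ℕ} (hS : S.Finite) (hy : y ∈ S) (hSM : S ⊆ Le M y)
    (hb : BF M N univ univ l (idOn S)) :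
    S ⊆ Le N y ∧ ∃ q, Full M N (Le M y) (Le N y) q ∧ idOn S ⊆ q := by
  have h1 : S ⊆ Le N y := fun x hx =>
    (piso_Le hb.piso (idOn_self hy) (idOn_self hx)).1 (hSM hx)
  refine ⟨h1, ?_⟩
  obtain ⟨q, h2, h3⟩ := isoOn_iff.1 (h.pieceIso (y := y) (y' := y) hM (idOn_finite hS)
    (by rintro ⟨u, v⟩ ⟨h4, h5⟩; simp only at h4 h5; subst h4; exact ⟨hSM h5, h1 h5⟩)
    (idOn_self hy) hb)
  exact ⟨q, h3, h2⟩

theorem img_id {M N : St a} {C : Set ℕ} {q : Set (ℕ × ℕ)} (hp : PIso M N q)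
    (h : idOn C ⊆ q) : img q C = C := by
  ext c
  constructor
  · rintro ⟨c0, h1, h2⟩
    rw [hp.snd_eq h2 (h ⟨rfl, h1⟩) rfl]
    exact h1
  · intro hc
    exact ⟨c, hc, h ⟨rfl, hc⟩⟩

theorem TH.qTrans (h : TH α l K P Q) {M N : St a} (hM : M ∈ K) {y : ℕ}
    {S C : Set ℕ} (hS : S.Finite) (hy : y ∈ C) (hCS : C ⊆ S) (hSM : S ⊆ Le M y)
    (hC : (M, Le M y, C) ∈ Q) (hb : BF M N univ univ l (idOn S)) :
    (N, Le N y, C) ∈ Q := by
  obtain ⟨-, q, h1, h2⟩ := h.pieceIsoS hM hS (hCS hy) hSM hb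
  have h3 := h.q1 _ _ _ _ _ _ hC h1
  rwa [img_id h1.piso ((idOn_mono hCS).trans h2)] at h3

theorem TH.presS (h : TH α l K P Q) {M N : St a} (hM : M ∈ K) (hN : N ∈ K) {y : ℕ}
    {S C : Set ℕ} (hS : S.Finite) (hy : y ∈ C) (hCS : C ⊆ S)
    (hC : (M, Le M y, C) ∈ Q) {q : Set (ℕ × ℕ)} (hq : Full M N (Le M y) (Le N y) q)
    (hqS : idOn S ⊆ q) {β : Ordinal.{0}} (hβ : l ≤ β) (s : List ℕ)
    (hs : ∀ x ∈ s, x ∈ Le M y) (hb : BF M N univ univ (β + Ordinal.omega0) (idOn S)) :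
    BF M N univ univ β {u | u ∈ q ∧ u.1 ∈ s} :=
  (h.pres hM hN hC hy hq (idOn_finite hS) hqS ⟨rfl, hCS hy⟩ (fun c hc => ⟨c, rfl, hCS hc⟩) hβ s hs
    (hb.mono (add_nat_le_add_omega _ _))).subset fun _ hu => ⟨hu.1, Or.inr hu.2⟩

/-- States of the tower. -/
structure SB (K : Set (St a)) (Q : Set (St a × Set ℕ × Set ℕ)) (Λ : Ordinal.{0}) (M : St a)
    (S C : Set ℕ) (y : ℕ) (β : Ordinal.{0}) : Prop where
  memK : M ∈ K
  fin : S.Finite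
  yC : y ∈ C
  CS : C ⊆ S
  sub : S ⊆ Le M y
  q : (M, Le M y, C) ∈ Q
  ge : Λ ≤ β
  lt : β < Ordinal.omega 1
  mnl : Mnl K M S β

theorem exists_up {M : St a} (h : WO M) (hn : ∀ x, ∃ y, Adj M x y) (x y : ℕ) :
    ∃ z, Adj M x z ∧ y ∈ Le M z := by
  rcases h.le_total x y with h1 | h1
  · obtain ⟨z, hz⟩ := hn x
    exact ⟨z, hz, h.asymm (h.le_lt h1 hz)⟩
  · obtain ⟨z, hz⟩ := hn y
    exact ⟨z, h.le_lt h1 hz, h.asymm hz⟩

/-- The extension step of the tower. -/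
theorem TH.extend (h : TH α l K P Q) {Λ w0 : Ordinal.{0}} (hw : l ≤ w0)
    (hΛ : w0 + Ordinal.omega0 ≤ Λ) {M : St a} {S C : Set ℕ} {y : ℕ} {β : Ordinal.{0}}
    (hs : SB K Q Λ M S C y β) {γ : Ordinal.{0}} (hγ : γ < w0) (c : List ℕ)
    (hc : ∀ x ∈ c, x ∈ Le M y) (e : ℕ) :
    ∃ (M' : St a) (S' C' : Set ℕ) (y' : ℕ) (β' : Ordinal.{0}) (f : ℕ → ℕ),
      SB K Q Λ M' S' C' y' β' ∧ S ⊆ S' ∧ β ≤ β' ∧ M' ∈ Cl K M S β ∧ Adj M' y y' ∧
      Full M M' (Le M y) (Le M' y) (gph (Le M y) f) ∧ (∀ x ∈ S, f x = x) ∧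
      ∃ e' ∈ Le M' y', BF M M' univ univ γ (insert (e, e') (gr id f c)) := by
  classical
  -- the property of `N`
  let Rp : List ℕ × ℕ × Finset ℕ → St a → Prop := fun κ N =>
    κ.1.length = c.length ∧ (∃ q, Full M N (Le M y) (Le N y) q ∧ idOn S ⊆ q ∧
      zipSet c κ.1 ⊆ q) ∧ Adj N y κ.2.1 ∧
    (∃ e' ∈ Le N κ.2.1, BF M N univ univ γ (insert (e, e') (zipSet c κ.1))) ∧
    (κ.2.2 : Set ℕ) ⊆ Le N κ.2.1 ∧ κ.2.1 ∈ κ.2.2 ∧ (N, Le N κ.2.1, (κ.2.2 : Set ℕ)) ∈ Q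
  have hωβ : w0 + Ordinal.omega0 ≤ β := hΛ.trans hs.ge
  have hlβ : l ≤ β := (hw.trans le_self_add).trans hωβ
  have hex : ∀ N ∈ Cl K M S β, ∃ κ, Rp κ N := by
    rintro N ⟨hN, hb⟩
    obtain ⟨hSN, q, hq, hqS⟩ := h.pieceIsoS hs.memK hs.fin (hs.CS hs.yC) hs.sub (hb.mono hlβ)
    have h1 := h.presS hs.memK hN hs.fin hs.yC hs.CS hs.q hq hqS hw c hc (hb.mono hωβ)
    obtain ⟨e', -, h2⟩ := h1.forth hγ (mem_univ e)
    obtain ⟨z, hz, hez⟩ := exists_up (h.wo N hN) (h.nolast N hN) y e'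
    obtain ⟨C', hC1, hC2, hC3, hC4⟩ := h.q2 N hN z
    obtain ⟨g, hg⟩ := hq.exists_fun
    have hzip : zipSet c (c.map g) = gr id g c := by
      ext ⟨u, v⟩
      simp only [zipSet, gr, Set.mem_ofPred_eq]
      constructor
      · intro h3
        rw [List.zip_map_right, List.mem_map] at h3
        obtain ⟨⟨u1, v1⟩, h4, h5⟩ := h3
        have h6 : u1 = v1 ∧ u1 ∈ c := by
          obtain ⟨i, hi, h7⟩ := List.getElem_of_mem h4
          simp only [List.getElem_zip, Prod.mk.injEq] at h7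
          refine ⟨h7.1.symm.trans h7.2, ?_⟩
          rw [← h7.1]; exact List.getElem_mem _
        obtain ⟨rfl, h7⟩ := h6
        simp only [Prod.map_apply, id_eq, Prod.mk.injEq] at h5
        exact ⟨u1, h7, by rw [← h5.1, ← h5.2]; rfl⟩
      · rintro ⟨x, hx, h3⟩
        rw [h3, List.zip_map_right, List.mem_map]
        obtain ⟨i, hi, h7⟩ := List.getElem_of_mem hx
        refine ⟨(x, x), ?_, rfl⟩
        rw [List.mem_iff_getElem]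
        exact ⟨i, by simpa using hi, by simp [h7]⟩
    have hgr : gr id g c ⊆ {u | u ∈ q ∧ u.1 ∈ c} := by
      rintro _ ⟨x, hx, rfl⟩
      refine ⟨?_, hx⟩
      rw [← hg]
      exact ⟨hc x hx, rfl⟩
    refine ⟨(c.map g, z, hC1.toFinset), by simp, ⟨q, hq, hqS, ?_⟩, hz, ⟨e', hez, ?_⟩, ?_, ?_, ?_⟩
    · rw [hzip]; exact fun u hu => (hgr hu).1
    · rw [hzip]; exact h2.subset (insert_subset_insert hgr)
    · simpa using hC2
    · simpa using hC3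
    · simpa using hC4
  have hthick : ∃ κ, ¬ Thin {N | N ∈ Cl K M S β ∧ Rp κ N} := by
    by_contra hcon
    push Not at hcon
    refine hs.mnl.1 ((thin_iUnion hcon).mono fun N hN => ?_)
    obtain ⟨κ, hκ⟩ := hex N hN
    exact mem_iUnion.2 ⟨κ, hN, hκ⟩
  obtain ⟨⟨c', z, C'⟩, hκ⟩ := hthick
  set S' : Set ℕ := S ∪ {x | x ∈ c'} ∪ (C' : Set ℕ) with hS'
  have hS'f : S'.Finite := (hs.fin.union (List.finite_toSet c')).union C'.finite_toSet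
  have hSS' : S ⊆ S' := fun x hx => Or.inl (Or.inl hx)
  obtain ⟨M₁, hM₁, hM₁t⟩ := sub_thick h.toGK (fun N hN => hN.1.1) hκ hS'f (add_omega_lt hs.lt)
  have hM₁t' : ¬ Thin (Cl K M₁ S' (β + Ordinal.omega0)) :=
    fun h2 => hM₁t (h2.mono fun N hN => ⟨hN.1.1.1, hN.2⟩)
  obtain ⟨M', hM', β', hβ'1, hβ'2, hmn⟩ :=
    exists_min h.toGK hS'f (add_omega_lt hs.lt) hM₁t'
  obtain ⟨⟨hM₁K, hM₁b⟩, hlen, ⟨q, hq, hqS, hqc⟩, hyz, ⟨e₁, he₁, hbe⟩, hC1, hC2, hC3⟩ := hM₁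
  simp only at hlen hqc hyz he₁ hbe hC1 hC2 hC3
  have hzS' : z ∈ S' := Or.inr hC2
  have hyS' : y ∈ S' := hSS' (hs.CS hs.yC)
  have hWO := h.wo M₁ hM₁K
  have hyz' : Le M₁ y ⊆ Le M₁ z := hWO.Le_sub (hWO.asymm hyz)
  have hS'M₁ : S' ⊆ Le M₁ z := by
    rintro x ((hx | hx) | hx)
    · exact hyz' (hq.sub (hqS (idOn_self hx))).2
    · obtain ⟨x0, hx0⟩ := exists_zipSet_right hlen.symm (show x ∈ c' from hx)
      exact hyz' (hq.sub (hqc hx0)).2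
    · exact hC1 hx
  have hlb : l ≤ β + Ordinal.omega0 := hlβ.trans le_self_add
  obtain ⟨hS'M', q₁, hq₁, hq₁S⟩ :=
    h.pieceIsoS hM₁K hS'f hzS' hS'M₁ (hM'.2.mono hlb)
  have hWO' := h.wo M' hM'.1
  have hyzM' : Adj M' y z := (hM'.2.piso.adj (idOn_self hyS') (idOn_self hzS')).1 hyz
  have hy1 : Le M' y ⊆ Le M' z := hWO'.Le_sub (hWO'.asymm hyzM')
  have hq₂ := hq₁.resLe hyz' hy1 (hq₁S (idOn_self hyS'))
  have hq₃ := hq.trans hq₂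
  obtain ⟨f, hf⟩ := hq₃.exists_fun
  have hfS : ∀ x ∈ S, f x = x := by
    intro x hx
    have h1 : (x, f x) ∈ gph (Le M y) f := ⟨hs.sub hx, rfl⟩
    rw [hf] at h1
    refine hq₃.piso.snd_eq h1 ?_ rfl
    exact ⟨x, hqS (idOn_self hx), hq₁S (idOn_self (hSS' hx)), (hq.sub (hqS (idOn_self hx))).2⟩
  have hfc : gr id f c ⊆ zipSet c c' := by
    rintro _ ⟨x, hx, rfl⟩
    obtain ⟨x', hx'⟩ := exists_zipSet_left hlen.symm hx
    have h1 : (x, f x) ∈ gph (Le M y) f := ⟨hc x hx, rfl⟩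
    rw [hf] at h1
    have h2 : f x = x' := by
      refine hq₃.piso.snd_eq h1 ?_ rfl
      exact ⟨x', hqc hx', hq₁S (idOn_self (Or.inl (Or.inr (mem_zipSet_right hx')))),
        (hq.sub (hqc hx')).2⟩
    simp only [id_eq]
    rw [h2]
    exact hx'
  have hγβ : γ < β + Ordinal.omega0 := by
    refine lt_of_lt_of_le hγ ?_
    exact le_self_add.trans (hωβ.trans le_self_add)
  obtain ⟨e', -, he'⟩ := hM'.2.forth hγβ (mem_univ e₁)
  refine ⟨M', S', C', z, β', f, ⟨hM'.1, hS'f, hC2, fun x hx => Or.inr hx, hS'M', ?_,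
    (hs.ge.trans le_self_add).trans hβ'1, hβ'2, hmn⟩, hSS', le_self_add.trans hβ'1,
    ⟨hM'.1, bf_trans_id hM₁b ((hM'.2.mono le_self_add).subset (idOn_mono hSS'))⟩, hyzM',
    ?_, hfS, e', ?_, ?_⟩
  · exact h.qTrans hM₁K hS'f hC2 (fun x hx => Or.inr hx) hS'M₁ hC3 (hM'.2.mono hlb)
  · rw [hf]; exact hq₃
  · exact (piso_Le he'.piso (mem_insert_of_mem _ (idOn_self hzS')) (mem_insert _ _)).1 he₁
  · refine (hbe.comp he').subset ?_
    rintro u (rfl | hu)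
    · exact ⟨e₁, mem_insert _ _, mem_insert _ _⟩
    · have h1 := hfc hu
      exact ⟨u.2, mem_insert_of_mem _ h1, mem_insert_of_mem _
        ⟨rfl, Or.inl (Or.inr (mem_zipSet_right (x := u.1) h1))⟩⟩

end Pool.Agent.Y560.TT
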