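import Pool.Agent.Y560.TT.CaseB

set_option autoImplicit false

/-! Case B: the tower and the contradiction. -/

namespace Pool.Agent.Y560.TT

open Set
open Pool.Agent.H899R2.VP
open Pool.Agent.H533R2.VO

variable {a : ℕ → ℕ}

theorem dep_seq {σ : Type 1} (P : σ → Prop) (R : ℕ → σ → σ → Prop) (s0 : σ) (h0 : P s0)
    (step : ∀ k s, P s → ∃ s', P s' ∧ R k s s') :
    ∃ q : ℕ → σ, q 0 = s0 ∧ ∀ k, P (q k) ∧ R k (q k) (q (k + 1)) := by
  have hst : ∀ k (s : {s // P s}), ∃ s' : {s // P s}, R k s.1 s'.1 := by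
    rintro k ⟨s, hs⟩
    obtain ⟨s', h1, h2⟩ := step k s hs
    exact ⟨⟨s', h1⟩, h2⟩
  choose F hF using hst
  let G : ∀ _ : ℕ, {s // P s} := fun k => Nat.rec ⟨s0, h0⟩ (fun k s => F k s) k
  exact ⟨fun k => (G k).1, rfl, fun k => ⟨(G k).2, hF k (G k)⟩⟩

variable {α l : Ordinal.{0}} {K : Set (St a)} {P : Set (St a × Set ℕ)}
  {Q : Set (St a × Set ℕ × Set ℕ)}

/-- The data of a tower. -/
structure Tower (α l : Ordinal.{0}) (K : Set (St a)) (P : Set (St a × Set ℕ))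
    (Q : Set (St a × Set ℕ × Set ℕ)) (μ w0 Λ : Ordinal.{0}) (M : ℕ → St a) (S C : ℕ → Set ℕ)
    (y : ℕ → ℕ) (β : ℕ → Ordinal.{0}) (f : ℕ → ℕ → ℕ) : Prop where
  th : TH α l K P Q
  lw : l ≤ w0
  μw : μ < w0
  wΛ : w0 + Ordinal.omega0 + 1 ≤ Λ
  wlt : w0 < Ordinal.omega 1
  sb : ∀ k, SB K Q Λ (M k) (S k) (C k) (y k) (β k)
  subS : ∀ k, S k ⊆ S (k + 1)
  lev : ∀ k, β k ≤ β (k + 1)
  mem : ∀ k, M (k + 1) ∈ Cl K (M k) (S k) (β k)
  adj : ∀ k, Adj (M (k + 1)) (y k) (y (k + 1))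
  full : ∀ k, Full (M k) (M (k + 1)) (Le (M k) (y k)) (Le (M (k + 1)) (y k))
    (gph (Le (M k) (y k)) (f k))
  fix : ∀ k, ∀ x ∈ S k, f k x = x
  nofar : ∀ z, ¬ far μ (M 0) (y 0) z
  req : ∀ γ < μ, ∀ c : List ℕ, (∀ x ∈ c, x ∈ Le (M 0) (y 0)) → ∀ e, ∃ j, ∃ e' ∈ Le (M j) (y j),
    BF (M 0) (M j) univ univ γ (insert (e, e') (gr id (itf f 0 j) c))

variable {μ w0 Λ : Ordinal.{0}} {M : ℕ → St a} {S C : ℕ → Set ℕ}
  {y : ℕ → ℕ} {β : ℕ → Ordinal.{0}} {f : ℕ → ℕ → ℕ}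

/-- Levels. -/
noncomputable def vv (β : ℕ → Ordinal.{0}) (w0 : Ordinal.{0}) (k : ℕ) (o : Ordinal.{0}) :
    Ordinal.{0} := max (β k) (max w0 o + Ordinal.omega0)

/-- The realisations of the tower. -/
structure RR (K : Set (St a)) (w0 : Ordinal.{0}) (M : ℕ → St a) (S : ℕ → Set ℕ) (y : ℕ → ℕ)
    (β : ℕ → Ordinal.{0}) (k : ℕ) (o : Ordinal.{0}) (N : St a) (φ : ℕ → ℕ) : Prop where
  mem : N ∈ Cl K (M k) (S k) (β k)
  thick : ¬ Thin (Cl K N (S k) (vv β w0 k o))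
  full : Full (M k) N (Le (M k) (y k)) (Le N (y k)) (gph (Le (M k) (y k)) φ)
  fix : ∀ x ∈ S k, φ x = x

theorem gph_comp {X : Set ℕ} {g g' : ℕ → ℕ} : gph X (g' ∘ g) ⊆ comp (gph X g) {w | w.2 = g' w.1} := by
  rintro ⟨u, v⟩ ⟨h1, h2⟩
  exact ⟨g u, ⟨h1, rfl⟩, h2⟩

/-- Composition of realisations. -/
theorem full_comp {M N L : St a} {y y' : ℕ} {f φ : ℕ → ℕ} (hN : WO N) (hL : WO L)
    (h1 : Full M N (Le M y) (Le N y) (gph (Le M y) f))
    (h2 : Full N L (Le N y') (Le L y') (gph (Le N y') φ))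
    (hyN : ¬ Adj N y' y) (hyφ : φ y = y) (hy' : φ y' = y') :
    Full M L (Le M y) (Le L y) (gph (Le M y) (φ ∘ f)) := by
  have hsub : Le N y ⊆ Le N y' := hN.Le_sub hyN
  have hyy : (y, y) ∈ gph (Le N y') φ := ⟨hsub (self_mem_Le hN y), hyφ.symm⟩
  have hyy' : (y', y') ∈ gph (Le N y') φ := ⟨self_mem_Le hN y', hy'.symm⟩
  have hsub' : Le L y ⊆ Le L y' := by
    refine hL.Le_sub ?_
    intro h3
    exact hyN ((h2.piso.adj hyy' hyy).2 h3)
  have h3 := h1.trans (h2.resLe hsub hsub' hyy)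
  have h4 : comp (gph (Le M y) f) {u | u ∈ gph (Le N y') φ ∧ u.1 ∈ Le N y} =
      gph (Le M y) (φ ∘ f) := by
    ext ⟨u, v⟩
    constructor
    · rintro ⟨w, ⟨h5, h6⟩, ⟨h7, h8⟩, h9⟩
      simp only at h5 h6 h7 h8
      subst h6
      exact ⟨h5, h8⟩
    · rintro ⟨h5, h6⟩
      simp only at h5 h6
      have h7 : f u ∈ Le N y := (h1.sub (show (u, f u) ∈ gph (Le M y) f from ⟨h5, rfl⟩)).2
      exact ⟨f u, ⟨h5, rfl⟩, ⟨hsub h7, h6⟩, h7⟩
  rwa [h4] at h3

theorem Tower.sys (h : Tower α l K P Q μ w0 Λ M S C y β f) :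
    Sys M (fun k => Le (M k) (y k)) f := by
  refine ⟨fun k z hz => ?_, fun k => (h.full k).piso⟩
  have h1 : f k z ∈ Le (M (k + 1)) (y k) :=
    ((h.full k).sub (show (z, f k z) ∈ gph (Le (M k) (y k)) (f k) from ⟨hz, rfl⟩)).2
  have hWO := h.th.wo _ (h.sb (k + 1)).memK
  exact hWO.Le_sub (hWO.asymm (h.adj k)) h1

theorem Tower.wlΛ (h : Tower α l K P Q μ w0 Λ M S C y β f) (k : ℕ) :
    w0 + Ordinal.omega0 + 1 ≤ β k := h.wΛ.trans (h.sb k).ge

theorem Tower.monoS (h : Tower α l K P Q μ w0 Λ M S C y β f) : Monotone S :=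
  monotone_nat_of_le_succ h.subS

theorem Tower.monoβ (h : Tower α l K P Q μ w0 Λ M S C y β f) : Monotone β :=
  monotone_nat_of_le_succ h.lev

theorem Tower.ymem (h : Tower α l K P Q μ w0 Λ M S C y β f) (k : ℕ) : y k ∈ S k :=
  (h.sb k).CS (h.sb k).yC

/-- Equivalence of `M k` and its realisations on the closed piece. -/
theorem Tower.rbf (h : Tower α l K P Q μ w0 Λ M S C y β f) {k : ℕ} {o : Ordinal.{0}} {N : St a}
    {φ : ℕ → ℕ} (hr : RR K w0 M S y β k o N φ) (s : List ℕ) (hs : ∀ z ∈ s, z ∈ Le (M k) (y k)) :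
    BF (M k) N univ univ w0 (gr id φ s) := by
  have hb := h.sb k
  have hq : idOn (S k) ⊆ gph (Le (M k) (y k)) φ := by
    rintro ⟨u, v⟩ ⟨h1, h2⟩
    simp only at h1 h2
    subst h1
    exact ⟨hb.sub h2, (hr.fix u h2).symm⟩
  refine (h.th.presS hb.memK hr.mem.1 hb.fin hb.yC hb.CS hb.q hr.full hq h.lw s hs
    (hr.mem.2.mono (le_self_add.trans (h.wlΛ k)))).subset ?_
  rintro _ ⟨x, hx, rfl⟩
  exact ⟨⟨hs x hx, rfl⟩, hx⟩

/-- Equivalence of two realisations. -/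
theorem Tower.eqv (h : Tower α l K P Q μ w0 Λ M S C y β f) {k : ℕ} {o : Ordinal.{0}}
    (ho : o < Ordinal.omega 1) {N N' : St a} {φ φ' : ℕ → ℕ} (hr : RR K w0 M S y β k o N φ)
    (hr' : RR K w0 M S y β k o N' φ') (s : List ℕ) (hs : ∀ z ∈ s, z ∈ Le (M k) (y k)) :
    BF N N' univ univ (max w0 o) (gr φ φ' s) := by
  have hb := h.sb k
  have hlt : vv β w0 k o < Ordinal.omega 1 := max_lt hb.lt (add_omega_lt (max_lt h.wlt ho))
  have h1 : BF N N' univ univ (vv β w0 k o) (idOn (S k)) :=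
    hb.mnl.2 _ (le_max_left _ _) hlt N hr.mem N' hr'.mem hr.thick hr'.thick
  have hlb : l ≤ β k := h.lw.trans ((le_self_add.trans le_self_add).trans (h.wlΛ k))
  have hN := h.th.qTrans hb.memK hb.fin hb.yC hb.CS hb.sub hb.q (hr.mem.2.mono hlb)
  have hF := hr.full.symm.trans hr'.full
  have hq : idOn (S k) ⊆ comp (inv (gph (Le (M k) (y k)) φ)) (gph (Le (M k) (y k)) φ') := by
    rintro ⟨u, v⟩ ⟨h1, h2⟩
    simp only at h1 h2
    subst h1
    exact ⟨u, ⟨hb.sub h2, (hr.fix u h2).symm⟩, ⟨hb.sub h2, (hr'.fix u h2).symm⟩⟩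
  refine (h.th.presS hr.mem.1 hr'.mem.1 hb.fin hb.yC hb.CS hN hF hq
    (h.lw.trans (le_max_left _ _)) (s.map φ) ?_ (h1.mono (le_max_right _ _))).subset ?_
  · intro x hx
    obtain ⟨z, hz, rfl⟩ := List.mem_map.1 hx
    exact (hr.full.sub (show (z, φ z) ∈ gph (Le (M k) (y k)) φ from ⟨hs z hz, rfl⟩)).2
  · rintro _ ⟨x, hx, rfl⟩
    exact ⟨⟨x, ⟨hs x hx, rfl⟩, ⟨hs x hx, rfl⟩⟩, List.mem_map.2 ⟨x, hx, rfl⟩⟩

theorem Tower.ne (h : Tower α l K P Q μ w0 Λ M S C y β f) (k : ℕ) {o : Ordinal.{0}}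
    (ho : o < Ordinal.omega 1) : ∃ N φ, RR K w0 M S y β k o N φ := by
  have hb := h.sb k
  have hlt : vv β w0 k o < Ordinal.omega 1 := max_lt hb.lt (add_omega_lt (max_lt h.wlt ho))
  obtain ⟨N, hN, ht⟩ := sub_thick h.th.toGK (fun N hN => hN.1) hb.mnl.1 hb.fin hlt
  have hlb : l ≤ β k := h.lw.trans ((le_self_add.trans le_self_add).trans (h.wlΛ k))
  obtain ⟨hSN, q, hq, hqS⟩ := h.th.pieceIsoS hb.memK hb.fin (h.ymem k) hb.sub (hN.2.mono hlb)
  obtain ⟨φ, rfl⟩ := hq.exists_fun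
  refine ⟨N, φ, hN, fun h2 => ht (h2.mono fun N' hN' => ⟨hN'.1.1, hN'.2⟩), hq, fun x hx => ?_⟩
  exact (hqS (idOn_self hx)).2.symm

theorem Tower.res (h : Tower α l K P Q μ w0 Λ M S C y β f) {k : ℕ} {o : Ordinal.{0}} {N : St a}
    {φ : ℕ → ℕ} (hr : RR K w0 M S y β (k + 1) o N φ) : RR K w0 M S y β k o N (φ ∘ f k) := by
  refine ⟨?_, ?_, ?_, ?_⟩
  · exact cl_trans (h.mem k) (cl_mono (h.subS k) (h.lev k) hr.mem)
  · exact fun h2 => hr.thick (h2.mono (cl_mono (h.subS k) (max_le_max_right _ (h.lev k))))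
  · have hWO := h.th.wo _ (h.sb (k + 1)).memK
    exact full_comp hWO (h.th.wo N hr.mem.1) (h.full k) hr.full (hWO.asymm (h.adj k))
      (hr.fix _ (h.subS k (h.ymem k))) (hr.fix _ (h.ymem (k + 1)))
  · intro x hx
    simp only [Function.comp_apply]
    rw [h.fix k x hx, hr.fix x (h.subS k hx)]

theorem Tower.nofarN (h : Tower α l K P Q μ w0 Λ M S C y β f) {N : St a}
    (hN : N ∈ Cl K (M 0) (S 0) (β 0)) (z : ℕ) : ¬ far μ N (y 0) z := by
  intro hz
  have h1 : μ + Ordinal.omega0 < β 0 := by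
    refine lt_of_lt_of_le ?_ (h.wlΛ 0)
    refine lt_of_le_of_lt ?_ (lt_add_one _)
    gcongr
    exact h.μw.le
  obtain ⟨z0, -, h2⟩ := hN.2.back h1 (mem_univ z)
  have h3 := h2.symm
  rw [inv_insert, inv_idOn] at h3
  exact h.nofar z0 (hz.inv (mem_insert_of_mem _ (idOn_self (h.ymem 0))) (mem_insert _ _) h3)

theorem hh_zero {k u : ℕ} {Z : ℕ → Set ℕ} (hu : u ∈ XX Z f 0) :
    hh f k u = itf f 0 k u.unpair.2 := by
  have h0 : u.unpair.1 = 0 := Nat.le_zero.1 hu.1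
  unfold hh
  rw [h0, Nat.sub_zero]

theorem Tower.real (h : Tower α l K P Q μ w0 Λ M S C y β f) :
    Real M (fun k => Le (M k) (y k)) f (Ordinal.omega 1) (RR K w0 M S y β) := by
  refine ⟨fun k o ho => h.ne k ho, ?_, fun k o N φ hr => hr.full.piso, ?_,
    fun k o N φ hr => h.res hr, ?_⟩
  · rintro k o o' N φ ho hr
    refine ⟨hr.mem, fun h2 => hr.thick (h2.mono (cl_mono Subset.rfl ?_)), hr.full, hr.fix⟩
    unfold vv
    gcongr
  · intro k o N φ N' φ' ho hr hr' s hs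
    exact (h.eqv ho hr hr' s hs).mono (le_max_right _ _)
  · intro k o N φ ho hr γ hγ s hs d
    have hR : ∀ {k k'} (_ : k ≤ k') {N : St a} {φ : ℕ → ℕ}, RR K w0 M S y β k' o N φ →
        ∃ φ'', RR K w0 M S y β k o N φ'' ∧
          ∀ u ∈ XX (fun k => Le (M k) (y k)) f k, φ'' (hh f k u) = φ (hh f k' u) := by
      intro k k' hk N φ h
      induction k', hk using Nat.le_induction generalizing φ with
      | base => exact ⟨φ, h, fun _ _ => rfl⟩
      | succ k' hk ih =>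
        obtain ⟨φ'', h1, h2⟩ := ih (Tower.res ‹_› h)
        refine ⟨φ'', h1, fun u hu => ?_⟩
        rw [h2 u hu, hh_succ (hu.1.trans hk)]
        rfl
    obtain ⟨φ₀, hr0, hφ₀⟩ := hR (Nat.zero_le k) hr
    have hNK : N ∈ K := hr.mem.1
    obtain ⟨dp, hdp1, hdp2⟩ := exists_up (h.th.wo N hNK) (h.th.nolast N hNK) (y 0) d
    -- a requirement which is not realised below `dp`
    obtain ⟨γ₁, hγ₁, c₁, hc₁, e₁, he₁⟩ : ∃ γ₁ < μ, ∃ c₁ : List ℕ, (∀ x ∈ c₁, x ∈ Le N (y 0)) ∧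
        ∃ e₁, ∀ e' ∈ Le N dp, ¬ BF N N univ univ γ₁ (insert (e₁, e') (idOn {z | z ∈ c₁})) := by
      by_contra hcon
      push Not at hcon
      exact h.nofarN hr0.mem dp ⟨hdp1, fun γ hγ s hs d => hcon γ hγ s hs d⟩
    -- pull back to `XX 0`
    have hpull : ∀ x ∈ c₁, ∃ u, u ∈ XX (fun k => Le (M k) (y k)) f 0 ∧ φ₀ (hh f 0 u) = x := by
      intro x hx
      obtain ⟨z, hz⟩ := hr0.full.sur x (hc₁ x hx)
      obtain ⟨u, hu, hu2⟩ := hh_surj h.sys (k := 0) hz.1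
      exact ⟨u, hu, by rw [hu2]; exact hz.2.symm⟩
    choose! pu hpu1 hpu2 using hpull
    set uc : List ℕ := c₁.map pu with huc
    have hucX : ∀ u ∈ uc, u ∈ XX (fun k => Le (M k) (y k)) f 0 := by
      intro u hu
      obtain ⟨x, hx, rfl⟩ := List.mem_map.1 hu
      exact hpu1 x hx
    set c : List ℕ := uc.map (hh f 0) with hc
    have hcM : ∀ x ∈ c, x ∈ Le (M 0) (y 0) := by
      intro x hx
      obtain ⟨u, hu, rfl⟩ := List.mem_map.1 hx
      exact hh_mem h.sys (hucX u hu)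
    have hb0 := h.rbf hr0 c hcM
    obtain ⟨e, -, he⟩ := hb0.back (hγ₁.trans h.μw) (mem_univ e₁)
    obtain ⟨j, e', he'1, he'2⟩ := h.req γ₁ hγ₁ c hcM e
    -- the realisation at a later stage
    have hkk : k ≤ max k j := le_max_left _ _
    have hjk : j ≤ max k j := le_max_right _ _
    obtain ⟨N', φ', hr'⟩ := h.ne (max k j) ho
    obtain ⟨φj, hrj, hφj⟩ := hR hjk hr'
    obtain ⟨φk, hrk, hφk⟩ := hR hkk hr'
    -- image of `e'`
    have hcj : ∀ x ∈ (e' :: c.map (itf f 0 j)), x ∈ Le (M j) (y j) := by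
      intro x hx
      rcases List.mem_cons.1 hx with rfl | hx
      · exact he'1
      · obtain ⟨z, hz, rfl⟩ := List.mem_map.1 hx
        obtain ⟨u, hu, rfl⟩ := List.mem_map.1 hz
        have h1 := hh_mem h.sys (XX_monotone (Nat.zero_le j) (hucX u hu))
        rw [hh_zero (hucX u hu)] at h1
        rw [hh_zero (hucX u hu)]
        exact h1
    have hbj := h.rbf hrj _ hcj
    have hbz : BF (M 0) N' univ univ γ₁ (insert (e, φj e') (gr id (φj ∘ itf f 0 j) c)) := by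
      refine (he'2.comp (hbj.mono (hγ₁.trans h.μw).le)).subset ?_
      rintro _ (rfl | ⟨x, hx, rfl⟩)
      · exact ⟨e', mem_insert _ _, e', by simp, rfl⟩
      · exact ⟨itf f 0 j x, mem_insert_of_mem _ ⟨x, hx, rfl⟩, itf f 0 j x, by simp; right; exact ⟨x, hx, rfl⟩, rfl⟩
    have hzj : φj e' ∈ Le N' (y j) :=
      (hrj.full.sub (show (e', φj e') ∈ gph (Le (M j) (y j)) φj from ⟨he'1, rfl⟩)).2
    -- the point `d'`
    have hsk : ∀ u ∈ s ++ uc, u ∈ XX (fun k => Le (M k) (y k)) f k := by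
      intro u hu
      rcases List.mem_append.1 hu with hu | hu
      · exact hs u hu
      · exact XX_monotone (Nat.zero_le k) (hucX u hu)
    have hbk := h.eqv ho hr hrk ((s ++ uc).map (hh f k)) (by
      intro x hx
      obtain ⟨u, hu, rfl⟩ := List.mem_map.1 hx
      exact hh_mem h.sys (hsk u hu))
    have hlt : max γ (γ₁ + 1) < max w0 o := by
      refine max_lt (hγ.trans_le (le_max_right _ _)) (lt_of_lt_of_le ?_ (le_max_left _ _))
      exact lt_of_le_of_lt (Order.add_one_le_of_lt hγ₁) h.μw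
    obtain ⟨d', -, hd'⟩ := hbk.forth hlt (mem_univ d)
    have hWO' := h.th.wo N' hr'.mem.1
    have hd'j : d' ∈ Le N' (y j) := by
      by_contra hcon
      have hadj : Adj N' (y j) d' := not_not.1 hcon
      have hzd : φj e' ∈ Le N' d' := hWO'.Le_sub (hWO'.asymm hadj) hzj
      obtain ⟨x, -, hx⟩ := (hd'.mono (le_max_right _ _)).back (lt_add_one γ₁)
        (mem_univ (φj e'))
      have hxd : x ∈ Le N d := (piso_Le hx.piso (mem_insert_of_mem _ (mem_insert _ _))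
        (mem_insert _ _)).2 hzd
      have hWO := h.th.wo N hNK
      have hxdp : x ∈ Le N dp := hWO.Le_sub hdp2 hxd
      refine he₁ x hxdp (((he.symm.comp hbz).comp hx.symm).subset ?_)
      rintro ⟨u, v⟩ (huv | ⟨h5, h6⟩)
      · obtain ⟨rfl, rfl⟩ := Prod.mk.injEq _ _ _ _ ▸ huv
        exact ⟨φj e', ⟨e, mem_insert _ _, mem_insert _ _⟩, mem_insert _ _⟩
      · simp only at h5 h6
        subst h5
        have h7 : hh f 0 (pu u) ∈ c := List.mem_map.2 ⟨pu u, List.mem_map.2 ⟨u, h6, rfl⟩, rfl⟩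
        have h8 : pu u ∈ XX (fun k => Le (M k) (y k)) f 0 := hpu1 u h6
        have h9 : φj (itf f 0 j (hh f 0 (pu u))) = φk (hh f k (pu u)) := by
          have e1 : itf f 0 j (hh f 0 (pu u)) = hh f j (pu u) := by
            rw [hh_zero h8, hh_zero h8]
            rfl
          rw [e1, hφj _ (XX_monotone (Nat.zero_le j) h8), hφk _ (XX_monotone (Nat.zero_le k) h8)]
        have h10 : φ (hh f k (pu u)) = u := by
          rw [← hφ₀ _ h8]; exact hpu2 u h6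
        refine ⟨φk (hh f k (pu u)), ⟨hh f 0 (pu u), mem_insert_of_mem _ ?_,
          mem_insert_of_mem _ ?_⟩, mem_insert_of_mem _ (mem_insert_of_mem _ ?_)⟩
        · refine ⟨hh f 0 (pu u), h7, ?_⟩
          simp only [id_eq, Prod.mk.injEq, true_and]
          exact (hpu2 u h6).symm
        · refine ⟨hh f 0 (pu u), h7, ?_⟩
          simp only [id_eq, Prod.mk.injEq, true_and, Function.comp_apply]
          exact h9.symm
        · refine ⟨hh f k (pu u), List.mem_map.2 ⟨pu u, List.mem_append_right _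
            (List.mem_map.2 ⟨u, h6, rfl⟩), rfl⟩, ?_⟩
          exact Prod.ext h10.symm rfl
    -- `d'` is in the piece of `max k j`
    have hd'm : d' ∈ Le N' (y (max k j)) := by
      have hyj : ¬ Adj N' (y (max k j)) (y j) := by
        have key : ∀ i, j ≤ i → ¬ Adj (M i) (y i) (y j) := by
          intro i hi
          induction i, hi using Nat.le_induction with
          | base => exact (h.th.wo _ (h.sb j).memK).irr _
          | succ i hi ih =>
            have hWi := h.th.wo _ (h.sb (i + 1)).memK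
            have h1 : ¬ Adj (M (i + 1)) (y i) (y j) := fun h2 => ih
              (((h.mem i).2.piso.adj (idOn_self (h.ymem i))
                (idOn_self (h.monoS hi (h.ymem j)))).2 h2)
            exact hWi.le_trans h1 (hWi.asymm (h.adj i))
        intro h2
        exact key _ hjk ((hr'.mem.2.piso.adj (idOn_self (h.ymem _))
          (idOn_self (h.monoS hjk (h.ymem j)))).2 h2)
      exact hWO'.Le_sub hyj hd'j
    obtain ⟨z, hz⟩ := hr'.full.sur d' hd'm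
    refine ⟨max k j, N', φ', hkk, hr', z, hz.1, ?_⟩
    refine (hd'.mono (le_max_left _ _)).subset ?_
    rintro _ (rfl | ⟨u, hu, rfl⟩)
    · left
      simp only [Prod.mk.injEq, true_and]
      exact hz.2.symm
    · right
      refine ⟨hh f k u, List.mem_map.2 ⟨u, List.mem_append_left _ hu, rfl⟩, ?_⟩
      simp only [Function.comp_apply, Prod.mk.injEq, true_and]
      exact (hφk u (hs u hu)).symm

theorem Tower.false (h : Tower α l K P Q μ w0 Λ M S C y β f) : False := by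
  obtain ⟨ρ, hρ, hlev⟩ := piece_level (TTT M f) (⋃ k, XX (fun k => Le (M k) (y k)) f k)
  obtain ⟨N, φ, hr⟩ := h.ne 0 hρ
  have h1 := limit_bf h.sys h.real hρ hr [] (by simp)
  have h1' : BF (TTT M f) N (⋃ k, XX (fun k => Le (M k) (y k)) f k) univ ρ ∅ :=
    h1.subset (empty_subset _)
  refine hr.thick ⟨fun _ => N, fun N' hN' => ⟨0, ?_⟩⟩
  have h2 : BF N N' univ univ ρ ∅ := by
    refine (hN'.2.mono ?_).subset (empty_subset _)
    exact (le_max_right w0 ρ).trans (le_self_add.trans (le_max_right _ _))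
  exact iso_trans0 (iso_symm0 (hlev N h1')) (hlev N' (bf_comp0 h1' h2))

end Pool.Agent.Y560.TT
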