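import Pool.Agent.Y560.TT.CaseB2
import Pool.Agent.H899R2.VP.Dst

set_option autoImplicit false

/-! Case B: construction of the tower. -/

namespace Pool.Agent.Y560.TT

open Set
open Pool.Agent.H899R2.VP
open Pool.Agent.H533R2.VO

variable {a : ℕ → ℕ} {α l : Ordinal.{0}} {K : Set (St a)} {P : Set (St a × Set ℕ)}
  {Q : Set (St a × Set ℕ × Set ℕ)}

/-- The requirements. -/
theorem exists_enum {μ : Ordinal.{0}} (hμ : μ < Ordinal.omega 1) :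
    ∃ g : ℕ → Option (Set.Iio μ × List ℕ × ℕ), Function.Surjective g := by
  have := Dst.countable_Iio hμ
  exact exists_surjective_nat _

/-- The base of the tower. -/
theorem TH.base (h : TH α l K P Q) {μ w0 : Ordinal.{0}} (hμ : μ < w0) (hw : w0 < Ordinal.omega 1)
    (hl : l ≤ w0)
    (hthick : ¬ Thin {M | M ∈ K ∧ ∃ y, ∀ z, ¬ far μ M y z}) :
    ∃ (M : St a) (S C : Set ℕ) (y : ℕ) (β : Ordinal.{0}),
      SB K Q (w0 + Ordinal.omega0 + 1) M S C y β ∧ ∀ z, ¬ far μ M y z := by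
  classical
  have h1 : ∃ κ : ℕ × Finset ℕ, ¬ Thin {M | M ∈ K ∧ (∀ z, ¬ far μ M κ.1 z) ∧
      (κ.2 : Set ℕ) ⊆ Le M κ.1 ∧ κ.1 ∈ κ.2 ∧ (M, Le M κ.1, (κ.2 : Set ℕ)) ∈ Q} := by
    by_contra hcon
    push Not at hcon
    refine hthick ((thin_iUnion hcon).mono ?_)
    rintro M ⟨hM, y, hy⟩
    obtain ⟨C, hC1, hC2, hC3, hC4⟩ := h.q2 M hM y
    refine mem_iUnion.2 ⟨(y, hC1.toFinset), hM, hy, ?_, ?_, ?_⟩
    · simpa using hC2
    · simpa using hC3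
    · simpa using hC4
  obtain ⟨⟨y, C⟩, hκ⟩ := h1
  simp only at hκ
  have hlt : w0 + Ordinal.omega0 + 1 < Ordinal.omega 1 := by
    simpa using add_nat_lt (add_omega_lt hw) 1
  obtain ⟨M₁, ⟨hM₁, hfar, hC1, hC2, hC3⟩, ht⟩ :=
    sub_thick h.toGK (fun N hN => hN.1) hκ C.finite_toSet hlt
  have ht' : ¬ Thin (Cl K M₁ (C : Set ℕ) (w0 + Ordinal.omega0 + 1)) :=
    fun h2 => ht (h2.mono fun N hN => ⟨hN.1.1, hN.2⟩)
  obtain ⟨M, hM, β, hβ1, hβ2, hmn⟩ := exists_min h.toGK C.finite_toSet hlt ht'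
  have hlw : l ≤ w0 + Ordinal.omega0 + 1 := (hl.trans le_self_add).trans le_self_add
  obtain ⟨hCM, -⟩ := h.pieceIsoS hM₁ C.finite_toSet hC2 hC1 (hM.2.mono hlw)
  refine ⟨M, C, C, y, β, ⟨hM.1, C.finite_toSet, hC2, Subset.rfl, hCM,
    h.qTrans hM₁ C.finite_toSet hC2 Subset.rfl hC1 hC3 (hM.2.mono hlw), hβ1, hβ2, hmn⟩, ?_⟩
  intro z hz
  have h1 : μ + Ordinal.omega0 < w0 + Ordinal.omega0 + 1 := by
    refine lt_of_le_of_lt ?_ (lt_add_one _)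
    gcongr
  obtain ⟨z0, -, h2⟩ := hM.2.back h1 (mem_univ z)
  have h3 := h2.symm
  rw [inv_insert, inv_idOn] at h3
  exact hfar z0 (hz.inv (mem_insert_of_mem _ (idOn_self hC2)) (mem_insert _ _) h3)

/-- A state of the recursion. -/
structure State (a : ℕ → ℕ) : Type 1 where
  M : St a
  S : Set ℕ
  C : Set ℕ
  y : ℕ
  β : Ordinal.{0}
  F : ℕ → ℕ

/-- Case B. -/
theorem TH.caseB (h : TH α l K P Q) {μ : Ordinal.{0}} (hμ : μ < Ordinal.omega 1) :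
    Thin {M | M ∈ K ∧ ∃ y, ∀ z, ¬ far μ M y z} := by
  classical
  by_contra hthick
  set w0 : Ordinal.{0} := max (μ + 1) l with hw0
  have hμw : μ < w0 := (lt_add_one μ).trans_le (le_max_left _ _)
  have hlw : l ≤ w0 := le_max_right _ _
  have hwlt : w0 < Ordinal.omega 1 := max_lt (by simpa using add_nat_lt hμ 1) h.llt
  set Λ := w0 + Ordinal.omega0 + 1 with hΛ
  obtain ⟨M₀, S₀, C₀, y₀, β₀, hsb₀, hnf⟩ := h.base hμw hwlt hlw hthick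
  obtain ⟨enum, henum⟩ := exists_enum hμ
  let PP : State a → Prop := fun s => SB K Q Λ s.M s.S s.C s.y s.β ∧ S₀ ⊆ s.S ∧
    s.M ∈ Cl K M₀ S₀ β₀ ∧ Full M₀ s.M (Le M₀ y₀) (Le s.M y₀) (gph (Le M₀ y₀) s.F) ∧
    (∀ x ∈ S₀, s.F x = x) ∧ ¬ Adj s.M s.y y₀ ∧ β₀ ≤ s.β
  let R : ℕ → State a → State a → Prop := fun k s s' => s.S ⊆ s'.S ∧ s.β ≤ s'.β ∧
    s'.M ∈ Cl K s.M s.S s.β ∧ Adj s'.M s.y s'.y ∧
    ∃ f : ℕ → ℕ, Full s.M s'.M (Le s.M s.y) (Le s'.M s.y) (gph (Le s.M s.y) f) ∧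
      (∀ x ∈ s.S, f x = x) ∧ s'.F = f ∘ s.F ∧
      ∀ ρ, enum k = some ρ → (∀ x ∈ ρ.2.1, x ∈ Le M₀ y₀) → ∃ e' ∈ Le s'.M s'.y,
        BF M₀ s'.M univ univ ρ.1.1 (insert (ρ.2.2, e') (gr id s'.F ρ.2.1))
  have hy₀ : y₀ ∈ S₀ := hsb₀.CS hsb₀.yC
  have hP0 : PP ⟨M₀, S₀, C₀, y₀, β₀, id⟩ := by
    refine ⟨hsb₀, Subset.rfl, ⟨hsb₀.memK, bf_refl_id _ _ _⟩, ?_, fun x _ => rfl,
      (h.wo _ hsb₀.memK).irr _, le_rfl⟩
    have h1 : gph (Le M₀ y₀) id = idOn (Le M₀ y₀) := by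
      ext ⟨u, v⟩
      constructor
      · rintro ⟨h1, h2⟩; exact ⟨h2.symm, h1⟩
      · rintro ⟨h1, h2⟩; exact ⟨h2, h1.symm⟩
    rw [h1]
    exact ⟨by rintro ⟨u, v⟩ ⟨h1, h2⟩; simp only at h1 h2; subst h1; exact ⟨h2, h2⟩,
      PIso.idOn _ _, fun x hx => ⟨x, rfl, hx⟩, fun x hx => ⟨x, rfl, hx⟩⟩
  have hstep : ∀ k s, PP s → ∃ s', PP s' ∧ R k s s' := by
    rintro k ⟨M, S, C, y, β, F⟩ ⟨hsb, hSS, hMc, hF, hFS, hyy, hββ⟩
    simp only at hsb hSS hMc hF hFS hyy hββ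
    have hWM := h.wo M hsb.memK
    -- the data for the extension
    obtain ⟨γ, hγ, c, e, hc, hfin⟩ : ∃ γ, γ < w0 ∧ ∃ (c : List ℕ) (e : ℕ),
        (∀ x ∈ c, x ∈ Le M y) ∧ ∀ ρ, enum k = some ρ → (∀ x ∈ ρ.2.1, x ∈ Le M₀ y₀) →
          ρ.1.1 = γ ∧ c = ρ.2.1.map F ∧
          BF M₀ M univ univ γ (insert (ρ.2.2, e) (gr id F ρ.2.1)) := by
      by_cases hex : ∃ ρ, enum k = some ρ ∧ ∀ x ∈ ρ.2.1, x ∈ Le M₀ y₀
      · obtain ⟨ρ, hρ1, hρ2⟩ := hex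
        have hγ : ρ.1.1 < w0 := lt_trans ρ.1.2 hμw
        have hq : idOn S₀ ⊆ gph (Le M₀ y₀) F := by
          rintro ⟨u, v⟩ ⟨h1, h2⟩
          simp only at h1 h2
          subst h1
          exact ⟨hsb₀.sub h2, (hFS u h2).symm⟩
        have h1 := h.presS hsb₀.memK hsb.memK hsb₀.fin hsb₀.yC hsb₀.CS hsb₀.q hF hq hlw
          ρ.2.1 hρ2 (hMc.2.mono (le_self_add.trans hsb₀.ge))
        obtain ⟨e, -, he⟩ := h1.forth hγ (mem_univ ρ.2.2)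
        refine ⟨ρ.1.1, hγ, ρ.2.1.map F, e, ?_, ?_⟩
        · intro x hx
          obtain ⟨z, hz, rfl⟩ := List.mem_map.1 hx
          have h2 : F z ∈ Le M y₀ :=
            (hF.sub (show (z, F z) ∈ gph (Le M₀ y₀) F from ⟨hρ2 z hz, rfl⟩)).2
          exact hWM.Le_sub hyy h2
        · intro ρ' hρ' _
          have : ρ' = ρ := by
            rw [hρ1] at hρ'
            exact (Option.some.inj hρ').symm
          subst this
          refine ⟨rfl, rfl, he.subset (insert_subset_insert ?_)⟩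
          rintro _ ⟨x, hx, rfl⟩
          exact ⟨⟨hρ2 x hx, rfl⟩, hx⟩
      · refine ⟨μ, hμw, [], 0, by simp, fun ρ h1 h2 => absurd ⟨ρ, h1, h2⟩ hex⟩
    obtain ⟨M', S', C', y', β', f, hsb', h1, h2, h3, h4, h5, h6, e', h7, h8⟩ :=
      h.extend hlw (le_self_add : w0 + Ordinal.omega0 ≤ Λ) hsb hγ c hc e
    have hWM' := h.wo M' hsb'.memK
    have hyS : y₀ ∈ S := hSS hy₀
    have hyM' : ¬ Adj M' y y₀ := fun h9 => hyy ((h3.2.piso.adj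
      (idOn_self (hsb.CS hsb.yC)) (idOn_self hyS)).2 h9)
    refine ⟨⟨M', S', C', y', β', f ∘ F⟩, ⟨hsb', hSS.trans h1, ?_, ?_, ?_, ?_, hββ.trans h2⟩, h1, h2,
      h3, h4,
      f, h5, h6, rfl, ?_⟩
    · exact ⟨hsb'.memK, bf_trans_id hMc.2 ((h3.2.mono hββ).subset (idOn_mono hSS))⟩
    · exact full_comp (f := F) (φ := f) hWM hWM' hF h5 hyy (h6 _ hyS) (h6 _ (hsb.CS hsb.yC))
    · intro x hx
      simp only [Function.comp_apply]
      rw [hFS x hx, h6 x (hSS hx)]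
    · exact hWM'.le_trans hyM' (hWM'.asymm h4)
    · intro ρ hρ1 hρ2
      obtain ⟨rfl, rfl, h9⟩ := hfin ρ hρ1 hρ2
      refine ⟨e', h7, (h9.comp h8).subset ?_⟩
      rintro _ (rfl | ⟨x, hx, rfl⟩)
      · exact ⟨e, mem_insert _ _, mem_insert _ _⟩
      · exact ⟨F x, mem_insert_of_mem _ ⟨x, hx, rfl⟩, mem_insert_of_mem _
          ⟨F x, List.mem_map.2 ⟨x, hx, rfl⟩, rfl⟩⟩
  obtain ⟨q, hq0, hq⟩ := dep_seq PP R _ hP0 hstep
  have hR := fun k => (hq k).2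
  choose hR1 hR2 hR3 hR4 f hR5 hR6 hR7 hR8 using hR
  have hF : ∀ j, (q j).F = itf f 0 j := by
    intro j
    induction j with
    | zero => rw [hq0]; rfl
    | succ j ih =>
      rw [hR7 j, ih]
      funext x
      simp only [Function.comp_apply, itf]
      rw [Nat.zero_add]
  have hT : Tower α l K P Q μ w0 Λ (fun k => (q k).M) (fun k => (q k).S) (fun k => (q k).C)
      (fun k => (q k).y) (fun k => (q k).β) f := by
    refine ⟨h, hlw, hμw, le_rfl, hwlt, fun k => (hq k).1.1, hR1, hR2, hR3, hR4, hR5, hR6, ?_, ?_⟩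
    · simp only [hq0]; exact hnf
    · intro γ hγ c hc e
      obtain ⟨j, hj⟩ := henum (some (⟨γ, hγ⟩, c, e))
      have h0 : (q 0).M = M₀ := by rw [hq0]
      have h0' : (q 0).y = y₀ := by rw [hq0]
      simp only [h0, h0'] at hc ⊢
      obtain ⟨e', h1, h2⟩ := hR8 j _ hj hc
      refine ⟨j + 1, e', h1, ?_⟩
      rw [← hF (j + 1)]
      exact h2
  exact hT.false

end Pool.Agent.Y560.TT
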