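import Pool.Agent.Y560.TT.Ord
import Pool.Agent.H533R2.VO.GENF
import Pool.Agent.H533R2.VO.LEV

set_option autoImplicit false

/-! Direct limits of pieces, and the equivalence of the limit with a structure. -/

namespace Pool.Agent.Y560.TT

open Set
open Pool.Agent.H899R2.VP
open Pool.Agent.H533R2.VO

variable {a : ℕ → ℕ}

/-- The graph of a pair of functions on a list. -/
def gr (g g' : ℕ → ℕ) (s : List ℕ) : Set (ℕ × ℕ) := {w | ∃ x ∈ s, w = (g x, g' x)}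

/-- The graph of a function on a set. -/
def gph (X : Set ℕ) (g : ℕ → ℕ) : Set (ℕ × ℕ) := {w | w.1 ∈ X ∧ w.2 = g w.1}

theorem mem_gr {g g' : ℕ → ℕ} {s : List ℕ} {x : ℕ} (h : x ∈ s) : (g x, g' x) ∈ gr g g' s :=
  ⟨x, h, rfl⟩

theorem gr_comp {g g' g'' : ℕ → ℕ} {s : List ℕ} : gr g g'' s ⊆ comp (gr g g' s) (gr g' g'' s) := by
  rintro _ ⟨x, hx, rfl⟩
  exact ⟨g' x, mem_gr hx, mem_gr hx⟩

theorem gr_inv {g g' : ℕ → ℕ} {s : List ℕ} : gr g' g s = inv (gr g g' s) := by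
  ext ⟨u, v⟩
  constructor
  · rintro ⟨x, hx, h⟩
    obtain ⟨rfl, rfl⟩ := Prod.mk.injEq _ _ _ _ ▸ h
    exact ⟨x, hx, rfl⟩
  · rintro ⟨x, hx, h⟩
    obtain ⟨rfl, rfl⟩ := Prod.mk.injEq _ _ _ _ ▸ h
    exact ⟨x, hx, rfl⟩

theorem gr_finite (g g' : ℕ → ℕ) (s : List ℕ) : (gr g g' s).Finite := by
  have : gr g g' s = (fun x => (g x, g' x)) '' {x | x ∈ s} := by
    ext w; constructor
    · rintro ⟨x, hx, rfl⟩; exact ⟨x, hx, rfl⟩
    · rintro ⟨x, hx, rfl⟩; exact ⟨x, hx, rfl⟩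
  rw [this]
  exact (List.finite_toSet s).image _

/-- A sequence of pieces with embeddings. -/
structure Sys (C : ℕ → St a) (Z : ℕ → Set ℕ) (f : ℕ → ℕ → ℕ) : Prop where
  maps : ∀ k, ∀ z ∈ Z k, f k z ∈ Z (k + 1)
  piso : ∀ k, PIso (C k) (C (k + 1)) (gph (Z k) (f k))

/-- Iterates of the embeddings. -/
def itf (f : ℕ → ℕ → ℕ) (j : ℕ) : ℕ → ℕ → ℕ
  | 0, z => z
  | n + 1, z => f (j + n) (itf f j n z)

/-- The maps of the limit. -/
def hh (f : ℕ → ℕ → ℕ) (k u : ℕ) : ℕ := itf f u.unpair.1 (k - u.unpair.1) u.unpair.2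

/-- The pieces of the limit. -/
def XX (Z : ℕ → Set ℕ) (f : ℕ → ℕ → ℕ) (k : ℕ) : Set ℕ :=
  {u | u.unpair.1 ≤ k ∧ u.unpair.2 ∈ Z u.unpair.1 ∧
    ∀ j, j + 1 = u.unpair.1 → ∀ z ∈ Z j, f j z ≠ u.unpair.2}

/-- The limit. -/
def TTT (C : ℕ → St a) (f : ℕ → ℕ → ℕ) : St a :=
  (fun u v => (C (max u.unpair.1 v.unpair.1)).1 (hh f (max u.unpair.1 v.unpair.1) u)
      (hh f (max u.unpair.1 v.unpair.1) v),
   fun i t => (C (Finset.univ.sup fun j => (t j).unpair.1)).2 i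
      (fun j => hh f (Finset.univ.sup fun j => (t j).unpair.1) (t j)))

variable {C : ℕ → St a} {Z : ℕ → Set ℕ} {f : ℕ → ℕ → ℕ}

theorem hh_succ {k u : ℕ} (h : u.unpair.1 ≤ k) : hh f (k + 1) u = f k (hh f k u) := by
  unfold hh
  have h1 : k + 1 - u.unpair.1 = (k - u.unpair.1) + 1 := by omega
  rw [h1, itf]
  congr 1
  omega

theorem XX_mono {k : ℕ} : XX Z f k ⊆ XX Z f (k + 1) := fun _ hu => ⟨hu.1.trans (by omega), hu.2⟩

theorem XX_monotone : Monotone (XX Z f) := monotone_nat_of_le_succ fun _ => XX_mono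

theorem hh_mem (h : Sys C Z f) {k u : ℕ} (hu : u ∈ XX Z f k) : hh f k u ∈ Z k := by
  induction k with
  | zero =>
    have h0 : u.unpair.1 = 0 := Nat.le_zero.1 hu.1
    have h1 := hu.2.1
    rw [h0] at h1
    unfold hh
    rw [h0]
    exact h1
  | succ k ih =>
    rcases Nat.lt_or_ge k u.unpair.1 with hk | hk
    · have h0 : u.unpair.1 = k + 1 := le_antisymm hu.1 hk
      have h1 := hu.2.1
      unfold hh
      rw [h0, Nat.sub_self]
      rw [h0] at h1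
      exact h1
    · rw [hh_succ hk]
      exact h.maps k _ (ih ⟨hk, hu.2⟩)

theorem f_inj (h : Sys C Z f) {k z z' : ℕ} (hz : z ∈ Z k) (hz' : z' ∈ Z k)
    (he : f k z = f k z') : z = z' :=
  (h.piso k).fst_eq (x' := f k z) (y' := f k z') ⟨hz, rfl⟩ ⟨hz', rfl⟩ he

theorem hh_inj (h : Sys C Z f) {k u v : ℕ} (hu : u ∈ XX Z f k) (hv : v ∈ XX Z f k)
    (he : hh f k u = hh f k v) : u = v := by
  have hpair : ∀ u v : ℕ, u.unpair.1 = v.unpair.1 → u.unpair.2 = v.unpair.2 → u = v := by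
    intro u v h1 h2
    rw [← Nat.pair_unpair u, ← Nat.pair_unpair v, h1, h2]
  induction k with
  | zero =>
    have h0 : u.unpair.1 = 0 := Nat.le_zero.1 hu.1
    have h0' : v.unpair.1 = 0 := Nat.le_zero.1 hv.1
    unfold hh at he
    rw [h0, h0'] at he
    exact hpair _ _ (h0.trans h0'.symm) he
  | succ k ih =>
    have hborn : ∀ u ∈ XX Z f (k + 1), k < u.unpair.1 → u.unpair.1 = k + 1 ∧
        hh f (k + 1) u = u.unpair.2 := by
      intro u hu hk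
      have h0 : u.unpair.1 = k + 1 := le_antisymm hu.1 hk
      refine ⟨h0, ?_⟩
      unfold hh
      rw [h0, Nat.sub_self]
      rfl
    rcases Nat.lt_or_ge k u.unpair.1 with hk | hk <;> rcases Nat.lt_or_ge k v.unpair.1 with hk' | hk'
    · obtain ⟨h1, h2⟩ := hborn u hu hk
      obtain ⟨h3, h4⟩ := hborn v hv hk'
      rw [h2, h4] at he
      exact hpair _ _ (h1.trans h3.symm) he
    · obtain ⟨h1, h2⟩ := hborn u hu hk
      rw [h2, hh_succ hk'] at he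
      exact absurd he.symm (hu.2.2 k h1.symm _ (hh_mem h ⟨hk', hv.2⟩))
    · obtain ⟨h1, h2⟩ := hborn v hv hk'
      rw [h2, hh_succ hk] at he
      exact absurd he (hv.2.2 k h1.symm _ (hh_mem h ⟨hk, hu.2⟩))
    · rw [hh_succ hk, hh_succ hk'] at he
      exact ih ⟨hk, hu.2⟩ ⟨hk', hv.2⟩
        (f_inj h (hh_mem h ⟨hk, hu.2⟩) (hh_mem h ⟨hk', hv.2⟩) he)

theorem hh_surj (h : Sys C Z f) {k z : ℕ} (hz : z ∈ Z k) : ∃ u ∈ XX Z f k, hh f k u = z := by
  induction k generalizing z with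
  | zero =>
    refine ⟨Nat.pair 0 z, ⟨by simp, by simpa using hz, fun j hj => ?_⟩, ?_⟩
    · simp at hj
    · unfold hh
      simp [itf]
  | succ k ih =>
    by_cases hex : ∃ z' ∈ Z k, f k z' = z
    · obtain ⟨z', hz', rfl⟩ := hex
      obtain ⟨u, hu, rfl⟩ := ih hz'
      exact ⟨u, XX_mono hu, hh_succ hu.1⟩
    · refine ⟨Nat.pair (k + 1) z, ⟨by simp, by simpa using hz, fun j hj z' hz' he => ?_⟩, ?_⟩
      · simp only [Nat.unpair_pair] at hj he
        have : j = k := by omega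
        subst this
        exact hex ⟨z', hz', he⟩
      · unfold hh
        simp [itf]

theorem hh_eq1 (h : Sys C Z f) {k u v : ℕ} (hu : u ∈ XX Z f k) (hv : v ∈ XX Z f k) :
    (TTT C f).1 u v = (C k).1 (hh f k u) (hh f k v) := by
  have key : ∀ k0, u ∈ XX Z f k0 → v ∈ XX Z f k0 → ∀ k, k0 ≤ k →
      (C k0).1 (hh f k0 u) (hh f k0 v) = (C k).1 (hh f k u) (hh f k v) := by
    intro k0 hu hv k hk
    induction k, hk using Nat.le_induction with
    | base => rfl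
    | succ k hk ih =>
      have hu' := XX_monotone (Z := Z) (f := f) hk hu
      have hv' := XX_monotone (Z := Z) (f := f) hk hv
      rw [ih, hh_succ hu'.1, hh_succ hv'.1]
      exact (h.piso k).2.1 (_, _) ⟨hh_mem h hu', rfl⟩ (_, _) ⟨hh_mem h hv', rfl⟩
  exact key _ ⟨le_max_left _ _, hu.2⟩ ⟨le_max_right _ _, hv.2⟩ k (max_le hu.1 hv.1)

theorem hh_eq2 (h : Sys C Z f) {k i : ℕ} {t : Fin (a i) → ℕ} (ht : ∀ j, t j ∈ XX Z f k) :
    (TTT C f).2 i t = (C k).2 i (fun j => hh f k (t j)) := by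
  have key : ∀ k0, (∀ j, t j ∈ XX Z f k0) → ∀ k, k0 ≤ k →
      (C k0).2 i (fun j => hh f k0 (t j)) = (C k).2 i (fun j => hh f k (t j)) := by
    intro k0 ht k hk
    induction k, hk using Nat.le_induction with
    | base => rfl
    | succ k hk ih =>
      have ht' : ∀ j, t j ∈ XX Z f k := fun j => XX_monotone hk (ht j)
      have e : (fun j => hh f (k + 1) (t j)) = fun j => f k (hh f k (t j)) :=
        funext fun j => hh_succ (ht' j).1
      rw [ih, e]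
      exact (h.piso k).2.2 i (fun j => (hh f k (t j), f k (hh f k (t j))))
        fun j => ⟨hh_mem h (ht' j), rfl⟩
  refine key _ (fun j => ⟨?_, (ht j).2⟩) k ?_
  · exact Finset.le_sup (f := fun j => (t j).unpair.1) (Finset.mem_univ j)
  · exact Finset.sup_le fun j _ => (ht j).1

theorem XX_full (h : Sys C Z f) (k : ℕ) :
    Full (TTT C f) (C k) (XX Z f k) (Z k) (gph (XX Z f k) (hh f k)) := by
  refine ⟨?_, ⟨?_, ?_, ?_⟩, fun x hx => ⟨hh f k x, hx, rfl⟩, fun y hy => ?_⟩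
  · rintro ⟨u, v⟩ ⟨h1, h2⟩
    simp only at h1 h2
    subst h2
    exact ⟨h1, hh_mem h h1⟩
  · rintro ⟨u, u'⟩ ⟨h1, h2⟩ ⟨v, v'⟩ ⟨h3, h4⟩
    simp only at h1 h2 h3 h4
    subst h2 h4
    exact ⟨fun e => by simp only at e; subst e; rfl, fun e => hh_inj h h1 h3 e⟩
  · rintro ⟨u, u'⟩ ⟨h1, h2⟩ ⟨v, v'⟩ ⟨h3, h4⟩
    simp only at h1 h2 h3 h4
    subst h2 h4
    exact hh_eq1 h h1 h3
  · intro i t ht
    have e : (fun j => (t j).2) = fun j => hh f k ((t j).1) := funext fun j => (ht j).2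
    rw [e]
    exact hh_eq2 h fun j => (ht j).1
  · obtain ⟨u, hu, rfl⟩ := hh_surj h hy
    exact ⟨u, hu, rfl⟩

/-- Realisations of the pieces of a system in structures. -/
structure Real (C : ℕ → St a) (Z : ℕ → Set ℕ) (f : ℕ → ℕ → ℕ) (B : Ordinal.{0})
    (R : ℕ → Ordinal.{0} → St a → (ℕ → ℕ) → Prop) : Prop where
  ne : ∀ k β, β < B → ∃ N φ, R k β N φ
  mono : ∀ k β β' N φ, β' ≤ β → R k β N φ → R k β' N φ
  piso : ∀ k β N φ, R k β N φ → PIso (C k) N (gph (Z k) φ)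
  eqv : ∀ k β N φ N' φ', β < B → R k β N φ → R k β N' φ' → ∀ s : List ℕ, (∀ z ∈ s, z ∈ Z k) →
    BF N N' univ univ β (gr φ φ' s)
  res : ∀ k β N φ, R (k + 1) β N φ → R k β N (φ ∘ f k)
  fair : ∀ k β N φ, β < B → R k β N φ → ∀ γ < β, ∀ s : List ℕ, (∀ z ∈ s, z ∈ XX Z f k) → ∀ d,
    ∃ k' N' φ', k ≤ k' ∧ R k' β N' φ' ∧ ∃ z ∈ Z k',
      BF N N' univ univ γ (insert (d, φ' z) (gr (φ ∘ hh f k) (φ' ∘ hh f k') s))

theorem Real.res' {B : Ordinal.{0}} {R : ℕ → Ordinal.{0} → St a → (ℕ → ℕ) → Prop}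
    (hR : Real C Z f B R) {k k' : ℕ} (hk : k ≤ k') {β : Ordinal.{0}} {N : St a} {φ : ℕ → ℕ}
    (h : R k' β N φ) : ∃ φ'', R k β N φ'' ∧ ∀ u ∈ XX Z f k, φ'' (hh f k u) = φ (hh f k' u) := by
  induction k', hk using Nat.le_induction generalizing φ with
  | base => exact ⟨φ, h, fun _ _ => rfl⟩
  | succ k' hk ih =>
    obtain ⟨φ'', h1, h2⟩ := ih (hR.res _ _ _ _ h)
    refine ⟨φ'', h1, fun u hu => ?_⟩
    rw [h2 u hu, hh_succ (hu.1.trans hk)]
    rfl

/-- The limit is equivalent to all realisations. -/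
theorem limit_bf (hS : Sys C Z f) {B : Ordinal.{0}}
    {R : ℕ → Ordinal.{0} → St a → (ℕ → ℕ) → Prop} (hR : Real C Z f B R) {β : Ordinal.{0}}
    (hβ : β < B) {k : ℕ} {N : St a} {φ : ℕ → ℕ} (h : R k β N φ) (s : List ℕ)
    (hs : ∀ z ∈ s, z ∈ XX Z f k) :
    BF (TTT C f) N (⋃ k, XX Z f k) univ β (gr id (φ ∘ hh f k) s) := by
  induction β using WellFoundedLT.induction generalizing k N φ s with
  | ind β ih =>
    rw [BF_iff]
    refine ⟨?_, fun γ hγ => ⟨fun d hd => ?_, fun d _ => ?_⟩⟩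
    · refine ((XX_full hS k).piso.comp (hR.piso _ _ _ _ h)).mono ?_
      rintro _ ⟨x, hx, rfl⟩
      exact ⟨hh f k x, ⟨hs x hx, rfl⟩, ⟨hh_mem hS (hs x hx), rfl⟩⟩
    · obtain ⟨k0, hk0⟩ := mem_iUnion.1 hd
      have hkk : k ≤ max k k0 := le_max_left _ _
      have hd' : d ∈ XX Z f (max k k0) := XX_monotone (le_max_right k k0) hk0
      obtain ⟨N', φ', h1⟩ := hR.ne (max k k0) β hβ
      obtain ⟨φ'', h2, h3⟩ := hR.res' hkk h1
      have h4 := hR.eqv k β N' φ'' N φ hβ h2 h (s.map (hh f k)) (by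
        intro z hz
        obtain ⟨x, hx, rfl⟩ := List.mem_map.1 hz
        exact hh_mem hS (hs x hx))
      obtain ⟨d', -, h5⟩ := h4.forth hγ (mem_univ (φ' (hh f (max k k0) d)))
      have h6 := ih γ hγ (hγ.trans hβ) (hR.mono _ _ γ _ _ hγ.le h1) (d :: s) (by
        intro z hz
        rcases List.mem_cons.1 hz with rfl | hz
        · exact hd'
        · exact XX_monotone hkk (hs z hz))
      refine ⟨d', mem_univ _, (h6.comp h5).subset ?_⟩
      rintro _ (rfl | ⟨x, hx, rfl⟩)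
      · exact ⟨_, ⟨d, by simp, rfl⟩, mem_insert _ _⟩
      · refine ⟨φ' (hh f (max k k0) x), ⟨x, by simp [hx], rfl⟩, mem_insert_of_mem _
          ⟨hh f k x, List.mem_map.2 ⟨x, hx, rfl⟩, ?_⟩⟩
        rw [h3 x (hs x hx)]
        rfl
    · obtain ⟨k', N', φ', hkk, h1, z, hz, h2⟩ := hR.fair k β N φ hβ h γ hγ s hs d
      obtain ⟨u, hu, rfl⟩ := hh_surj hS hz
      have h6 := ih γ hγ (hγ.trans hβ) (hR.mono _ _ γ _ _ hγ.le h1) (u :: s) (by
        intro z hz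
        rcases List.mem_cons.1 hz with rfl | hz
        · exact hu
        · exact XX_monotone hkk (hs z hz))
      refine ⟨u, mem_iUnion.2 ⟨k', hu⟩, (h6.comp h2.symm).subset ?_⟩
      rintro _ (rfl | ⟨x, hx, rfl⟩)
      · exact ⟨_, ⟨u, by simp, rfl⟩, mem_insert _ _⟩
      · exact ⟨φ' (hh f k' x), ⟨x, by simp [hx], rfl⟩, mem_insert_of_mem _ ⟨x, hx, rfl⟩⟩

/-- A countable piece has a countable Scott level. -/
theorem piece_level (T : St a) (X : Set ℕ) : ∃ ρ : Ordinal.{0}, ρ < Ordinal.omega 1 ∧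
    ∀ N : St a, BF T N X univ ρ ∅ → IsoOn T N X univ ∅ := by
  obtain ⟨S, hS, hf⟩ := t_GENF a fun _ => (T, X)
  obtain ⟨l, hl, -, hlev⟩ := t_LEV a S hS
  exact ⟨l, hl, fun N hb => hlev T X N univ ∅ (hf 0) finite_empty (empty_subset _) hb⟩

end Pool.Agent.Y560.TT
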