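import Pool.Agent.Y560.TT.Meas
import Pool.Agent.Y560.TT.CaseB

set_option autoImplicit false

/-! Cuts of a dyadic far chain; two of them are isomorphic. -/

namespace Pool.Agent.Y560.TT

open Set MeasureTheory
open Pool.Agent.H899R2.VP
open Pool.Agent.H533R2.VO

variable {a : ℕ → ℕ}

/-- Numerators. -/
def num (σ : ℕ → Bool) : ℕ → ℕ
  | 0 => 0
  | k + 1 => 4 * num σ k + 2 * (σ k).toNat + 1

theorem num_lt (σ : ℕ → Bool) (k : ℕ) : num σ k < 2 ^ (2 * k) := by
  induction k with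
  | zero => simp [num]
  | succ k ih =>
    have h1 : 2 ^ (2 * (k + 1)) = 4 * 2 ^ (2 * k) := by
      rw [mul_add, pow_add]; ring
    have h2 : (σ k).toNat ≤ 1 := Bool.toNat_le _
    rw [h1, num]
    omega

theorem num_eq {σ σ' : ℕ → Bool} {k : ℕ} (h : ∀ i < k, σ i = σ' i) : num σ k = num σ' k := by
  induction k with
  | zero => rfl
  | succ k ih => rw [num, num, ih fun i hi => h i (by omega), h k (by omega)]

/-- The points. -/
def pt (P : ℕ → ℕ → ℕ) (σ : ℕ → Bool) (k : ℕ) : ℕ := P (2 * k) (num σ k)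

/-- The cut. -/
def DD (M : St a) (P : ℕ → ℕ → ℕ) (σ : ℕ → Bool) : Set ℕ := {x | ∃ k, x ∈ Le M (pt P σ k)}

section
variable {R : ℕ → ℕ → Prop} {P : ℕ → ℕ → ℕ} (htr : ∀ x y z, R x y → R y z → R x z)
  (h : ∀ m i, P (m + 1) (2 * i) = P m i)
  (hR : ∀ m i, i < 2 ^ m → R (P m i) (P m (i + 1)))

include htr h hR

theorem pt_step (σ : ℕ → Bool) (k : ℕ) : R (pt P σ k) (pt P σ (k + 1)) := by
  refine dya_lt htr h hR _ _ _ _ ?_ (num_lt σ (k + 1)).le
  have h1 : 2 ^ (2 * (k + 1)) = 4 * 2 ^ (2 * k) := by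
    rw [mul_add, pow_add]; ring
  rw [h1, num]
  have h2 : 0 < 2 ^ (2 * k) := by positivity
  nlinarith

theorem pt_lt (σ : ℕ → Bool) {j k : ℕ} (hjk : j < k) : R (pt P σ j) (pt P σ k) := by
  induction k, hjk using Nat.le_induction with
  | base => exact pt_step htr h hR σ j
  | succ k hjk ih => exact htr _ _ _ ih (pt_step htr h hR σ k)

theorem pt_sep {σ σ' : ℕ → Bool} {j : ℕ} (heq : ∀ i < j, σ i = σ' i) (h0 : σ j = false)
    (h1 : σ' j = true) {k : ℕ} (hk : j + 1 ≤ k) : R (pt P σ k) (pt P σ' (j + 1)) := by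
  refine dya_lt htr h hR _ _ _ _ ?_ (num_lt σ' (j + 1)).le
  have e1 : num σ' (j + 1) = 4 * num σ j + 3 := by
    rw [num, h1, num_eq heq]; simp
  have key : num σ k < (4 * num σ j + 2) * 2 ^ (2 * (k - (j + 1))) := by
    induction k, hk using Nat.le_induction with
    | base => rw [num, h0]; simp
    | succ k hk ih =>
      have e2 : k + 1 - (j + 1) = (k - (j + 1)) + 1 := by omega
      have e3 : 2 ^ (2 * ((k - (j + 1)) + 1)) = 4 * 2 ^ (2 * (k - (j + 1))) := by
        rw [mul_add, pow_add]; ring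
      have h2 : (σ k).toNat ≤ 1 := Bool.toNat_le _
      rw [e2, e3, num]
      generalize 2 ^ (2 * (k - (j + 1))) = A at *
      have h3 : num σ k + 1 ≤ (4 * num σ j + 2) * A := ih
      have h4 : 4 * (num σ k + 1) ≤ 4 * ((4 * num σ j + 2) * A) := by omega
      have h5 : (4 * num σ j + 2) * (4 * A) = 4 * ((4 * num σ j + 2) * A) := by ring
      omega
  rw [e1]
  have e4 : 2 ^ (2 * k) = 2 ^ (2 * (k - (j + 1))) * 2 ^ (2 * (j + 1)) := by
    rw [← pow_add]; congr 1; omega
  rw [e4]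
  have h6 : 0 < 2 ^ (2 * (j + 1)) := by positivity
  have h7 : 0 < 2 ^ (2 * (k - (j + 1))) := by positivity
  generalize 2 ^ (2 * (k - (j + 1))) = A at *
  generalize 2 ^ (2 * (j + 1)) = B at *
  calc num σ k * B < ((4 * num σ j + 2) * A) * B := Nat.mul_lt_mul_of_pos_right key h6
    _ ≤ ((4 * num σ j + 3) * A) * B := by
        apply Nat.mul_le_mul_right; apply Nat.mul_le_mul_right; omega
    _ = (4 * num σ j + 3) * (A * B) := by ring

end

variable {α l : Ordinal.{0}} {K : Set (St a)}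

/-- Enumeration of the cut. -/
noncomputable def ee (M : St a) (P : ℕ → ℕ → ℕ) (σ : ℕ → Bool) : ℕ → ℕ :=
  Nat.nth (· ∈ DD M P σ)

/-- The structure on the cut. -/
noncomputable def NN (M : St a) (P : ℕ → ℕ → ℕ) (σ : ℕ → Bool) : St a :=
  (fun x y => M.1 (ee M P σ x) (ee M P σ y), fun i t => M.2 i (fun j => ee M P σ (t j)))

theorem meas_D (M : St a) (P : ℕ → ℕ → ℕ) (x : ℕ) :
    MeasurableSet {σ : ℕ → Bool | x ∈ DD M P σ} := by
  have h1 : ∀ k, Measurable fun σ : ℕ → Bool => num σ k := by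
    intro k
    induction k with
    | zero => exact measurable_const
    | succ k ih =>
      have h2 : Measurable fun σ : ℕ → Bool => (num σ k, σ k) :=
        ih.prodMk (measurable_pi_apply k)
      exact (measurable_of_countable
        (fun w : ℕ × Bool => 4 * w.1 + 2 * w.2.toNat + 1)).comp h2
  have h2 : {σ : ℕ → Bool | x ∈ DD M P σ} =
      ⋃ k, (fun σ : ℕ → Bool => num σ k) ⁻¹' {n | x ∈ Le M (P (2 * k) n)} := by
    ext σ
    simp only [DD, pt, mem_ofPred_eq, mem_iUnion, mem_preimage]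
  rw [h2]
  exact MeasurableSet.iUnion fun k => h1 k (MeasurableSet.of_discrete)

theorem meas_e (M : St a) (P : ℕ → ℕ → ℕ) (hinf : ∀ σ, (DD M P σ).Infinite) (k : ℕ) :
    Measurable fun σ : ℕ → Bool => ee M P σ k := by
  classical
  have h1 : ∀ n, Measurable fun σ : ℕ → Bool => Nat.count (· ∈ DD M P σ) n := by
    intro n
    induction n with
    | zero => simp
    | succ n ih =>
      have e : (fun σ : ℕ → Bool => Nat.count (· ∈ DD M P σ) (n + 1)) =
          fun σ => Nat.count (· ∈ DD M P σ) n + if n ∈ DD M P σ then 1 else 0 := by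
        funext σ; rw [Nat.count_succ]
      rw [e]
      exact ih.add (Measurable.ite (meas_D M P n) measurable_const measurable_const)
  apply measurable_to_countable'
  intro n
  have h2 : (fun σ : ℕ → Bool => ee M P σ k) ⁻¹' {n} =
      {σ | n ∈ DD M P σ} ∩ (fun σ : ℕ → Bool => Nat.count (· ∈ DD M P σ) n) ⁻¹' {k} := by
    ext σ
    simp only [mem_preimage, mem_singleton_iff, mem_inter_iff, mem_ofPred_eq, ee]
    constructor
    · rintro rfl
      exact ⟨Nat.nth_mem_of_infinite (hinf σ) k, Nat.count_nth_of_infinite (hinf σ) k⟩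
    · rintro ⟨h3, rfl⟩
      exact Nat.nth_count h3
  rw [h2]
  exact (meas_D M P n).inter (h1 n (measurableSet_singleton k))

theorem meas_N (M : St a) (P : ℕ → ℕ → ℕ) (hinf : ∀ σ, (DD M P σ).Infinite) :
    Measurable (NN M P) := by
  refine Measurable.prodMk ?_ ?_
  · refine measurable_pi_lambda _ fun x => measurable_pi_lambda _ fun y => ?_
    exact (measurable_of_countable (fun w : ℕ × ℕ => M.1 w.1 w.2)).comp
      ((meas_e M P hinf x).prodMk (meas_e M P hinf y))
  · refine measurable_pi_lambda _ fun i => measurable_pi_lambda _ fun t => ?_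
    exact (measurable_of_countable (fun w : Fin (a i) → ℕ => M.2 i w)).comp
      (measurable_pi_lambda _ fun j => meas_e M P hinf (t j))

theorem iso_N (M : St a) (P : ℕ → ℕ → ℕ) (hinf : ∀ σ, (DD M P σ).Infinite) (σ : ℕ → Bool) :
    IsoOn (NN M P σ) M univ (DD M P σ) ∅ := by
  refine ⟨{w | w.2 = ee M P σ w.1}, empty_subset _, ?_, ⟨?_, ?_, ?_⟩,
    fun x _ => ⟨ee M P σ x, rfl⟩, ?_⟩
  · rintro ⟨u, v⟩ h
    simp only [mem_ofPred_eq] at h
    subst h
    exact ⟨mem_univ _, Nat.nth_mem_of_infinite (hinf σ) u⟩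
  · rintro ⟨u, u'⟩ h1 ⟨v, v'⟩ h2
    simp only [mem_ofPred_eq] at h1 h2
    subst h1 h2
    exact ⟨fun e => congrArg (ee M P σ) e, fun e => Nat.nth_injective (hinf σ) e⟩
  · rintro ⟨u, u'⟩ h1 ⟨v, v'⟩ h2
    simp only [mem_ofPred_eq] at h1 h2
    subst h1 h2
    rfl
  · intro i t ht
    have e : (fun k => (t k).2) = fun k => ee M P σ (t k).1 := funext fun k => ht k
    rw [e]
    rfl
  · intro y hy
    have := Nat.range_nth_of_infinite (hinf σ)
    rw [Set.ext_iff] at this
    obtain ⟨x, hx⟩ := (this y).2 hy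
    exact ⟨x, hx.symm⟩

/-- Two cuts are isomorphic. -/
theorem cuts_iso (hK : GK α K) {M : St a} (P : ℕ → ℕ → ℕ) (hinf : ∀ σ, (DD M P σ).Infinite)
    (hbf : ∀ σ, BF M M (DD M P σ) univ α ∅) (hM : M ∈ K) :
    ∃ σ σ' : ℕ → Bool, σ ≠ σ' ∧ IsoOn M M (DD M P σ) (DD M P σ') ∅ := by
  by_contra hcon
  push Not at hcon
  have hNK : ∀ σ, NN M P σ ∈ K := fun σ =>
    hK.closed M hM _ (bf_comp0 (bf_symm0 (hbf σ)) (iso_symm0 (iso_N M P hinf σ) |>.bf α))
  have hunc : ¬ (⋃ _i : Unit, Set.range (fun σ : ℕ → Bool => σ)).Countable := by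
    intro hc
    have h1 : (univ : Set (ℕ → Bool)).Countable := by
      refine hc.mono fun σ _ => ?_
      simp
    exact not_countable_cantor (Set.countable_univ_iff.1 h1)
  obtain ⟨h, hcont, hh⟩ := Pool.Agent.H565R2.FO2.perfect_of_uncountable (Y := ℕ → Bool)
    (X := St a) (NN M P) (meas_N M P hinf) (Z := ℕ → Bool) (ι := Unit) (fun _ σ => σ)
    (fun _ => measurable_id) (fun σ σ' => IsoOn (NN M P σ) (NN M P σ') univ univ ∅)
    (fun σ σ' hE _ => Exists.intro () (by
      by_contra hne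
      exact hcon σ σ' hne (iso_trans0 (iso_symm0 (iso_N M P hinf σ))
        (iso_trans0 hE (iso_N M P hinf σ'))))) hunc
  refine hK.few ⟨fun c => NN M P (h c), hcont, fun c => hNK _, fun c d hcd => ?_⟩
  by_contra hne
  exact hh c d hne hcd

end Pool.Agent.Y560.TT
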