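import Pool.Agent.Y560.TT.Over
import Pool.Agent.H533R2.VO.FINAL

set_option autoImplicit false

/-! Vaught's conjecture for structures with a Borel preorder whose initial segments have
countable automorphism groups. -/

namespace Pool.Agent.Y560.TT

open Set MeasureTheory
open Pool.Agent.H899R2.VP hiding RS
open Pool.Agent.H533R2.VO

variable {a : ℕ → ℕ}

theorem not_nr {β : Ordinal.{0}} {M : St a} {y : ℕ} (h : ¬ NR β M y) :
    ∃ C, C.Finite ∧ C ⊆ Le M y ∧ RigL β M (Le M y) C := by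
  unfold NR at h
  push Not at h
  obtain ⟨C, h1, h2, h3⟩ := h
  exact ⟨C, h1, h2, h3⟩

theorem thin_of_autos {K : Set (St a)} (hKm : MeasurableSet K)
    (hinv : ∀ M ∈ K, ∀ N : St a, IsoOn M N univ univ ∅ → N ∈ K)
    (few : ¬ ∃ g : (ℕ → Bool) → St a, Continuous g ∧ (∀ c, g c ∈ K) ∧
      ∀ c d, IsoOn (g c) (g d) univ univ ∅ → c = d)
    (hwo : ∀ M ∈ K, WO M)
    (hc : ∀ M ∈ K, ∀ y, {q | Full M M (Le M y) (Le M y) q}.Countable) : Thin K := by
  classical
  -- the rigidity level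
  obtain ⟨β, hβ, hrig⟩ : ∃ β < Ordinal.omega 1, ∀ M ∈ K, ∀ y, ¬ NR β M y := by
    by_contra hcon
    push Not at hcon
    obtain ⟨M, hM, y, G, hG, hGF⟩ := overspill hKm hcon
    have h1 := hc M hM y
    have h2 : Countable (ℕ → Bool) := by
      have : Countable {q | Full M M (Le M y) (Le M y) q} := h1.to_subtype
      exact Function.Injective.countable (f := fun b : ℕ → Bool =>
        (⟨G b, hGF b⟩ : {q | Full M M (Le M y) (Le M y) q})) fun b b' h =>
          hG (congrArg Subtype.val h)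
    exact not_countable_cantor h2
  obtain ⟨α₀, hα₀, hcl⟩ := closed_rank hKm hinv
  set α : Ordinal.{0} := max α₀ 2 with hα
  have hαlt : α < Ordinal.omega 1 := max_lt hα₀ (by
    have := add_nat_lt (Ordinal.omega_pos 1) 2
    simpa using this)
  set K₁ : Set (St a) := {M | M ∈ K ∧ ∀ x, ∃ y, Adj M x y} with hK₁
  have hK₁m : MeasurableSet K₁ := by
    have : K₁ = K ∩ ⋂ x : ℕ, ⋃ y : ℕ, {M : St a | Adj M x y} := by
      ext M; simp [hK₁]
    rw [this]
    exact hKm.inter (MeasurableSet.iInter fun x => MeasurableSet.iUnion fun y => meas_adj x y)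
  have hGK : GK α K₁ := by
    refine ⟨hK₁m, hαlt, ?_, ?_⟩
    · rintro M ⟨hM, hn⟩ N hb
      refine ⟨hcl M hM N (hb.mono (le_max_left _ _)), fun x' => ?_⟩
      have hb2 : BF M N univ univ (1 + 1) ∅ := hb.mono (by
        rw [one_add_one_eq_two]; exact le_max_right _ _)
      obtain ⟨x, -, h1⟩ := hb2.back (lt_add_one 1) (mem_univ x')
      obtain ⟨y, hy⟩ := hn x
      obtain ⟨y', -, h2⟩ := h1.forth zero_lt_one (mem_univ y)
      exact ⟨y', (h2.piso.adj (mem_insert_of_mem _ (mem_insert _ _)) (mem_insert _ _)).1 hy⟩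
    · rintro ⟨g, hg1, hg2, hg3⟩
      exact few ⟨g, hg1, fun c => (hg2 c).1, hg3⟩
  have hT₁ : Thin K₁ := (th_of_rig hGK hβ (fun M hM => hwo M hM.1) (fun M hM => hM.2)
    (fun M hM y => not_nr (hrig M hM.1 y))).thin
  -- the structures with a last block
  have hlev : ∀ (M : St a) (y : ℕ) (N : St a) (Y : Set ℕ) (p : Set (ℕ × ℕ)), M ∈ K →
      p ⊆ Le M y ×ˢ Y → BF M N (Le M y) Y (β + Ordinal.omega0 + Ordinal.omega0) p →
      IsoOn M N (Le M y) Y p := by
    intro M y N Y p hM hpX hb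
    obtain ⟨C, hC1, hC2, hC3⟩ := not_nr (hrig M hM y)
    obtain ⟨s, rfl⟩ := exists_list hC1
    obtain ⟨t, ht, htY, h1⟩ := (hb.mono (add_nat_le_add_omega _ s.length)).forth_list s le_rfl
      (fun x hx => hC2 hx)
    refine (rig_iso hC3 (fun c hc => ?_) ?_ h1).mono subset_union_left
    · obtain ⟨c', hc'⟩ := exists_zipSet_left ht.symm hc
      exact ⟨c', Or.inr hc'⟩
    · rintro ⟨u, v⟩ (hu | hu)
      · exact hpX hu
      · exact ⟨hC2 (mem_zipSet_left hu), htY v (mem_zipSet_right hu)⟩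
  have hT₂ : Thin {M | M ∈ K ∧ ∃ x, ∀ y, ¬ Adj M x y} := by
    obtain ⟨c, hcl⟩ := labels hKm few _ (add_omega_lt (add_omega_lt hβ))
    let f : ℕ → St a := fun k => if h : ∃ R : St a × ℕ, R.1 ∈ K ∧ (∀ y, ¬ Adj R.1 R.2 y) ∧
      c R.1 [R.2] = k then h.choose.1 else (fun _ _ => false, fun _ _ => false)
    refine ⟨f, ?_⟩
    rintro N ⟨hN, x, hx⟩
    refine ⟨c N [x], ?_⟩
    have hex : ∃ R : St a × ℕ, R.1 ∈ K ∧ (∀ y, ¬ Adj R.1 R.2 y) ∧ c R.1 [R.2] = c N [x] :=
      ⟨(N, x), hN, hx, rfl⟩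
    have hf : f (c N [x]) = hex.choose.1 := dif_pos hex
    rw [hf]
    obtain ⟨h1, h2, h3⟩ := hex.choose_spec
    set R := hex.choose
    have h4 := hcl R.1 h1 N hN [R.2] [x] rfl h3
    have h5 : (R.2, x) ∈ zipSet [R.2] [x] := by simp [zipSet]
    have e1 : Le R.1 R.2 = univ := by
      ext y; simp only [mem_univ, iff_true]; exact h2 y
    have e2 : Le N x = univ := by
      ext y; simp only [mem_univ, iff_true]; exact hx y
    have h6 := hlev R.1 R.2 N (Le N x) ∅ h1 (empty_subset _)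
      ((bf_Le h5 h4).subset (empty_subset _))
    rwa [e1, e2] at h6
  refine (thin_union hT₁ hT₂).mono fun M hM => ?_
  by_cases h : ∀ x, ∃ y, Adj M x y
  · exact Or.inl ⟨hM, h⟩
  · push Not at h
    exact Or.inr ⟨hM, h⟩

/-- A Borel assignment of total preorders. -/
structure Pre (B : Set (RS a)) (D : RS a → ℕ → ℕ → Prop) : Prop where
  borel : ∀ m n, MeasurableSet {x | x ∈ B ∧ D x m n}
  equi : ∀ x ∈ B, ∀ (y : RS a) (σ : Equiv.Perm ℕ),
    (∀ (i : ℕ) (v : Fin (a i) → ℕ), y i (⇑σ ∘ v) = x i v) →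
    ∀ m n, D x m n ↔ D y (σ m) (σ n)
  total : ∀ x ∈ B, ∀ m n, D x m n ∨ D x n m
  trans : ∀ x ∈ B, ∀ k m n, D x k m → D x m n → D x k n

/-- The automorphisms of an initial segment. -/
def SegAut (D : RS a → ℕ → ℕ → Prop) (x : RS a) (m : ℕ) : Set (Equiv.Perm {n // D x n m}) :=
  {σ | (∀ (i : ℕ) (v : Fin (a i) → {n // D x n m}),
      x i (fun k => (σ (v k) : ℕ)) = x i fun k => (v k : ℕ)) ∧
    ∀ p q, D x (σ p) (σ q) ↔ D x p q}

theorem tower_rel (a : ℕ → ℕ) (B : Set (RS a)) (hBm : MeasurableSet B)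
    (hBi : ∀ x y : RS a, RIso x y → (x ∈ B ↔ y ∈ B)) (D : RS a → ℕ → ℕ → Prop)
    (hD : Pre B D) (hc : ∀ x ∈ B, ∀ m, (SegAut D x m).Countable) : Dich B := by
  classical
  by_cases hg : ∃ g : (ℕ → Bool) → RS a, Continuous g ∧ (∀ c, g c ∈ B) ∧ ∀ c d : ℕ → Bool,
    RIso (g c) (g d) → c = d
  · exact Or.inr hg
  left
  let enc : RS a → St a := fun x => (fun n m => decide (D x n m ∧ ¬ D x m n), x)
  have hadj : ∀ x n m, Adj (enc x) n m ↔ D x n m ∧ ¬ D x m n := by
    intro x n m; simp [Adj, enc]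
  set K : Set (St a) := {M | M.2 ∈ B ∧ M = enc M.2} with hK
  have hKm : MeasurableSet K := by
    have h1 : K = {M | M.2 ∈ B} ∩ {M | ∀ n m, M.1 n m = true ↔
        (M.2 ∈ B ∧ D M.2 n m) ∧ ¬ (M.2 ∈ B ∧ D M.2 m n)} := by
      ext M
      constructor
      · rintro ⟨h1, h2⟩
        refine ⟨h1, fun n m => ?_⟩
        have h3 := hadj M.2 n m
        rw [← h2] at h3
        unfold Adj at h3
        rw [h3]
        simp [h1]
      · rintro ⟨h1, h2⟩
        have h1' : M.2 ∈ B := h1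
        refine ⟨h1', Prod.ext ?_ rfl⟩
        funext n m
        have h3 := h2 n m
        rw [Bool.eq_iff_iff, h3]
        have h4 := hadj M.2 n m
        unfold Adj at h4
        rw [h4]
        simp [h1']
    rw [h1]
    refine (measurable_snd hBm).inter ?_
    apply measurableSet_setOfPred.2
    refine Measurable.forall fun n => Measurable.forall fun m => ?_
    refine Measurable.iff ?_ (Measurable.and ?_ (Measurable.not ?_))
    · apply measurableSet_setOfPred.1
      exact meas_adj n m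
    · apply measurableSet_setOfPred.1
      exact measurable_snd (hD.borel n m)
    · apply measurableSet_setOfPred.1
      exact measurable_snd (hD.borel m n)
  have hKinv : ∀ M ∈ K, ∀ N : St a, IsoOn M N univ univ ∅ → N ∈ K := by
    rintro M ⟨hM1, hM2⟩ N hMN
    obtain ⟨σ, h1, h2⟩ := final_perm_of_iso hMN
    have hN : N.2 ∈ B := (hBi _ _ ⟨σ, h2⟩).1 hM1
    refine ⟨hN, Prod.ext ?_ rfl⟩
    funext n m
    have h3 := h1 (σ.symm n) (σ.symm m)
    simp only [Equiv.apply_symm_apply] at h3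
    rw [h3, Bool.eq_iff_iff]
    have h4 := hadj M.2 (σ.symm n) (σ.symm m)
    rw [← hM2] at h4
    unfold Adj at h4
    rw [h4]
    have h5 := hadj N.2 n m
    unfold Adj at h5
    rw [h5]
    have h6 := hD.equi M.2 hM1 N.2 σ h2 (σ.symm n) (σ.symm m)
    have h7 := hD.equi M.2 hM1 N.2 σ h2 (σ.symm m) (σ.symm n)
    simp only [Equiv.apply_symm_apply] at h6 h7
    rw [h6, h7]
  have hfew : ¬ ∃ g : (ℕ → Bool) → St a, Continuous g ∧ (∀ c, g c ∈ K) ∧
      ∀ c d, IsoOn (g c) (g d) univ univ ∅ → c = d := by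
    rintro ⟨g, hg1, hg2, hg3⟩
    refine hg ⟨fun c => (g c).2, continuous_snd.comp hg1, fun c => (hg2 c).1, ?_⟩
    rintro c d ⟨σ, hσ⟩
    refine hg3 c d (final_iso_of_perm σ (fun n m => ?_) hσ)
    have h4 := hadj (g c).2 n m
    rw [← (hg2 c).2] at h4
    have h5 := hadj (g d).2 (σ n) (σ m)
    rw [← (hg2 d).2] at h5
    unfold Adj at h4 h5
    rw [Bool.eq_iff_iff, h4, h5, ← hD.equi _ (hg2 c).1 _ σ hσ n m,
      ← hD.equi _ (hg2 c).1 _ σ hσ m n]
  have hwo : ∀ M ∈ K, WO M := by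
    rintro M ⟨hM1, hM2⟩
    have h1 : ∀ n m, Adj M n m ↔ D M.2 n m ∧ ¬ D M.2 m n := by
      intro n m
      have := hadj M.2 n m
      rwa [← hM2] at this
    refine ⟨fun x h => ?_, fun x y z h h' => ?_, fun x y z h => ?_⟩
    · rw [h1] at h; exact h.2 h.1
    · rw [h1] at h h' ⊢
      exact ⟨hD.trans _ hM1 _ _ _ h.1 h'.1, fun h2 => h.2 (hD.trans _ hM1 _ _ _ h'.1 h2)⟩
    · rw [h1] at h ⊢
      rw [h1]
      by_contra hcon
      push Not at hcon
      rcases hD.total _ hM1 x y with h2 | h2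
      · have h3 := hcon.1 h2
        rcases hD.total _ hM1 y z with h4 | h4
        · exact h.2 (hD.trans _ hM1 _ _ _ (hcon.2 h4) h3)
        · exact h.2 (hD.trans _ hM1 _ _ _ h4 h3)
      · rcases hD.total _ hM1 y z with h4 | h4
        · have h5 := hcon.2 h4
          by_cases h6 : D M.2 x y
          · exact h.2 (hD.trans _ hM1 _ _ _ h5 (hcon.1 h6))
          · exact h6 (hD.trans _ hM1 _ _ _ h.1 h5)
        · by_cases h6 : D M.2 x y
          · exact h.2 (hD.trans _ hM1 _ _ _ h4 (hcon.1 h6))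
          · exact h6 (hD.trans _ hM1 _ _ _ h.1 h4)
  have hLe : ∀ M ∈ K, ∀ m, Le M m = {n | D M.2 n m} := by
    rintro M ⟨hM1, hM2⟩ m
    ext n
    have h1 := hadj M.2 m n
    rw [← hM2] at h1
    simp only [mem_Le, mem_ofPred_eq, h1]
    constructor
    · intro h2
      push Not at h2
      rcases hD.total _ hM1 m n with h3 | h3
      · exact h2 h3
      · exact h3
    · intro h2 h3
      exact h3.2 h2
  have hT : Thin K := by
    refine thin_of_autos hKm hKinv hfew hwo fun M hM m => ?_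
    have hcM := hc M.2 hM.1 m
    have : Countable (SegAut D M.2 m) := hcM.to_subtype
    -- the permutation of a full isomorphism
    have hperm : ∀ q, Full M M (Le M m) (Le M m) q → ∃ σ ∈ SegAut D M.2 m,
        ∀ p : {n // D M.2 n m}, ((p : ℕ), (σ p : ℕ)) ∈ q := by
      intro q hq
      have hmem : ∀ n, n ∈ Le M m ↔ D M.2 n m := fun n => by
        rw [hLe M hM m]; rfl
      have h1 : ∀ p : {n // D M.2 n m}, ∃ r : {n // D M.2 n m}, ((p : ℕ), (r : ℕ)) ∈ q := by
        intro p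
        obtain ⟨r, hr⟩ := hq.tot p ((hmem _).2 p.2)
        exact ⟨⟨r, (hmem _).1 (hq.sub hr).2⟩, hr⟩
      have h2 : ∀ p : {n // D M.2 n m}, ∃ r : {n // D M.2 n m}, ((r : ℕ), (p : ℕ)) ∈ q := by
        intro p
        obtain ⟨r, hr⟩ := hq.sur p ((hmem _).2 p.2)
        exact ⟨⟨r, (hmem _).1 (hq.sub hr).1⟩, hr⟩
      choose φ hφ using h1
      choose ψ hψ using h2
      refine ⟨⟨φ, ψ, fun p => ?_, fun p => ?_⟩, ⟨fun i v => ?_, fun p r => ?_⟩, hφ⟩
      · exact Subtype.ext (hq.piso.fst_eq (hψ (φ p)) (hφ p) rfl)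
      · exact Subtype.ext (hq.piso.snd_eq (hφ (ψ p)) (hψ p) rfl)
      · exact (hq.piso.2.2 i (fun k => ((v k : ℕ), (φ (v k) : ℕ))) fun k => hφ (v k)).symm
      · have h3 : ∀ p r : {n // D M.2 n m}, (¬ Adj M r p ↔ D M.2 p r) := by
          intro p r
          have := hLe M hM r
          rw [Set.ext_iff] at this
          exact this p
        change D M.2 (φ p) (φ r) ↔ D M.2 p r
        rw [← h3 (φ p) (φ r), ← h3 p r]
        exact not_congr (hq.piso.adj (hφ r) (hφ p)).symm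
    choose! F hF1 hF2 using hperm
    have hinj : Set.InjOn F {q | Full M M (Le M m) (Le M m) q} := by
      intro q hq q' hq' he
      have hmem : ∀ n, n ∈ Le M m ↔ D M.2 n m := fun n => by
        rw [hLe M hM m]; rfl
      have key : ∀ q q', Full M M (Le M m) (Le M m) q → Full M M (Le M m) (Le M m) q' →
          F q = F q' → q ⊆ q' := by
        rintro q q' hq hq' he ⟨u, v⟩ huv
        have hu := (hmem u).1 (hq.sub huv).1
        have h4 := hF2 q hq ⟨u, hu⟩
        have h5 := hF2 q' hq' ⟨u, hu⟩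
        have h6 : v = (F q ⟨u, hu⟩ : ℕ) := hq.piso.snd_eq huv h4 rfl
        rw [h6, he]
        exact h5
      exact Subset.antisymm (key q q' hq hq' he) (key q' q hq' hq he.symm)
    have hsub : F '' {q | Full M M (Le M m) (Le M m) q} ⊆ SegAut D M.2 m := by
      rintro _ ⟨q, hq, rfl⟩; exact hF1 q hq
    exact Set.countable_of_injective_of_countable_image hinj (hcM.mono hsub)
  obtain ⟨f, hf⟩ := hT
  refine ⟨fun n => (f n).2, fun x hx => ?_⟩
  obtain ⟨n, hn⟩ := hf (enc x) ⟨hx, rfl⟩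
  obtain ⟨σ, -, hσ⟩ := final_perm_of_iso hn
  exact ⟨n, σ, hσ⟩

end Pool.Agent.Y560.TT
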