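import Pool.Agent.Y560.TT.Base

set_option autoImplicit false

/-! Limits of sequences of structures. -/

namespace Pool.Agent.Y560.TT

open Set
open Pool.Agent.H899R2.VP
open Pool.Agent.H533R2.VO

variable {a : ℕ → ℕ}

/-- The limit of a sequence of structures. -/
def lim (M : ℕ → St a) : St a :=
  (fun x y => (M (max x y + 1)).1 x y, fun i t => (M (Finset.univ.sup t + 1)).2 i t)

/-- The hypotheses on a sequence of structures. -/
structure Seq (M : ℕ → St a) (F : ℕ → Set ℕ) (β : ℕ → Ordinal.{0}) : Prop where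
  mono : ∀ k, F k ⊆ F (k + 1)
  mem : ∀ k, k ∈ F (k + 1)
  lev : ∀ k, β k ≤ β (k + 1)
  coh : ∀ k, BF (M k) (M (k + 1)) univ univ (β k + 1) (idOn (F k))
  req : ∀ j x, ∃ k, j ≤ k ∧ ∃ x' ∈ F k, BF (M j) (M k) univ univ (β j)
    (insert (x, x') (idOn (F j)))

variable {M : ℕ → St a} {F : ℕ → Set ℕ} {β : ℕ → Ordinal.{0}}

theorem Seq.monoF (h : Seq M F β) : Monotone F := monotone_nat_of_le_succ h.mono

theorem Seq.monoB (h : Seq M F β) : Monotone β := monotone_nat_of_le_succ h.lev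

theorem Seq.coh' (h : Seq M F β) {j k : ℕ} (hjk : j ≤ k) :
    BF (M j) (M k) univ univ (β j + 1) (idOn (F j)) := by
  induction k, hjk using Nat.le_induction with
  | base => exact bf_refl_id _ _ _
  | succ k hjk ih =>
    refine bf_trans_id ih (((h.coh k).mono ?_).subset (idOn_mono (h.monoF hjk)))
    have := h.monoB hjk
    gcongr

theorem Seq.eq1 (h : Seq M F β) {k x y : ℕ} (hx : x ∈ F k) (hy : y ∈ F k) :
    (lim M).1 x y = (M k).1 x y := by
  have h1 : x ∈ F (max x y + 1) := h.monoF (by omega) (h.mem x)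
  have h2 : y ∈ F (max x y + 1) := h.monoF (by omega) (h.mem y)
  change (M (max x y + 1)).1 x y = _
  rcases le_total k (max x y + 1) with hk | hk
  · exact ((h.coh' hk).piso.2.1 (x, x) ⟨rfl, hx⟩ (y, y) ⟨rfl, hy⟩).symm
  · exact ((h.coh' hk).piso.2.1 (x, x) ⟨rfl, h1⟩ (y, y) ⟨rfl, h2⟩)

theorem Seq.eq2 (h : Seq M F β) {k i : ℕ} {t : Fin (a i) → ℕ} (ht : ∀ j, t j ∈ F k) :
    (lim M).2 i t = (M k).2 i t := by
  have h1 : ∀ j, t j ∈ F (Finset.univ.sup t + 1) := by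
    intro j
    have : t j ≤ Finset.univ.sup t := Finset.le_sup (Finset.mem_univ j)
    exact h.monoF (by omega) (h.mem (t j))
  change (M (Finset.univ.sup t + 1)).2 i t = _
  rcases le_total k (Finset.univ.sup t + 1) with hk | hk
  · exact ((h.coh' hk).piso.2.2 i (fun j => (t j, t j)) fun j => ⟨rfl, ht j⟩).symm
  · exact ((h.coh' hk).piso.2.2 i (fun j => (t j, t j)) fun j => ⟨rfl, h1 j⟩)

theorem Seq.piso (h : Seq M F β) (j : ℕ) : PIso (M j) (lim M) (idOn (F j)) := by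
  refine ⟨?_, ?_, ?_⟩
  · rintro ⟨u, u'⟩ ⟨h1, h2⟩ ⟨v, v'⟩ ⟨h3, h4⟩
    simp only at h1 h3
    subst h1 h3
    exact Iff.rfl
  · rintro ⟨u, u'⟩ ⟨h1, h2⟩ ⟨v, v'⟩ ⟨h3, h4⟩
    simp only at h1 h2 h3 h4
    subst h1 h3
    exact (h.eq1 h2 h4).symm
  · intro i t ht
    have e : (fun k => (t k).1) = fun k => (t k).2 := funext fun k => (ht k).1
    rw [h.eq2 (k := j) (fun k => ?_), e]
    have := ht k
    rw [← this.1]
    exact this.2

theorem Seq.bf (h : Seq M F β) {γ : Ordinal.{0}} {j : ℕ} (hγ : γ ≤ β j) :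
    BF (M j) (lim M) univ univ γ (idOn (F j)) := by
  induction γ using WellFoundedLT.induction generalizing j with
  | ind γ ih =>
    rw [BF_iff]
    refine ⟨h.piso j, fun γ' hγ' => ⟨fun x _ => ?_, fun y _ => ?_⟩⟩
    · obtain ⟨k, hjk, x', hx', hb⟩ := h.req j x
      refine ⟨x', mem_univ _, ?_⟩
      have h1 := ih γ' hγ' (j := k) ((hγ'.le.trans hγ).trans (h.monoB hjk))
      refine ((hb.mono (hγ'.le.trans hγ)).comp h1).subset ?_
      rintro u (rfl | ⟨h2, h3⟩)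
      · exact ⟨x', mem_insert _ _, rfl, hx'⟩
      · refine ⟨u.1, mem_insert_of_mem _ ⟨rfl, h3⟩, h2, h.monoF hjk h3⟩
    · have hy : y ∈ F (max j (y + 1)) := h.monoF (le_max_right _ _) (h.mem y)
      have hjk : j ≤ max j (y + 1) := le_max_left _ _
      have hb := h.coh' hjk
      have h1 := ih γ' hγ' (j := max j (y + 1)) ((hγ'.le.trans hγ).trans (h.monoB hjk))
      have hlt : γ' < β j + 1 := lt_of_lt_of_le (hγ'.trans_le hγ) le_self_add
      obtain ⟨x, -, hx⟩ := hb.back hlt (mem_univ y)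
      refine ⟨x, mem_univ _, (hx.comp h1).subset ?_⟩
      rintro u (rfl | ⟨h2, h3⟩)
      · exact ⟨y, mem_insert _ _, rfl, hy⟩
      · refine ⟨u.1, mem_insert_of_mem _ ⟨rfl, h3⟩, h2, h.monoF hjk h3⟩

end Pool.Agent.Y560.TT
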