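import Pool.Agent.Y560.TT.Cuts
import Pool.Agent.Y560.TT.CaseB3

set_option autoImplicit false

/-! Case A: loops. -/

namespace Pool.Agent.Y560.TT

open Set MeasureTheory
open Pool.Agent.H899R2.VP
open Pool.Agent.H533R2.VO

variable {a : ℕ → ℕ} {α l : Ordinal.{0}} {K : Set (St a)} {P : Set (St a × Set ℕ)}
  {Q : Set (St a × Set ℕ × Set ℕ)}

/-- Far loops. -/
structure Loop (K : Set (St a)) (Q : Set (St a × Set ℕ × Set ℕ)) (m : Ordinal.{0}) (M : St a)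
    (z z' : ℕ) (C : Set ℕ) (e : ℕ → ℕ) : Prop where
  mem : M ∈ K
  thick : ¬ Thin (Cl K M ∅ m)
  far : far m M z z'
  fin : C.Finite
  zC : z' ∈ C
  CL : C ⊆ Le M z'
  q : (M, Le M z', C) ∈ Q
  full : Full M M (Le M z') (Le M z) (gph (Le M z') e)
  ez : e z' = z
  bf : BF M M univ univ m (gph C e)

theorem Full.resSet {M N : St a} {X Y : Set ℕ} {q : Set (ℕ × ℕ)} (h : Full M N X Y q)
    {X' Y' : Set ℕ} (hX : X' ⊆ X) (hY : Y' ⊆ Y)
    (hXY : ∀ x y, (x, y) ∈ q → (x ∈ X' ↔ y ∈ Y')) :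
    Full M N X' Y' {u | u ∈ q ∧ u.1 ∈ X'} := by
  refine ⟨?_, h.piso.mono fun u hu => hu.1, ?_, ?_⟩
  · rintro ⟨u, v⟩ ⟨h1, h2⟩
    exact ⟨h2, (hXY u v h1).1 h2⟩
  · intro x hx
    obtain ⟨z, hz⟩ := h.tot x (hX hx)
    exact ⟨z, hz, hx⟩
  · intro z hz
    obtain ⟨x, hx⟩ := h.sur z (hY hz)
    exact ⟨x, hx, (hXY x z hx).2 hz⟩

/-- Existence of far loops. -/
theorem TH.exists_loop (h : TH α l K P Q)
    (hB : ∀ μ < Ordinal.omega 1, Thin {M | M ∈ K ∧ ∃ y, ∀ z, ¬ far μ M y z}) (hthick : ¬ Thin K)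
    {m : Ordinal.{0}} (hm : m < Ordinal.omega 1) (hαm : α ≤ m) :
    ∃ M z z' C e, Loop K Q m M z z' C e := by
  classical
  obtain ⟨M₀, hM₀, ht₀⟩ := sub_thick h.toGK (A := K) Subset.rfl hthick (S := ∅) finite_empty hm
  have ht : ¬ Thin (Cl K M₀ ∅ m) := ht₀
  have hmeas : MeasurableSet (Cl K M₀ ∅ m) := meas_cl h.meas hm M₀ ∅
  obtain ⟨M, hM, D, hD1, hD2⟩ := t_BL a (Cl K M₀ ∅ m) (far m) hmeas
    (fun x y => hmeas.inter (meas_far hm x y)) (by
      intro ξ hξ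
      by_contra hcon
      push Not at hcon
      refine ht ((hB (mu m ξ) (mu_lt hm hξ)).mono fun M hM => ⟨hM.1, ?_⟩)
      by_contra hc
      push Not at hc
      obtain ⟨y, hy⟩ := hc 0
      exact hcon M hM 0 y (far_rank (h.wo M hM.1) hc hy))
  have hMK : M ∈ K := hM.1
  have hWO := h.wo M hMK
  have htr : ∀ x y z, far m M x y → far m M y z → far m M x z := fun x y z h1 h2 =>
    far.trans hWO h1 h2
  -- basic facts on the cuts
  have hptD : ∀ σ k, pt D σ k ∈ DD M D σ := fun σ k => ⟨k, self_mem_Le hWO _⟩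
  have hlt : ∀ σ j k, j < k → Adj M (pt D σ j) (pt D σ k) := fun σ j k hjk =>
    (pt_lt htr hD1 hD2 σ hjk).1
  have hinf : ∀ σ, (DD M D σ).Infinite := by
    intro σ
    refine Set.infinite_of_injective_forall_mem (f := pt D σ) ?_ (hptD σ)
    intro j k hjk
    by_contra hne
    rcases lt_or_gt_of_ne hne with h1 | h1
    · have := hlt σ j k h1
      rw [hjk] at this
      exact hWO.irr _ this
    · have := hlt σ k j h1
      rw [hjk] at this
      exact hWO.irr _ this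
  have hmono : ∀ σ j k, j ≤ k → Le M (pt D σ j) ⊆ Le M (pt D σ k) := by
    intro σ j k hjk
    rcases hjk.lt_or_eq with h1 | rfl
    · exact hWO.Le_sub (hWO.asymm (hlt σ j k h1))
    · exact Subset.rfl
  have htv : ∀ σ, ∀ s : List ℕ, (∀ z ∈ s, z ∈ DD M D σ) →
      BF M M (DD M D σ) univ m (idOn {z | z ∈ s}) := by
    intro σ s hs
    refine tv (fun γ hγ s hs d => ?_) le_rfl s hs
    have h1 : ∃ k, ∀ z ∈ s, z ∈ Le M (pt D σ k) := by
      clear * - hs hmono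
      induction s with
      | nil => exact ⟨0, by simp⟩
      | cons x s ih =>
        obtain ⟨k, hk⟩ := ih fun z hz => hs z (by simp [hz])
        obtain ⟨k', hk'⟩ := hs x (by simp)
        refine ⟨max k k', fun z hz => ?_⟩
        rcases List.mem_cons.1 hz with rfl | hz
        · exact hmono σ _ _ (le_max_right _ _) hk'
        · exact hmono σ _ _ (le_max_left _ _) (hk z hz)
    obtain ⟨k, hk⟩ := h1
    obtain ⟨d', h2, h3⟩ := (pt_step htr hD1 hD2 σ k).2 γ hγ s hk d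
    exact ⟨d', ⟨k + 1, h2⟩, h3⟩
  obtain ⟨σ, σ', hne, hiso⟩ := cuts_iso h.toGK D hinf
    (fun σ => ((htv σ [] (by simp)).mono hαm).subset (empty_subset _)) hMK
  -- arrange the order
  obtain ⟨σ, σ', j, heq, h0, h1, hiso⟩ : ∃ (σ σ' : ℕ → Bool) (j : ℕ), (∀ i < j, σ i = σ' i) ∧
      σ j = false ∧ σ' j = true ∧ IsoOn M M (DD M D σ') (DD M D σ) ∅ := by
    obtain ⟨k, hk⟩ := Function.ne_iff.1 hne
    have hex : ∃ k, σ k ≠ σ' k := ⟨k, hk⟩
    have hfind := Nat.find_spec hex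
    have hmin : ∀ i < Nat.find hex, σ i = σ' i := fun i hi => not_not.1 (Nat.find_min hex hi)
    cases h2 : σ (Nat.find hex) <;> cases h3 : σ' (Nat.find hex)
    · exact absurd (h2.trans h3.symm) hfind
    · exact ⟨σ, σ', _, hmin, h2, h3, iso_symm0 hiso⟩
    · exact ⟨σ', σ, _, fun i hi => (hmin i hi).symm, h3, h2, hiso⟩
    · exact absurd (h2.trans h3.symm) hfind
  set z' := pt D σ' (j + 1) with hz'
  obtain ⟨q, -, hq⟩ := isoOn_iff.1 hiso
  obtain ⟨z, hzq⟩ := hq.tot z' (hptD σ' (j + 1))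
  have hzD : z ∈ DD M D σ := (hq.sub hzq).2
  have hLz' : Le M z' ⊆ DD M D σ' := fun x hx => ⟨j + 1, hx⟩
  have hLz : Le M z ⊆ DD M D σ := by
    obtain ⟨k, hk⟩ := hzD
    exact fun x hx => ⟨k, hWO.Le_sub hk hx⟩
  have hfar : far m M z z' := by
    obtain ⟨k, hk⟩ := hzD
    have h2 : z ∈ Le M (pt D σ (max k (j + 1))) := hmono σ _ _ (le_max_left _ _) hk
    exact (pt_sep htr hD1 hD2 heq h0 h1 (le_max_right k (j + 1))).weak hWO h2 (hWO.irr _)
  have hqr := hq.resSet hLz' hLz fun x y hxy => piso_Le hq.piso hzq hxy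
  obtain ⟨e, he⟩ := hqr.exists_fun
  obtain ⟨C, hC1, hC2, hC3, hC4⟩ := h.q2 M hMK z'
  have hez : e z' = z := by
    have h2 : (z', e z') ∈ gph (Le M z') e := ⟨self_mem_Le hWO z', rfl⟩
    rw [he] at h2
    exact hq.piso.snd_eq h2.1 hzq rfl
  refine ⟨M, z, z', C, e, hMK, ?_, hfar, hC1, hC3, hC2, hC4, he ▸ hqr, hez, ?_⟩
  · intro h2
    refine ht (h2.mono fun N hN => ⟨hN.1, bf_trans_id (bf_symm_id hM.2) hN.2⟩)
  · obtain ⟨s, hs⟩ := exists_list hC1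
    have hsD : ∀ x ∈ s, x ∈ DD M D σ' := fun x hx => hLz' (hC2 (by rw [hs]; exact hx))
    have hsD2 : ∀ x ∈ s.map e, x ∈ DD M D σ := by
      intro x hx
      obtain ⟨x0, hx0, rfl⟩ := List.mem_map.1 hx
      have h3 : (x0, e x0) ∈ gph (Le M z') e := ⟨hC2 (by rw [hs]; exact hx0), rfl⟩
      rw [he] at h3
      exact (hq.sub h3.1).2
    refine (((htv σ' s hsD).symm.comp (hq.iso.bf m)).comp (htv σ (s.map e) hsD2)).subset ?_
    rintro ⟨u, v⟩ ⟨h2, h3⟩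
    simp only at h2 h3
    subst h3
    have h3 : (u, e u) ∈ gph (Le M z') e := ⟨hC2 h2, rfl⟩
    rw [he] at h3
    have h4 : u ∈ s := by rw [hs] at h2; exact h2
    exact ⟨e u, ⟨u, ⟨rfl, h4⟩, h3.1⟩, ⟨rfl, List.mem_map.2 ⟨u, h4, rfl⟩⟩⟩

end Pool.Agent.Y560.TT
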