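import Pool.Agent.Y560.TT.Ord
import Pool.Agent.H533R2.VO.BL
import Pool.Agent.H533R2.VO.DYA
import Pool.Agent.H533R2.VO.MEAS1

set_option autoImplicit false

/-! Measurability of back-and-forth relations and of the far relation. -/

namespace Pool.Agent.Y560.TT

open Set MeasureTheory
open Pool.Agent.H899R2.VP
open Pool.Agent.H533R2.VO

variable {a : ℕ → ℕ}

theorem meas_bf2 {β : Ordinal.{0}} (hβ : β < Ordinal.omega 1) (p : Set (ℕ × ℕ)) :
    MeasurableSet {R : St a × St a | BF R.1 R.2 univ univ β p} := by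
  have b1 : BorelSpace ((i : ℕ) → (Fin (a i) → ℕ) → Bool) := inferInstance
  have b2 : BorelSpace (ℕ → ℕ → Bool) := inferInstance
  have s1 : SecondCountableTopology (St a) := inferInstance
  have b3 : BorelSpace (St a) := inferInstance
  have b4 : BorelSpace (St a × St a) := inferInstance
  induction β using WellFoundedLT.induction generalizing p with
  | ind β ih =>
    have hc : Countable (Iio β) := Dst.countable_Iio hβ
    have h1 : {R : St a × St a | BF R.1 R.2 univ univ β p} =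
        {R : St a × St a | PIso R.1 R.2 p} ∩ ⋂ o : Iio β,
        ((⋂ x : ℕ, ⋃ y : ℕ, {R : St a × St a | BF R.1 R.2 univ univ o.1 (insert (x, y) p)}) ∩
        (⋂ y : ℕ, ⋃ x : ℕ, {R : St a × St a | BF R.1 R.2 univ univ o.1 (insert (x, y) p)})) := by
      ext R
      simp only [mem_inter_iff, mem_iInter, mem_iUnion, mem_ofPred_eq]
      rw [BF_iff]
      constructor
      · rintro ⟨h2, h3⟩
        refine ⟨h2, fun o => ⟨fun x => ?_, fun y => ?_⟩⟩
        · obtain ⟨y, -, hy⟩ := (h3 o.1 o.2).1 x (mem_univ _)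
          exact ⟨y, hy⟩
        · obtain ⟨x, -, hx⟩ := (h3 o.1 o.2).2 y (mem_univ _)
          exact ⟨x, hx⟩
      · rintro ⟨h2, h3⟩
        refine ⟨h2, fun o ho => ⟨fun x _ => ?_, fun y _ => ?_⟩⟩
        · obtain ⟨y, hy⟩ := (h3 ⟨o, ho⟩).1 x
          exact ⟨y, mem_univ _, hy⟩
        · obtain ⟨x, hx⟩ := (h3 ⟨o, ho⟩).2 y
          exact ⟨x, mem_univ _, hx⟩
    rw [h1]
    have h2 : ∀ (o : Iio β) (q : Set (ℕ × ℕ)),
        MeasurableSet {R : St a × St a | BF R.1 R.2 univ univ o.1 q} :=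
      fun o q => ih o.1 o.2 (lt_trans o.2 hβ) q
    refine (isClosed_piso p).measurableSet.inter (MeasurableSet.iInter fun o =>
      MeasurableSet.inter ?_ ?_)
    · exact MeasurableSet.iInter fun x => MeasurableSet.iUnion fun y => h2 _ _
    · exact MeasurableSet.iInter fun x => MeasurableSet.iUnion fun y => h2 _ _

theorem meas_bf1 {β : Ordinal.{0}} (hβ : β < Ordinal.omega 1) (p : Set (ℕ × ℕ)) :
    MeasurableSet {M : St a | BF M M univ univ β p} :=
  (measurable_id.prodMk measurable_id) (meas_bf2 hβ p)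

theorem meas_cl {K : Set (St a)} (hK : MeasurableSet K) {β : Ordinal.{0}}
    (hβ : β < Ordinal.omega 1) (M : St a) (S : Set ℕ) : MeasurableSet (Cl K M S β) :=
  hK.inter ((measurable_const.prodMk measurable_id) (meas_bf2 hβ (idOn S)))

theorem meas_adj (x y : ℕ) : MeasurableSet {M : St a | Adj M x y} := by
  have h3 : Measurable (fun M : St a => M.1 x y) :=
    (measurable_pi_apply y).comp ((measurable_pi_apply x).comp measurable_fst)
  exact h3 (measurableSet_singleton true)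

theorem meas_far {μ : Ordinal.{0}} (hμ : μ < Ordinal.omega 1) (x y : ℕ) :
    MeasurableSet {M : St a | far μ M x y} := by
  have hc : Countable (Iio μ) := Dst.countable_Iio hμ
  have h1 : {M : St a | far μ M x y} = {M : St a | Adj M x y} ∩ ⋂ γ : Iio μ, ⋂ s : List ℕ,
      ((⋃ z : {z // z ∈ s}, {M : St a | Adj M x z}) ∪ ⋂ d : ℕ, ⋃ d' : ℕ,
        ({M : St a | Adj M y d'}ᶜ ∩
          {M : St a | BF M M univ univ γ.1 (insert (d, d') (idOn {z | z ∈ s}))})) := by
    ext M
    simp only [mem_inter_iff, mem_iInter, mem_iUnion, mem_ofPred_eq, mem_union, mem_compl_iff]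
    constructor
    · rintro ⟨h2, h3⟩
      refine ⟨h2, fun γ s => ?_⟩
      by_cases hs : ∀ z ∈ s, z ∈ Le M x
      · right
        intro d
        obtain ⟨d', h4, h5⟩ := h3 γ.1 γ.2 s hs d
        exact ⟨d', h4, h5⟩
      · left
        push Not at hs
        obtain ⟨z, hz, h4⟩ := hs
        exact ⟨⟨z, hz⟩, not_not.1 h4⟩
    · rintro ⟨h2, h3⟩
      refine ⟨h2, fun γ hγ s hs d => ?_⟩
      rcases h3 ⟨γ, hγ⟩ s with ⟨⟨z, hz⟩, h4⟩ | h4
      · exact absurd h4 (hs z hz)
      · obtain ⟨d', h5, h6⟩ := h4 d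
        exact ⟨d', h5, h6⟩
  rw [h1]
  refine (meas_adj x y).inter (MeasurableSet.iInter fun γ => MeasurableSet.iInter fun s =>
    MeasurableSet.union ?_ ?_)
  · exact MeasurableSet.iUnion fun z => meas_adj _ _
  · exact MeasurableSet.iInter fun d => MeasurableSet.iUnion fun d' =>
      (meas_adj _ _).compl.inter (meas_bf1 (lt_trans γ.2 hμ) _)

/-- Elementary cuts. -/
theorem tv {M : St a} {D : Set ℕ} {β : Ordinal.{0}}
    (h : ∀ γ < β, ∀ s : List ℕ, (∀ z ∈ s, z ∈ D) → ∀ d, ∃ d' ∈ D,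
      BF M M univ univ γ (insert (d, d') (idOn {z | z ∈ s}))) {γ : Ordinal.{0}} (hγ : γ ≤ β)
    (s : List ℕ) (hs : ∀ z ∈ s, z ∈ D) : BF M M D univ γ (idOn {z | z ∈ s}) := by
  induction γ using WellFoundedLT.induction generalizing s with
  | ind γ ih =>
    rw [BF_iff]
    refine ⟨PIso.idOn M _, fun γ' hγ' => ⟨fun x hx => ⟨x, mem_univ _, ?_⟩, fun y _ => ?_⟩⟩
    · refine (ih γ' hγ' (hγ'.le.trans hγ) (x :: s) ?_).subset ?_
      · intro z hz
        rcases List.mem_cons.1 hz with rfl | hz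
        · exact hx
        · exact hs z hz
      · rintro _ (rfl | ⟨h1, h2⟩)
        · exact ⟨rfl, by simp⟩
        · exact ⟨h1, List.mem_cons_of_mem _ h2⟩
    · obtain ⟨d', h1, h2⟩ := h γ' (hγ'.trans_le hγ) s hs y
      refine ⟨d', h1, ?_⟩
      have h3 := ih γ' hγ' (hγ'.le.trans hγ) (d' :: s) (by
        intro z hz
        rcases List.mem_cons.1 hz with rfl | hz
        · exact h1
        · exact hs z hz)
      refine (h3.comp h2.symm).subset ?_
      rintro ⟨u, v⟩ (huv | ⟨h4, h5⟩)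
      · obtain ⟨rfl, rfl⟩ := Prod.mk.injEq _ _ _ _ ▸ huv
        exact ⟨u, ⟨rfl, by simp⟩, mem_insert _ _⟩
      · simp only at h4 h5
        subst h4
        exact ⟨u, ⟨rfl, List.mem_cons_of_mem _ h5⟩, mem_insert_of_mem _ ⟨rfl, h5⟩⟩

end Pool.Agent.Y560.TT
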