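import Pool.Agent.Y560.TT.Min

set_option autoImplicit false

/-! Ordered structures: closed pieces, preservation of types, the far relation. -/

namespace Pool.Agent.Y560.TT

open Set
open Pool.Agent.H899R2.VP
open Pool.Agent.H533R2.VO

variable {a : ℕ → ℕ}

/-- Strict weak orders. -/
structure WO (M : St a) : Prop where
  irr : ∀ x, ¬ Adj M x x
  tr : ∀ x y z, Adj M x y → Adj M y z → Adj M x z
  ntr : ∀ x y z, Adj M x z → Adj M x y ∨ Adj M y z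

theorem WO.le_trans {M : St a} (h : WO M) {x y z : ℕ} (h1 : ¬ Adj M y x) (h2 : ¬ Adj M z y) :
    ¬ Adj M z x := fun h3 => (h.ntr _ y _ h3).elim h2 h1

theorem WO.lt_le {M : St a} (h : WO M) {x y z : ℕ} (h1 : Adj M x y) (h2 : ¬ Adj M z y) :
    Adj M x z := (h.ntr _ z _ h1).elim id fun h3 => absurd h3 h2

theorem WO.le_lt {M : St a} (h : WO M) {x y z : ℕ} (h1 : ¬ Adj M y x) (h2 : Adj M y z) :
    Adj M x z := (h.ntr _ x _ h2).elim (fun h3 => absurd h3 h1) id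

theorem WO.asymm {M : St a} (h : WO M) {x y : ℕ} (h1 : Adj M x y) : ¬ Adj M y x :=
  fun h2 => h.irr x (h.tr _ _ _ h1 h2)

theorem WO.le_total {M : St a} (h : WO M) (x y : ℕ) : ¬ Adj M x y ∨ ¬ Adj M y x := by
  by_cases h1 : Adj M x y
  · exact Or.inr (h.asymm h1)
  · exact Or.inl h1

theorem WO.Le_sub {M : St a} (h : WO M) {x y : ℕ} (h1 : ¬ Adj M y x) : Le M x ⊆ Le M y :=
  fun _ hz => h.le_trans hz h1

/-- Full isomorphisms between pieces. -/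
structure Full (M N : St a) (X Y : Set ℕ) (q : Set (ℕ × ℕ)) : Prop where
  sub : q ⊆ X ×ˢ Y
  piso : PIso M N q
  tot : ∀ x ∈ X, ∃ y, (x, y) ∈ q
  sur : ∀ y ∈ Y, ∃ x, (x, y) ∈ q

theorem isoOn_iff {M N : St a} {X Y : Set ℕ} {p : Set (ℕ × ℕ)} :
    IsoOn M N X Y p ↔ ∃ q, p ⊆ q ∧ Full M N X Y q := by
  constructor
  · rintro ⟨q, h1, h2, h3, h4, h5⟩
    exact ⟨q, h1, h2, h3, h4, h5⟩
  · rintro ⟨q, h1, h2, h3, h4, h5⟩
    exact ⟨q, h1, h2, h3, h4, h5⟩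

theorem Full.iso {M N : St a} {X Y : Set ℕ} {q : Set (ℕ × ℕ)} (h : Full M N X Y q) :
    IsoOn M N X Y q := ⟨q, Subset.rfl, h.1, h.2, h.3, h.4⟩

theorem Full.symm {M N : St a} {X Y : Set ℕ} {q : Set (ℕ × ℕ)} (h : Full M N X Y q) :
    Full N M Y X (inv q) :=
  ⟨fun _ hu => ⟨(h.sub hu).2, (h.sub hu).1⟩, h.piso.symm, h.sur, h.tot⟩

theorem Full.trans {M N L : St a} {X Y Z : Set ℕ} {q r : Set (ℕ × ℕ)} (h : Full M N X Y q)
    (h' : Full N L Y Z r) : Full M L X Z (comp q r) := by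
  refine ⟨?_, h.piso.comp h'.piso, ?_, ?_⟩
  · rintro u ⟨w, h1, h2⟩
    exact ⟨(h.sub h1).1, (h'.sub h2).2⟩
  · intro x hx
    obtain ⟨y, hy⟩ := h.tot x hx
    obtain ⟨z, hz⟩ := h'.tot y (h.sub hy).2
    exact ⟨z, y, hy, hz⟩
  · intro z hz
    obtain ⟨y, hy⟩ := h'.sur z hz
    obtain ⟨x, hx⟩ := h.sur y (h'.sub hy).1
    exact ⟨x, y, hx, hy⟩

/-- The image of a set. -/
def img (q : Set (ℕ × ℕ)) (C : Set ℕ) : Set ℕ := {c' | ∃ c ∈ C, (c, c') ∈ q}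

/-- The hypotheses of the tower theorem. -/
structure TH (α l : Ordinal.{0}) (K : Set (St a)) (P : Set (St a × Set ℕ))
    (Q : Set (St a × Set ℕ × Set ℕ)) : Prop extends GK α K where
  wo : ∀ M ∈ K, WO M
  nolast : ∀ M ∈ K, ∀ x, ∃ y, Adj M x y
  cnt : ∃ f : ℕ → St a × Set ℕ, ∀ M X, (M, X) ∈ P → ∃ n, IsoOn (f n).1 M (f n).2 X ∅
  piece : ∀ M ∈ K, ∀ y, (M, Le M y) ∈ P
  llt : l < Ordinal.omega 1
  lev : Lev P l
  q1 : ∀ M X C N Y q, (M, X, C) ∈ Q → Full M N X Y q → (N, Y, img q C) ∈ Q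
  q2 : ∀ M ∈ K, ∀ y, ∃ C, C.Finite ∧ C ⊆ Le M y ∧ y ∈ C ∧ (M, Le M y, C) ∈ Q
  q3 : ∀ M ∈ K, ∀ y C q, (M, Le M y, C) ∈ Q → y ∈ C → Full M M (Le M y) (Le M y) q →
    idOn C ⊆ q → IsoOn M M univ univ q

variable {α l : Ordinal.{0}} {K : Set (St a)} {P : Set (St a × Set ℕ)}
  {Q : Set (St a × Set ℕ × Set ℕ)}

theorem self_mem_Le {M : St a} (h : WO M) (y : ℕ) : y ∈ Le M y := h.irr y

/-- Back-and-forth equivalences restrict to closed pieces. -/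
theorem bf_Le {M N : St a} {β : Ordinal.{0}} {p : Set (ℕ × ℕ)} {y y' : ℕ} (hy : (y, y') ∈ p)
    (hb : BF M N univ univ β p) : BF M N (Le M y) (Le N y') β p := by
  have := resLe hy hb
  rwa [univ_inter, univ_inter] at this

theorem piso_Le {M N : St a} {p : Set (ℕ × ℕ)} {y y' x x' : ℕ} (hp : PIso M N p)
    (hy : (y, y') ∈ p) (hx : (x, x') ∈ p) : x ∈ Le M y ↔ x' ∈ Le N y' :=
  not_congr (hp.adj hy hx)

/-- Isomorphism of closed pieces. -/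
theorem TH.pieceIso (h : TH α l K P Q) {M N : St a} (hM : M ∈ K) {y y' : ℕ}
    {p : Set (ℕ × ℕ)} (hpf : p.Finite) (hp : p ⊆ Le M y ×ˢ Le N y') (hy : (y, y') ∈ p)
    (hb : BF M N univ univ l p) : IsoOn M N (Le M y) (Le N y') p :=
  h.lev M (Le M y) N (Le N y') p (h.piece M hM y) hpf hp (bf_Le hy hb)

/-- Preservation of types by isomorphisms of closed pieces. -/
theorem TH.pres (h : TH α l K P Q) {M N : St a} (hM : M ∈ K) (hN : N ∈ K) {y y' : ℕ}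
    {C : Set ℕ} (hC : (M, Le M y, C) ∈ Q) (hyC : y ∈ C) {q p : Set (ℕ × ℕ)}
    (hq : Full M N (Le M y) (Le N y') q) (hpf : p.Finite) (hpq : p ⊆ q) (hyy : (y, y') ∈ p)
    (hCp : ∀ c ∈ C, ∃ c', (c, c') ∈ p) {β : Ordinal.{0}} (hβ : l ≤ β) (s : List ℕ)
    (hs : ∀ x ∈ s, x ∈ Le M y) (hb : BF M N univ univ (β + s.length) p) :
    BF M N univ univ β {u | u ∈ q ∧ (u ∈ p ∨ u.1 ∈ s)} := by
  obtain ⟨t, ht, -, hbt⟩ := hb.forth_list s le_rfl (fun x _ => mem_univ x)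
  have hsub : p ∪ zipSet s t ⊆ Le M y ×ˢ Le N y' := by
    rintro ⟨x, x'⟩ (hx | hx)
    · exact hq.sub (hpq hx)
    · have h1 := hs x (mem_zipSet_left hx)
      exact ⟨h1, (piso_Le hbt.piso (Or.inl hyy) (Or.inr hx)).1 h1⟩
  have hzf : (zipSet s t).Finite := by
    have : zipSet s t = {u | u ∈ s.zip t} := rfl
    rw [this]; exact List.finite_toSet _
  obtain ⟨q', hq'1, hq'⟩ := isoOn_iff.1
    (h.pieceIso hM (hpf.union hzf) hsub (Or.inl hyy) (hbt.mono hβ))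
  set r := comp (inv q') q with hr
  have hrF : Full N N (Le N y') (Le N y') r := hq'.symm.trans hq
  have hQ' : (N, Le N y', img q' C) ∈ Q := h.q1 _ _ _ _ _ _ hC hq'
  have hy' : y' ∈ img q' C := ⟨y, hyC, hq'1 (Or.inl hyy)⟩
  have hid : idOn (img q' C) ⊆ r := by
    rintro ⟨c, c2⟩ ⟨h1, c0, h2, h3⟩
    simp only at h1 h3
    subst h1
    obtain ⟨c', hc'⟩ := hCp c0 h2
    have h4 : c = c' := hq'.piso.snd_eq h3 (hq'1 (Or.inl hc')) rfl
    subst h4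
    exact ⟨c0, h3, hpq hc'⟩
  have hIso := h.q3 N hN y' _ r hQ' hy' hrF hid
  refine (hbt.comp (hIso.bf β)).subset ?_
  rintro ⟨x, x'⟩ ⟨h1, h2 | h2⟩
  · exact ⟨x', Or.inl h2, x, hq'1 (Or.inl h2), h1⟩
  · obtain ⟨z, hz⟩ := exists_zipSet_left ht.symm (show x ∈ s from h2)
    exact ⟨z, Or.inr hz, x, hq'1 (Or.inr hz), h1⟩

/-- `y` is `μ`-far above `x`. -/
def far (μ : Ordinal.{0}) (M : St a) (x y : ℕ) : Prop :=
  Adj M x y ∧ ∀ γ < μ, ∀ s : List ℕ, (∀ z ∈ s, z ∈ Le M x) → ∀ d, ∃ d' ∈ Le M y,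
    BF M M univ univ γ (insert (d, d') (idOn {z | z ∈ s}))

theorem far.mono {μ μ' : Ordinal.{0}} {M : St a} {x y : ℕ} (h : far μ M x y) (hμ : μ' ≤ μ) :
    far μ' M x y := ⟨h.1, fun γ hγ => h.2 γ (hγ.trans_le hμ)⟩

theorem far.weak {μ : Ordinal.{0}} {M : St a} (hM : WO M) {x y x' y' : ℕ} (h : far μ M x y)
    (hx : ¬ Adj M x x') (hy : ¬ Adj M y' y) : far μ M x' y' := by
  refine ⟨hM.le_lt hx (hM.lt_le h.1 hy), fun γ hγ s hs d => ?_⟩
  obtain ⟨d', h1, h2⟩ := h.2 γ hγ s (fun z hz => hM.Le_sub hx (hs z hz)) d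
  exact ⟨d', hM.Le_sub hy h1, h2⟩

theorem far.trans {μ : Ordinal.{0}} {M : St a} (hM : WO M) {x y z : ℕ} (h : far μ M x y)
    (h' : far μ M y z) : far μ M x z := h'.weak hM (hM.asymm h.1) (hM.irr z)

theorem far.inv {μ : Ordinal.{0}} {M N : St a} {x y x' y' : ℕ} {p : Set (ℕ × ℕ)}
    (h : far μ M x y) (hx : (x, x') ∈ p) (hy : (y, y') ∈ p)
    (hb : BF M N univ univ (μ + Ordinal.omega0) p) : far μ N x' y' := by
  refine ⟨(hb.piso.adj hx hy).1 h.1, fun γ hγ t ht d' => ?_⟩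
  have h1 : BF M N univ univ ((μ + 1) + t.length) p := by
    refine hb.mono ?_
    rw [add_assoc]
    have : (1 : Ordinal.{0}) + (t.length : Ordinal.{0}) = ((1 + t.length : ℕ) : Ordinal.{0}) := by
      push_cast; rfl
    rw [this]
    exact add_nat_le_add_omega _ _
  obtain ⟨s, hs, -, h2⟩ := h1.back_list t le_rfl (fun z _ => mem_univ z)
  obtain ⟨d, -, h3⟩ := h2.back (lt_add_one μ) (mem_univ d')
  have hsx : ∀ z ∈ s, z ∈ Le M x := by
    intro z hz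
    obtain ⟨z', hz'⟩ := exists_zipSet_left hs hz
    exact (piso_Le h2.piso (Or.inl hx) (Or.inr hz')).2 (ht z' (mem_zipSet_right hz'))
  obtain ⟨e, he1, he2⟩ := h.2 γ hγ s hsx d
  obtain ⟨e', -, h4⟩ := (h2.mono (o' := μ) le_self_add).forth hγ (mem_univ e)
  refine ⟨e', (piso_Le h4.piso (mem_insert_of_mem _ (Or.inl hy)) (mem_insert _ _)).1 he1, ?_⟩
  refine (((h3.mono hγ.le).symm.comp he2).comp h4).subset ?_
  rintro ⟨u, v⟩ (huv | ⟨h5, h6⟩)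
  · obtain ⟨rfl, rfl⟩ := Prod.mk.injEq _ _ _ _ ▸ huv
    exact ⟨e, ⟨d, mem_insert _ _, mem_insert _ _⟩, mem_insert _ _⟩
  · simp only at h5 h6
    subst h5
    obtain ⟨w, hw⟩ := exists_zipSet_right hs h6
    refine ⟨w, ⟨w, mem_insert_of_mem _ (Or.inr hw), mem_insert_of_mem _
      ⟨rfl, mem_zipSet_left hw⟩⟩, mem_insert_of_mem _ (Or.inr hw)⟩

/-- The levels of the rank argument. -/
noncomputable def mu (m ξ : Ordinal.{0}) : Ordinal.{0} := m + (Ordinal.omega0 + 2) * ξ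

theorem mu_lt {m ξ : Ordinal.{0}} (hm : m < Ordinal.omega 1) (hξ : ξ < Ordinal.omega 1) :
    mu m ξ < Ordinal.omega 1 := by
  refine Ordinal.isPrincipal_add_omega 1 hm (Ordinal.isPrincipal_mul_omega 1 ?_ hξ)
  have := add_nat_lt Ordinal.omega0_lt_omega_one 2
  simpa using this

theorem mu_step {m ξ' ξ : Ordinal.{0}} (h : ξ' < ξ) :
    mu m ξ' + Ordinal.omega0 + 1 < mu m ξ := by
  have h1 : mu m ξ' + (Ordinal.omega0 + 2) ≤ mu m ξ := by
    unfold mu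
    rw [add_assoc, ← Ordinal.mul_succ]
    gcongr
    exact Order.succ_le_of_lt h
  refine lt_of_lt_of_le ?_ h1
  rw [add_assoc]
  gcongr
  exact_mod_cast one_lt_two

theorem le_mu (m ξ : Ordinal.{0}) : m ≤ mu m ξ := le_self_add

theorem far_rank {m : Ordinal.{0}} {M : St a} (hM : WO M) {ξ : Ordinal.{0}} {x y : ℕ}
    (hext : ∀ y, ∃ z, far (mu m ξ) M y z) (h : far (mu m ξ) M x y) :
    Rr (far m M) ξ x y := by
  induction ξ using WellFoundedLT.induction generalizing x y with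
  | ind ξ ih =>
    rw [Rr]
    refine ⟨h.mono (le_mu _ _), fun ξ' hξ' => ?_⟩
    have hlt := mu_step (m := m) hξ'
    have hle : mu m ξ' ≤ mu m ξ := (le_self_add.trans (by rw [add_assoc] at hlt; exact hlt.le))
    have hext' : ∀ y, ∃ z, far (mu m ξ') M y z := fun y =>
      (hext y).imp fun z hz => hz.mono hle
    obtain ⟨y₂, hy₂⟩ := hext' y
    obtain ⟨y₂', h1, h2⟩ := h.2 _ hlt [x] (by simpa using self_mem_Le hM x) y₂
    obtain ⟨y', -, h3⟩ := h2.forth (lt_add_one _) (mem_univ y)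
    refine ⟨y', ih ξ' hξ' hext' ?_, ih ξ' hξ' hext' ?_⟩
    · refine (h.mono hle).inv (x' := x) (y' := y') ?_ (mem_insert _ _) h3
      exact mem_insert_of_mem _ (mem_insert_of_mem _ ⟨rfl, by simp⟩)
    · exact ((hy₂.inv (x' := y') (y' := y₂') (mem_insert _ _)
        (mem_insert_of_mem _ (mem_insert _ _)) h3).weak hM (hM.irr _) h1)

end Pool.Agent.Y560.TT
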