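import Pool.Agent.Y560.TT.Rig

set_option autoImplicit false

/-! Unbounded rigidity levels give closed pieces with uncountably many automorphisms. -/

namespace Pool.Agent.Y560.TT

open Set MeasureTheory
open Pool.Agent.H899R2.VP
open Pool.Agent.H533R2.VO

variable {a : ℕ → ℕ}

/-- No finite set rigidifies the piece at level `β`. -/
def NR (β : Ordinal.{0}) (M : St a) (y : ℕ) : Prop :=
  ∀ C : Set ℕ, C.Finite → C ⊆ Le M y → ¬ RigL β M (Le M y) C

theorem NR.mono {β β' : Ordinal.{0}} {M : St a} {y : ℕ} (h : NR β M y) (hβ : β' ≤ β) :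
    NR β' M y := fun C h1 h2 h3 => h C h1 h2 fun x hx x' hx' hb => h3 x hx x' hx' (hb.mono hβ)

/-- The set of pairs of a list. -/
def ps (l : List (ℕ × ℕ)) : Set (ℕ × ℕ) := {u | u ∈ l}

theorem ps_cons (u : ℕ × ℕ) (l : List (ℕ × ℕ)) : ps (u :: l) = insert u (ps l) := by
  ext w; simp [ps]

/-- The properties of a parameter. -/
structure OW (f : (ℕ → ℕ) → St a) (y n : ℕ) (s : ℕ → ℕ) (p : ℕ → List (ℕ × ℕ))
    (β : Ordinal.{0}) (z : ℕ → ℕ) : Prop where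
  pre : ∀ i < n, z i = s i
  nr : NR β (f z) y
  bf : ∀ i < 2 ^ n, BF (f z) (f z) (Le (f z) y) (Le (f z) y) β (ps (p i))
  sub : ∀ i < 2 ^ n, ps (p i) ⊆ Le (f z) y ×ˢ Le (f z) y
  cov : ∀ x < n, Adj (f z) y x ∨ ∀ i < 2 ^ n, (∃ v, (x, v) ∈ p i) ∧ ∃ v, (v, x) ∈ p i

/-- One-step extension of a partial isomorphism. -/
theorem ext_one {M : St a} {y n : ℕ} {β : Ordinal.{0}} {p : List (ℕ × ℕ)}
    (hb : BF M M (Le M y) (Le M y) (β + 2) (ps p)) (hs : ps p ⊆ Le M y ×ˢ Le M y) :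
    ∃ q : List (ℕ × ℕ), ps p ⊆ ps q ∧ BF M M (Le M y) (Le M y) β (ps q) ∧
      ps q ⊆ Le M y ×ˢ Le M y ∧ (Adj M y n ∨ (∃ v, (n, v) ∈ q) ∧ ∃ v, (v, n) ∈ q) := by
  by_cases hn : Adj M y n
  · exact ⟨p, Subset.rfl, hb.mono le_self_add, hs, Or.inl hn⟩
  · have e2 : β + 2 = β + 1 + 1 := by rw [add_assoc]; norm_num
    rw [e2] at hb
    have hn' : n ∈ Le M y := hn
    obtain ⟨v, hv, h1⟩ := hb.forth (lt_add_one (β + 1)) hn'
    obtain ⟨w, hw, h2⟩ := h1.back (lt_add_one β) hn'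
    refine ⟨(w, n) :: (n, v) :: p, ?_, ?_, ?_, Or.inr ⟨⟨v, by simp⟩, w, by simp⟩⟩
    · intro u hu
      simp only [ps, mem_ofPred_eq, List.mem_cons] at hu ⊢
      exact Or.inr (Or.inr hu)
    · rw [ps_cons, ps_cons]; exact h2
    · rw [ps_cons, ps_cons]
      exact insert_subset ⟨hw, hn'⟩ (insert_subset ⟨hn', hv⟩ hs)

/-- Splitting a partial isomorphism. -/
theorem ext_two {M : St a} {y n : ℕ} {β : Ordinal.{0}} {p : List (ℕ × ℕ)}
    (hnr : NR (β + 4) M y)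
    (hb : BF M M (Le M y) (Le M y) (β + 4) (ps p)) (hs : ps p ⊆ Le M y ×ˢ Le M y) :
    ∃ q : Bool → List (ℕ × ℕ), (∀ b, ps p ⊆ ps (q b) ∧
      BF M M (Le M y) (Le M y) β (ps (q b)) ∧ ps (q b) ⊆ Le M y ×ˢ Le M y ∧
      (Adj M y n ∨ (∃ v, (n, v) ∈ q b) ∧ ∃ v, (v, n) ∈ q b)) ∧
      ∃ x c c', c ≠ c' ∧ (x, c) ∈ q false ∧ (x, c') ∈ q true := by
  have e4 : β + 4 = β + 2 + 1 + 1 := by
    rw [add_assoc, add_assoc]; norm_num
  set C : Set ℕ := Prod.fst '' (ps p) with hC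
  have hCf : C.Finite := (List.finite_toSet p).image _
  have hCs : C ⊆ Le M y := by
    rintro _ ⟨u, hu, rfl⟩
    exact (hs hu).1
  have h0 := hnr C hCf hCs
  unfold RigL at h0
  push Not at h0
  obtain ⟨x, hx, x', hx', h1, hne⟩ := h0
  rw [e4] at hb h1
  obtain ⟨c, hc, h2⟩ := hb.forth (lt_add_one _) hx'
  obtain ⟨c', hc', h3⟩ := h2.forth (lt_add_one _) hx
  have hcc : c ≠ c' := by
    intro h
    subst h
    exact hne (h3.piso.fst_eq (mem_insert _ _) (mem_insert_of_mem _ (mem_insert _ _)) rfl)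
  -- the two extensions
  have hA : BF M M (Le M y) (Le M y) (β + 2) (ps ((x, c') :: p)) := by
    rw [ps_cons]
    refine h3.subset (insert_subset (mem_insert _ _) fun u hu => ?_)
    exact mem_insert_of_mem _ (mem_insert_of_mem _ hu)
  have hB : BF M M (Le M y) (Le M y) (β + 2) (ps ((x, c) :: p)) := by
    rw [ps_cons]
    refine ((h1.mono (o' := β + 2) ?_).comp (h2.mono (o' := β + 2) le_self_add)).subset ?_
    · rw [add_assoc]; exact le_self_add
    · rintro u (rfl | hu)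
      · exact ⟨x', mem_insert _ _, mem_insert _ _⟩
      · exact ⟨u.1, mem_insert_of_mem _ ⟨rfl, u, hu, rfl⟩, mem_insert_of_mem _ hu⟩
  have hAs : ps ((x, c') :: p) ⊆ Le M y ×ˢ Le M y := by
    rw [ps_cons]; exact insert_subset ⟨hx, hc'⟩ hs
  have hBs : ps ((x, c) :: p) ⊆ Le M y ×ˢ Le M y := by
    rw [ps_cons]; exact insert_subset ⟨hx, hc⟩ hs
  obtain ⟨q0, h4, h5, h6, h7⟩ := ext_one (n := n) hB hBs
  obtain ⟨q1, h8, h9, h10, h11⟩ := ext_one (n := n) hA hAs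
  refine ⟨fun b => if b then q1 else q0, fun b => ?_, x, c, c', hcc, ?_, ?_⟩
  · cases b
    · refine ⟨?_, by simpa using h5, by simpa using h6, by simpa using h7⟩
      have : ps p ⊆ ps ((x, c) :: p) := by rw [ps_cons]; exact subset_insert _ _
      simpa using this.trans h4
    · refine ⟨?_, by simpa using h9, by simpa using h10, by simpa using h11⟩
      have : ps p ⊆ ps ((x, c') :: p) := by rw [ps_cons]; exact subset_insert _ _
      simpa using this.trans h8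
  · have : (x, c) ∈ ps q0 := h4 (by rw [ps_cons]; exact mem_insert _ _)
    simpa [ps] using this
  · have : (x, c') ∈ ps q1 := h8 (by rw [ps_cons]; exact mem_insert _ _)
    simpa [ps] using this

/-- The invariant. -/
def OInv (f : (ℕ → ℕ) → St a) (y n : ℕ) (s : ℕ → ℕ) (p : ℕ → List (ℕ × ℕ)) : Prop :=
  ∀ β : Ordinal.{0}, β < Ordinal.omega 1 → ∃ z, OW f y n s p β z

theorem OInv.step {f : (ℕ → ℕ) → St a} {y n : ℕ} {s : ℕ → ℕ} {p : ℕ → List (ℕ × ℕ)}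
    (h : OInv f y n s p) : ∃ (k : ℕ) (p' : ℕ → List (ℕ × ℕ)),
      OInv f y (n + 1) (Function.update s n k) p' ∧
      (∀ i < 2 ^ n, ps (p i) ⊆ ps (p' (2 * i)) ∧ ps (p i) ⊆ ps (p' (2 * i + 1))) ∧
      ∀ i < 2 ^ n, ∃ x c c', c ≠ c' ∧ (x, c) ∈ p' (2 * i) ∧ (x, c') ∈ p' (2 * i + 1) := by
  classical
  obtain ⟨⟨k, q⟩, hk⟩ := pigeon (κ := ℕ × (Fin (2 ^ n) → Bool → List (ℕ × ℕ)))
    (fun β κ => ∃ z : ℕ → ℕ, (∀ i < n, z i = s i) ∧ z n = κ.1 ∧ NR β (f z) y ∧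
      (∀ i : Fin (2 ^ n), ∀ b, ps (p i) ⊆ ps (κ.2 i b) ∧
        BF (f z) (f z) (Le (f z) y) (Le (f z) y) β (ps (κ.2 i b)) ∧
        ps (κ.2 i b) ⊆ Le (f z) y ×ˢ Le (f z) y) ∧
      (∀ x < n + 1, Adj (f z) y x ∨ ∀ i b, (∃ v, (x, v) ∈ κ.2 i b) ∧ ∃ v, (v, x) ∈ κ.2 i b) ∧
      ∀ i : Fin (2 ^ n), ∃ x c c', c ≠ c' ∧ (x, c) ∈ κ.2 i false ∧ (x, c') ∈ κ.2 i true)
    (by
      rintro β γ κ hγ ⟨z, h1, h2, h3, h4, h5, h6⟩
      exact ⟨z, h1, h2, h3.mono hγ, fun i b => ⟨(h4 i b).1, (h4 i b).2.1.mono hγ,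
        (h4 i b).2.2⟩, h5, h6⟩)
    (by
      intro β hβ
      have hs : β + 4 < Ordinal.omega 1 := by simpa using add_nat_lt hβ 4
      obtain ⟨z, hz⟩ := h _ hs
      have hw : ∀ i : Fin (2 ^ n), ∃ q : Bool → List (ℕ × ℕ), (∀ b, ps (p i) ⊆ ps (q b) ∧
          BF (f z) (f z) (Le (f z) y) (Le (f z) y) β (ps (q b)) ∧
          ps (q b) ⊆ Le (f z) y ×ˢ Le (f z) y ∧
          (Adj (f z) y n ∨ (∃ v, (n, v) ∈ q b) ∧ ∃ v, (v, n) ∈ q b)) ∧
          ∃ x c c', c ≠ c' ∧ (x, c) ∈ q false ∧ (x, c') ∈ q true :=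
        fun i => ext_two hz.nr (hz.bf i i.2) (hz.sub i i.2)
      choose q hq1 hq2 using hw
      refine ⟨(z n, q), z, hz.pre, rfl, hz.nr.mono le_self_add,
        fun i b => ⟨(hq1 i b).1, (hq1 i b).2.1, (hq1 i b).2.2.1⟩, fun x hx => ?_, hq2⟩
      rcases Nat.lt_succ_iff_lt_or_eq.1 hx with hx | rfl
      · rcases hz.cov x hx with h1 | h1
        · exact Or.inl h1
        · right
          intro i b
          obtain ⟨⟨v, hv⟩, w, hw⟩ := h1 i i.2
          exact ⟨⟨v, (hq1 i b).1 hv⟩, w, (hq1 i b).1 hw⟩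
      · by_cases hadj : Adj (f z) y x
        · exact Or.inl hadj
        · right
          intro i b
          exact (hq1 i b).2.2.2.resolve_left hadj)
  simp only at hk
  let p' : ℕ → List (ℕ × ℕ) := fun m => if h : m / 2 < 2 ^ n then
    q ⟨m / 2, h⟩ (decide (m % 2 = 1)) else []
  have hp0 : ∀ (i : ℕ) (hi : i < 2 ^ n), p' (2 * i) = q ⟨i, hi⟩ false := by
    intro i hi
    have h1 : 2 * i / 2 = i := by omega
    have h2 : ¬ (2 * i % 2 = 1) := by omega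
    have h3 : 2 * i / 2 < 2 ^ n := by rw [h1]; exact hi
    have h4 : (⟨2 * i / 2, h3⟩ : Fin (2 ^ n)) = ⟨i, hi⟩ := Fin.ext h1
    simp only [p', dif_pos h3, decide_eq_false h2, h4]
  have hp1 : ∀ (i : ℕ) (hi : i < 2 ^ n), p' (2 * i + 1) = q ⟨i, hi⟩ true := by
    intro i hi
    have h1 : (2 * i + 1) / 2 = i := by omega
    have h2 : (2 * i + 1) % 2 = 1 := by omega
    have h3 : (2 * i + 1) / 2 < 2 ^ n := by rw [h1]; exact hi
    have h4 : (⟨(2 * i + 1) / 2, h3⟩ : Fin (2 ^ n)) = ⟨i, hi⟩ := Fin.ext h1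
    simp only [p', dif_pos h3, decide_eq_true h2, h4]
  have hpm : ∀ m (hm : m < 2 ^ (n + 1)), ∃ (i : Fin (2 ^ n)) (b : Bool), p' m = q i b := by
    intro m hm
    have h1 : m / 2 < 2 ^ n := by rw [pow_succ] at hm; omega
    exact ⟨⟨m / 2, h1⟩, _, dif_pos h1⟩
  have h00 := hk 0 (Ordinal.omega_pos 1)
  refine ⟨k, p', ?_, ?_, ?_⟩
  · intro β hβ
    obtain ⟨z, h1, h2, h3, h4, h5, -⟩ := hk β hβ
    refine ⟨z, ?_, h3, ?_, ?_, ?_⟩
    · intro i hi
      rcases Nat.lt_succ_iff_lt_or_eq.1 hi with hi | rfl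
      · rw [Function.update_of_ne hi.ne]; exact h1 i hi
      · rw [Function.update_self]; exact h2
    · intro m hm
      obtain ⟨i, b, h6⟩ := hpm m hm
      rw [h6]; exact (h4 i b).2.1
    · intro m hm
      obtain ⟨i, b, h6⟩ := hpm m hm
      rw [h6]; exact (h4 i b).2.2
    · intro x hx
      rcases h5 x hx with h6 | h6
      · exact Or.inl h6
      · right
        intro m hm
        obtain ⟨i, b, h7⟩ := hpm m hm
        rw [h7]; exact h6 i b
  · intro i hi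
    obtain ⟨z, -, -, -, h4, -⟩ := h00
    rw [hp0 i hi, hp1 i hi]
    exact ⟨(h4 ⟨i, hi⟩ false).1, (h4 ⟨i, hi⟩ true).1⟩
  · intro i hi
    obtain ⟨z, -, -, -, -, -, h6⟩ := h00
    rw [hp0 i hi, hp1 i hi]
    exact h6 ⟨i, hi⟩

/-- Branch indices. -/
def bi (b : ℕ → Bool) : ℕ → ℕ
  | 0 => 0
  | n + 1 => 2 * bi b n + (b n).toNat

theorem bi_lt (b : ℕ → Bool) (n : ℕ) : bi b n < 2 ^ n := by
  induction n with
  | zero => simp [bi]
  | succ n ih =>
    have h2 : (b n).toNat ≤ 1 := Bool.toNat_le _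
    rw [bi, pow_succ]; omega

theorem bi_eq {b b' : ℕ → Bool} {n : ℕ} (h : ∀ i < n, b i = b' i) : bi b n = bi b' n := by
  induction n with
  | zero => rfl
  | succ n ih => rw [bi, bi, ih fun i hi => h i (by omega), h n (by omega)]

/-- The overspill. -/
theorem overspill {K : Set (St a)} (hK : MeasurableSet K)
    (h : ∀ β < Ordinal.omega 1, ∃ M ∈ K, ∃ y, NR β M y) :
    ∃ M ∈ K, ∃ y, ∃ G : (ℕ → Bool) → Set (ℕ × ℕ), Function.Injective G ∧
      ∀ b, Full M M (Le M y) (Le M y) (G b) := by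
  classical
  have b1 : BorelSpace ((i : ℕ) → (Fin (a i) → ℕ) → Bool) := inferInstance
  have b2 : BorelSpace (ℕ → ℕ → Bool) := inferInstance
  have s1 : SecondCountableTopology (St a) := inferInstance
  have b3 : BorelSpace (St a) := inferInstance
  have b5 : PolishSpace (St a) := bl_polish_of
  have han : AnalyticSet K := hK.analyticSet
  rw [AnalyticSet] at han
  rcases han with he | ⟨f, hf, hr⟩
  · obtain ⟨M, hM, -⟩ := h 0 (Ordinal.omega_pos 1)
    rw [he] at hM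
    exact absurd hM (Set.notMem_empty _)
  obtain ⟨y, hy⟩ := pigeon (κ := ℕ) (fun β y => ∃ z, NR β (f z) y)
    (fun β γ y hγ ⟨z, hz⟩ => ⟨z, hz.mono hγ⟩) (by
      intro β hβ
      obtain ⟨M, hM, y, hy⟩ := h β hβ
      rw [← hr] at hM
      obtain ⟨z, rfl⟩ := hM
      exact ⟨y, z, hy⟩)
  have h0 : OInv f y 0 (fun _ => 0) (fun _ => []) := by
    intro β hβ
    obtain ⟨z, hz⟩ := hy β hβ
    refine ⟨z, fun i hi => absurd hi (Nat.not_lt_zero i), hz, fun i _ => ?_, fun i _ => ?_,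
      fun i hi => absurd hi (Nat.not_lt_zero i)⟩
    · refine (BF.refl (f z) (Le (f z) y) β).subset ?_
      intro u hu
      simp [ps] at hu
    · intro u hu
      simp [ps] at hu
  obtain ⟨S, hS⟩ : ∃ S : ℕ → (ℕ → ℕ) × (ℕ → List (ℕ × ℕ)), ∀ n,
      OInv f y n (S n).1 (S n).2 ∧ ((∃ k, (S (n + 1)).1 = Function.update (S n).1 n k) ∧
      (∀ i < 2 ^ n, ps ((S n).2 i) ⊆ ps ((S (n + 1)).2 (2 * i)) ∧
        ps ((S n).2 i) ⊆ ps ((S (n + 1)).2 (2 * i + 1))) ∧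
      ∀ i < 2 ^ n, ∃ x c c', c ≠ c' ∧ (x, c) ∈ (S (n + 1)).2 (2 * i) ∧
        (x, c') ∈ (S (n + 1)).2 (2 * i + 1)) := by
    have hst : ∀ n (σ : {σ : (ℕ → ℕ) × (ℕ → List (ℕ × ℕ)) // OInv f y n σ.1 σ.2}),
        ∃ τ : {σ : (ℕ → ℕ) × (ℕ → List (ℕ × ℕ)) // OInv f y (n + 1) σ.1 σ.2},
          (∃ k, τ.1.1 = Function.update σ.1.1 n k) ∧
          (∀ i < 2 ^ n, ps (σ.1.2 i) ⊆ ps (τ.1.2 (2 * i)) ∧
            ps (σ.1.2 i) ⊆ ps (τ.1.2 (2 * i + 1))) ∧
          ∀ i < 2 ^ n, ∃ x c c', c ≠ c' ∧ (x, c) ∈ τ.1.2 (2 * i) ∧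
            (x, c') ∈ τ.1.2 (2 * i + 1) := by
      rintro n ⟨σ, hσ⟩
      obtain ⟨k, p', h1, h2, h3⟩ := hσ.step
      exact ⟨⟨(_, p'), h1⟩, ⟨k, rfl⟩, h2, h3⟩
    choose F hF using hst
    let G : ∀ n, {σ : (ℕ → ℕ) × (ℕ → List (ℕ × ℕ)) // OInv f y n σ.1 σ.2} :=
      fun n => Nat.rec ⟨(fun _ => 0, fun _ => []), h0⟩ (fun n σ => F n σ) n
    exact ⟨fun n => (G n).1, fun n => ⟨(G n).2, hF n (G n)⟩⟩
  have hinv := fun n => (hS n).1
  have hk := fun n => (hS n).2.1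
  have hsub := fun n => (hS n).2.2.1
  have hdif := fun n => (hS n).2.2.2
  choose k hk using hk
  set z : ℕ → ℕ := fun i => (S (i + 1)).1 i with hz
  have hpre : ∀ n, ∀ i < n, (S n).1 i = z i := by
    intro n
    induction n with
    | zero => intro i hi; exact absurd hi (Nat.not_lt_zero i)
    | succ n ih =>
      intro i hi
      rcases Nat.lt_succ_iff_lt_or_eq.1 hi with hi | rfl
      · rw [hk n, Function.update_of_ne hi.ne]
        exact ih i hi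
      · rfl
  -- witnesses converging to `z`
  have hwit : ∀ m, ∃ w, OW f y m (S m).1 (S m).2 0 w := fun m => hinv m 0 (Ordinal.omega_pos 1)
  choose w hw using hwit
  have hlim : Filter.Tendsto w Filter.atTop (nhds z) := by
    rw [tendsto_pi_nhds]
    intro i
    apply tendsto_const_nhds.congr'
    filter_upwards [Filter.eventually_gt_atTop i] with m hm
    exact (((hw m).pre i hm).trans (hpre m i hm)).symm
  have hlimf : Filter.Tendsto (fun m => f (w m)) Filter.atTop (nhds (f z)) :=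
    (hf.tendsto z).comp hlim
  set M := f z with hM
  have hadj : ∀ x : ℕ, ∀ᶠ m in Filter.atTop, (f (w m)).1 y x = M.1 y x := by
    intro x
    have hc : Continuous fun N : St a => N.1 y x :=
      (continuous_apply x).comp ((continuous_apply y).comp continuous_fst)
    have h1 := (hc.tendsto M).comp hlimf
    have h2 : IsOpen ({M.1 y x} : Set Bool) := isOpen_discrete _
    exact (h1.eventually (h2.mem_nhds rfl))
  let G : (ℕ → Bool) → Set (ℕ × ℕ) := fun b => ⋃ n, ps ((S n).2 (bi b n))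
  have hmono : ∀ b, Monotone fun n => ps ((S n).2 (bi b n)) := by
    intro b
    apply monotone_nat_of_le_succ
    intro n
    have h1 := hsub n (bi b n) (bi_lt b n)
    have h2 : bi b (n + 1) = 2 * bi b n + (b n).toNat := rfl
    simp only [h2]
    cases b n
    · simpa using h1.1
    · simpa using h1.2
  have hpiso : ∀ b n, PIso M M (ps ((S n).2 (bi b n))) := by
    intro b n
    have h1 : Filter.Tendsto (fun m => (f (w m), f (w m))) Filter.atTop (nhds (M, M)) :=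
      hlimf.prodMk_nhds hlimf
    refine (isClosed_piso (ps ((S n).2 (bi b n)))).mem_of_tendsto h1 ?_
    filter_upwards [Filter.eventually_ge_atTop n] with m hm
    exact ((hw m).bf (bi b m) (bi_lt b m)).piso.mono (hmono b hm)
  refine ⟨M, by rw [← hr]; exact mem_range_self z, y, G, ?_, fun b => ⟨?_, ?_, ?_, ?_⟩⟩
  · intro b b' hbb
    by_contra hne
    obtain ⟨k, hk1, hk2⟩ : ∃ k, b k ≠ b' k ∧ ∀ i < k, b i = b' i := by
      obtain ⟨k, hk⟩ := Function.ne_iff.1 hne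
      have hex : ∃ k, b k ≠ b' k := ⟨k, hk⟩
      exact ⟨Nat.find hex, Nat.find_spec hex, fun i hi => not_not.1 (Nat.find_min hex hi)⟩
    obtain ⟨x, c, c', hcc, h1, h2⟩ := hdif k (bi b k) (bi_lt b k)
    have hb1 : bi b (k + 1) = 2 * bi b k + (b k).toNat := rfl
    have hb2 : bi b' (k + 1) = 2 * bi b k + (b' k).toNat := by rw [bi, bi_eq hk2]
    have hp : PIso M M (G b) := by
      have : G b = ⋃ n, ps ((S n).2 (bi b n)) := rfl
      rw [this]
      exact PIso.iUnion (hmono b) (hpiso b)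
    have h3 : (x, c) ∈ G b ∧ (x, c') ∈ G b := by
      cases hbk : b k <;> cases hbk' : b' k
      · exact absurd (hbk.trans hbk'.symm) hk1
      · refine ⟨mem_iUnion.2 ⟨k + 1, ?_⟩, ?_⟩
        · rw [hb1, hbk]; simpa [ps] using h1
        · rw [hbb]
          exact mem_iUnion.2 ⟨k + 1, by rw [hb2, hbk']; simpa [ps] using h2⟩
      · refine ⟨?_, mem_iUnion.2 ⟨k + 1, ?_⟩⟩
        · rw [hbb]
          exact mem_iUnion.2 ⟨k + 1, by rw [hb2, hbk']; simpa [ps] using h1⟩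
        · rw [hb1, hbk]; simpa [ps] using h2
      · exact absurd (hbk.trans hbk'.symm) hk1
    exact hcc (hp.snd_eq h3.1 h3.2 rfl)
  · rintro u hu
    obtain ⟨n, hn⟩ := mem_iUnion.1 hu
    obtain ⟨m, hm1, hm2, hm3⟩ := ((hadj u.1).and ((hadj u.2).and
      (Filter.eventually_ge_atTop n))).exists
    have h1 := (hw m).sub (bi b m) (bi_lt b m) (hmono b hm3 hn)
    refine ⟨fun h2 => h1.1 ?_, fun h2 => h1.2 ?_⟩
    · unfold Adj at h2 ⊢; rw [hm1]; exact h2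
    · unfold Adj at h2 ⊢; rw [hm2]; exact h2
  · exact PIso.iUnion (hmono b) (hpiso b)
  · intro x hx
    obtain ⟨m, hm1, hm2⟩ := ((hadj x).and (Filter.eventually_ge_atTop (x + 1))).exists
    rcases (hw m).cov x (by omega) with h1 | h1
    · exact absurd (by unfold Adj at h1 ⊢; rw [← hm1]; exact h1) hx
    · obtain ⟨v, hv⟩ := (h1 (bi b m) (bi_lt b m)).1
      exact ⟨v, mem_iUnion.2 ⟨m, hv⟩⟩
  · intro x hx
    obtain ⟨m, hm1, hm2⟩ := ((hadj x).and (Filter.eventually_ge_atTop (x + 1))).exists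
    rcases (hw m).cov x (by omega) with h1 | h1
    · exact absurd (by unfold Adj at h1 ⊢; rw [← hm1]; exact h1) hx
    · obtain ⟨v, hv⟩ := (h1 (bi b m) (bi_lt b m)).2
      exact ⟨v, mem_iUnion.2 ⟨m, hv⟩⟩

end Pool.Agent.Y560.TT
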