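import Pool.Agent.Y560.TT.CaseA

set_option autoImplicit false

/-! Pieces which are rigid over a finite set at a countable level. -/

namespace Pool.Agent.Y560.TT

open Set MeasureTheory
open Pool.Agent.H899R2.VP
open Pool.Agent.H533R2.VO

variable {a : ℕ → ℕ}

/-- `X` is rigid over `C` at level `β`. -/
def RigL (β : Ordinal.{0}) (M : St a) (X C : Set ℕ) : Prop :=
  ∀ x ∈ X, ∀ x' ∈ X, BF M M X X β (insert (x, x') (idOn C)) → x = x'

/-- The graph of finitely many pairs. -/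
theorem rig_trans {β : Ordinal.{0}} {M N : St a} {X Y C : Set ℕ} {p : Set (ℕ × ℕ)}
    (hM : RigL β M X C) (hp : ∀ c ∈ C, ∃ c', (c, c') ∈ p)
    (hb : BF M N X Y (β + 2) p) : RigL β N Y {c' | ∃ c ∈ C, (c, c') ∈ p} := by
  intro y hy y' hy' h1
  have e2 : β + 2 = β + 1 + 1 := by rw [add_assoc]; norm_num
  rw [e2] at hb
  obtain ⟨x, hx, h2⟩ := hb.back (lt_add_one (β + 1)) hy
  obtain ⟨x', hx', h3⟩ := h2.back (lt_add_one β) hy'
  have h4 : x = x' := by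
    refine hM x hx x' hx' (((h3.comp h1).comp h3.symm).subset ?_)
    rintro ⟨u, v⟩ (huv | ⟨h5, h6⟩)
    · obtain ⟨rfl, rfl⟩ := Prod.mk.injEq _ _ _ _ ▸ huv
      exact ⟨y', ⟨y, mem_insert_of_mem _ (mem_insert _ _), mem_insert _ _⟩, mem_insert _ _⟩
    · simp only at h5 h6
      subst h5
      obtain ⟨c', hc'⟩ := hp u h6
      have h7 : (u, c') ∈ insert (x', y') (insert (x, y) p) :=
        mem_insert_of_mem _ (mem_insert_of_mem _ hc')
      exact ⟨c', ⟨c', h7, mem_insert_of_mem _ ⟨rfl, u, h6, hc'⟩⟩, h7⟩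
  subst h4
  exact h3.piso.snd_eq (mem_insert_of_mem _ (mem_insert _ _)) (mem_insert _ _) rfl

/-- Equivalence over a rigidifying set gives an isomorphism. -/
theorem rig_iso {β : Ordinal.{0}} {M N : St a} {X Y C : Set ℕ} {p : Set (ℕ × ℕ)}
    (hM : RigL β M X C) (hp : ∀ c ∈ C, ∃ c', (c, c') ∈ p)
    (hpX : p ⊆ X ×ˢ Y)
    (hb : BF M N X Y (β + Ordinal.omega0) p) : IsoOn M N X Y p := by
  have h2 : BF M N X Y (β + 2) p := hb.mono (by
    simpa using add_nat_le_add_omega β 2)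
  have hN := rig_trans hM hp h2
  -- uniqueness
  have huniq : ∀ x ∈ X, ∀ y ∈ Y, ∀ y' ∈ Y, BF M N X Y β (insert (x, y) p) →
      BF M N X Y β (insert (x, y') p) → y = y' := by
    intro x hx y hy y' hy' h3 h4
    refine hN y hy y' hy' ((h3.symm.comp h4).subset ?_)
    rintro ⟨u, v⟩ (huv | ⟨h5, c, h6, h7⟩)
    · obtain ⟨rfl, rfl⟩ := Prod.mk.injEq _ _ _ _ ▸ huv
      exact ⟨x, mem_insert _ _, mem_insert _ _⟩
    · simp only at h5 h7
      subst h5
      exact ⟨c, mem_insert_of_mem _ h7, mem_insert_of_mem _ h7⟩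
  set r : Set (ℕ × ℕ) := {w | w.1 ∈ X ∧ w.2 ∈ Y ∧ BF M N X Y β (insert w p)} with hr
  have hmany : ∀ s : List ℕ, (∀ x ∈ s, x ∈ X) → ∃ q : Set (ℕ × ℕ), PIso M N q ∧
      ∀ x ∈ s, ∀ y, (x, y) ∈ r → (x, y) ∈ q := by
    intro s hs
    obtain ⟨t, ht, htY, h3⟩ := (hb.mono (add_nat_le_add_omega β s.length)).forth_list s le_rfl hs
    refine ⟨p ∪ zipSet s t, h3.piso, fun x hx y hxy => ?_⟩
    obtain ⟨y', hy'⟩ := exists_zipSet_left ht.symm hx
    have h4 : BF M N X Y β (insert (x, y') p) := h3.subset (by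
      rintro u (rfl | hu)
      · exact Or.inr hy'
      · exact Or.inl hu)
    have h5 : y = y' := huniq x (hs x hx) y hxy.2.1 y' (htY y' (mem_zipSet_right hy')) hxy.2.2 h4
    subst h5
    exact Or.inr hy'
  refine ⟨r, ?_, ?_, ⟨?_, ?_, ?_⟩, ?_, ?_⟩
  · intro u hu
    have h3 := hpX hu
    refine ⟨h3.1, h3.2, ?_⟩
    rw [insert_eq_of_mem hu]
    exact hb.mono le_self_add
  · rintro u ⟨h3, h4, -⟩
    exact ⟨h3, h4⟩
  · intro u hu v hv
    obtain ⟨q, h3, h4⟩ := hmany [u.1, v.1] (by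
      intro x hx
      simp only [List.mem_cons, List.not_mem_nil, or_false] at hx
      rcases hx with rfl | rfl
      · exact hu.1
      · exact hv.1)
    exact h3.1 u (h4 u.1 (by simp) u.2 hu) v (h4 v.1 (by simp) v.2 hv)
  · intro u hu v hv
    obtain ⟨q, h3, h4⟩ := hmany [u.1, v.1] (by
      intro x hx
      simp only [List.mem_cons, List.not_mem_nil, or_false] at hx
      rcases hx with rfl | rfl
      · exact hu.1
      · exact hv.1)
    exact h3.2.1 u (h4 u.1 (by simp) u.2 hu) v (h4 v.1 (by simp) v.2 hv)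
  · intro i t ht
    obtain ⟨q, h3, h4⟩ := hmany (List.ofFn fun k => (t k).1) (by
      intro x hx
      rw [List.mem_ofFn] at hx
      obtain ⟨k, rfl⟩ := hx
      exact (ht k).1)
    exact h3.2.2 i t fun k => h4 (t k).1 (by rw [List.mem_ofFn]; exact ⟨k, rfl⟩) (t k).2 (ht k)
  · intro x hx
    have hlt : β < β + Ordinal.omega0 := lt_add_of_pos_right _ Ordinal.omega0_pos
    obtain ⟨y, hy, h3⟩ := hb.forth hlt hx
    exact ⟨y, hx, hy, h3⟩
  · intro y hy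
    have hlt : β < β + Ordinal.omega0 := lt_add_of_pos_right _ Ordinal.omega0_pos
    obtain ⟨x, hx, h3⟩ := hb.back hlt hy
    exact ⟨x, hx, hy, h3⟩

/-- The types of the closed pieces. -/
def PP (K : Set (St a)) : Set (St a × Set ℕ) :=
  {R | ∃ M ∈ K, ∃ y, IsoOn M R.1 (Le M y) R.2 ∅}

/-- Rigid pointed pieces. -/
def QQ (a : ℕ → ℕ) : Set (St a × Set ℕ × Set ℕ) :=
  {R | R.2.2 ⊆ R.2.1 ∧ ∀ q, Full R.1 R.1 R.2.1 R.2.1 q → idOn R.2.2 ⊆ q → q ⊆ idOn univ}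

theorem th_of_rig {α β : Ordinal.{0}} {K : Set (St a)} (hK : GK α K) (hβ : β < Ordinal.omega 1)
    (hwo : ∀ M ∈ K, WO M) (hn : ∀ M ∈ K, ∀ x, ∃ y, Adj M x y)
    (hrig : ∀ M ∈ K, ∀ y, ∃ C, C.Finite ∧ C ⊆ Le M y ∧ RigL β M (Le M y) C) :
    TH α (β + Ordinal.omega0 + Ordinal.omega0) K (PP K) (QQ a) := by
  classical
  have hlt : β + Ordinal.omega0 + Ordinal.omega0 < Ordinal.omega 1 :=
    add_omega_lt (add_omega_lt hβ)
  -- the level
  have hlev : ∀ (M : St a) (y : ℕ) (N : St a) (Y : Set ℕ) (p : Set (ℕ × ℕ)), M ∈ K →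
      p ⊆ Le M y ×ˢ Y → BF M N (Le M y) Y (β + Ordinal.omega0 + Ordinal.omega0) p →
      IsoOn M N (Le M y) Y p := by
    intro M y N Y p hM hpX hb
    obtain ⟨C, hC1, hC2, hC3⟩ := hrig M hM y
    obtain ⟨s, rfl⟩ := exists_list hC1
    obtain ⟨t, ht, htY, h1⟩ := (hb.mono (add_nat_le_add_omega _ s.length)).forth_list s le_rfl
      (fun x hx => hC2 hx)
    refine (rig_iso hC3 (fun c hc => ?_) ?_ h1).mono subset_union_left
    · obtain ⟨c', hc'⟩ := exists_zipSet_left ht.symm hc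
      exact ⟨c', Or.inr hc'⟩
    · rintro ⟨u, v⟩ (hu | hu)
      · exact hpX hu
      · exact ⟨hC2 (mem_zipSet_left hu), htY v (mem_zipSet_right hu)⟩
  refine ⟨hK, hwo, hn, ?_, ?_, hlt, ?_, ?_, ?_, ?_⟩
  · obtain ⟨c, hc⟩ := labels hK.meas hK.few _ hlt
    by_cases hne : ∃ M, M ∈ K
    · obtain ⟨M0, hM0⟩ := hne
      let f : ℕ → St a × Set ℕ := fun k => if h : ∃ R : St a × ℕ, R.1 ∈ K ∧ c R.1 [R.2] = k then
        (h.choose.1, Le h.choose.1 h.choose.2) else (M0, ∅)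
      refine ⟨f, ?_⟩
      rintro N Y ⟨M, hM, y, hiso⟩
      refine ⟨c M [y], ?_⟩
      have hex : ∃ R : St a × ℕ, R.1 ∈ K ∧ c R.1 [R.2] = c M [y] := ⟨(M, y), hM, rfl⟩
      have hf : f (c M [y]) = (hex.choose.1, Le hex.choose.1 hex.choose.2) := dif_pos hex
      rw [hf]
      obtain ⟨h1, h2⟩ := hex.choose_spec
      set R := hex.choose
      have h3 := hc R.1 h1 M hM [R.2] [y] rfl h2
      have h4 : (R.2, y) ∈ zipSet [R.2] [y] := by simp [zipSet]
      have h5 := hlev R.1 R.2 M (Le M y) {(R.2, y)} h1 (by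
        rintro _ rfl
        exact ⟨(hwo _ h1).irr _, (hwo _ hM).irr _⟩) ((bf_Le h4 h3).subset (by
          rintro _ rfl; exact h4))
      exact iso_trans0 (h5.mono (empty_subset _)) hiso
    · refine ⟨fun _ => ((fun _ _ => false, fun _ _ => false), ∅), ?_⟩
      rintro N Y ⟨M, hM, -⟩
      exact absurd ⟨M, hM⟩ hne
  · intro M hM y
    exact ⟨M, hM, y, iso_refl0⟩
  · rintro N Y L Z p ⟨M, hM, y, hiso⟩ hpf hp hb
    obtain ⟨q, -, hq⟩ := isoOn_iff.1 hiso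
    have h1 := ((hq.iso.bf _).comp hb)
    have h2 := hlev M y L Z _ hM (by
      rintro ⟨u, v⟩ ⟨w, h3, h4⟩
      exact ⟨(hq.sub h3).1, (hp h4).2⟩) h1
    refine (hq.symm.iso.trans h2).mono ?_
    rintro ⟨u, v⟩ huv
    obtain ⟨w, hw⟩ := hq.sur u (hp huv).1
    exact ⟨w, hw, u, hw, huv⟩
  · rintro M X C N Y q ⟨h1, h2⟩ hq
    refine ⟨?_, fun r hr hid => ?_⟩
    · rintro c ⟨c0, -, h3⟩
      exact (hq.sub h3).2
    · have h3 := (hq.trans hr).trans hq.symm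
      have h4 := h2 _ h3 (by
        rintro ⟨u, v⟩ ⟨h5, h6⟩
        simp only at h5 h6
        subst h5
        obtain ⟨w, hw⟩ := hq.tot u (h1 h6)
        exact ⟨w, ⟨w, hw, hid ⟨rfl, u, h6, hw⟩⟩, hw⟩)
      rintro ⟨u, v⟩ huv
      obtain ⟨x, hx⟩ := hq.sur u (hr.sub huv).1
      obtain ⟨x', hx'⟩ := hq.sur v (hr.sub huv).2
      have h7 : (x, x') ∈ idOn univ := h4 ⟨v, ⟨u, hx, huv⟩, hx'⟩
      have h8 : x = x' := h7.1
      subst h8
      exact ⟨hq.piso.snd_eq hx hx' rfl, mem_univ _⟩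
  · intro M hM y
    obtain ⟨C, hC1, hC2, hC3⟩ := hrig M hM y
    refine ⟨insert y C, hC1.insert y, insert_subset ((hwo M hM).irr y) hC2, mem_insert _ _,
      insert_subset ((hwo M hM).irr y) hC2, fun q hq hid => ?_⟩
    rintro ⟨u, v⟩ huv
    refine ⟨hC3 u (hq.sub huv).1 v (hq.sub huv).2 ((hq.iso.bf β).subset ?_), mem_univ _⟩
    rintro w (rfl | hw)
    · exact huv
    · exact hid ⟨hw.1, mem_insert_of_mem _ hw.2⟩
  · rintro M hM y C q ⟨h1, h2⟩ hy hq hid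
    refine (IsoOn.refl M univ).mono (h2 q hq hid)

end Pool.Agent.Y560.TT
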